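import Pool.Agent.H97.OC.Stubs

/-! OC10: the Blaschke-Santaló inequality in the plane from the sector inequality and
equipartition. -/

set_option autoImplicit false

open Set Filter Topology Complex MeasureTheory
open scoped Real

namespace Pool.Agent.H97.OC.BSL

/-- support function with respect to the origin `O` -/
noncomputable def ps (γ : ℝ → ℂ) (O : ℂ) (θ : ℝ) : ℝ := ((γ θ - O) * exp (-(θ * I))).re

/-- its derivative -/
noncomputable def qs (γ : ℝ → ℂ) (O : ℂ) (θ : ℝ) : ℝ := ((γ θ - O) * exp (-(θ * I))).im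

/-- polar angle -/
noncomputable def ph (γ : ℝ → ℂ) (O : ℂ) (θ : ℝ) : ℝ := θ + Real.arctan (qs γ O θ / ps γ O θ)

lemma exp_mul_neg (θ : ℝ) : exp (θ * I) * exp (-(θ * I)) = 1 := by
  rw [← exp_add]; simp

lemma gam_eq (γ : ℝ → ℂ) (O : ℂ) (θ : ℝ) :
    γ θ - O = ((ps γ O θ : ℂ) + (qs γ O θ : ℂ) * I) * exp (θ * I) := by
  have h : ((ps γ O θ : ℂ) + (qs γ O θ : ℂ) * I) = (γ θ - O) * exp (-(θ * I)) := re_add_im _
  rw [h, mul_assoc, mul_comm (exp _) (exp _), exp_mul_neg, mul_one]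

lemma ps_hasDerivAt {γ : ℝ → ℂ} {ρ : ℝ → ℝ} {O : ℂ}
    (hd : ∀ θ, HasDerivAt γ (ρ θ * (Complex.I * Complex.exp (θ * Complex.I))) θ) (θ : ℝ) :
    HasDerivAt (ps γ O) (qs γ O θ) θ ∧ HasDerivAt (qs γ O) (ρ θ - ps γ O θ) θ := by
  have h1 : HasDerivAt (fun θ : ℝ => -((θ : ℂ) * I)) (-I) θ :=
    ((ofRealCLM.hasDerivAt (x := θ)).mul_const I).neg.congr_deriv (by simp)
  have h2 : HasDerivAt (fun θ : ℝ => (γ θ - O) * exp (-(θ * I)))
      (((qs γ O θ : ℝ) : ℂ) + ((ρ θ - ps γ O θ : ℝ) : ℂ) * I) θ := by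
    refine (((hd θ).sub_const O).mul h1.cexp).congr_deriv ?_
    conv_lhs => rw [gam_eq γ O θ]
    push_cast
    linear_combination (ρ θ * I - ((ps γ O θ : ℂ) + (qs γ O θ : ℂ) * I) * I) * exp_mul_neg θ -
      (qs γ O θ : ℂ) * I_sq
  constructor
  · have h3 : HasDerivAt (fun θ : ℝ => reCLM ((γ θ - O) * exp (-(θ * I)))) _ θ :=
      HasFDerivAt.comp_hasDerivAt (f := fun θ : ℝ => (γ θ - O) * exp (-(θ * I))) θ
        reCLM.hasFDerivAt h2
    exact h3.congr_deriv (by simp)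
  · have h3 : HasDerivAt (fun θ : ℝ => imCLM ((γ θ - O) * exp (-(θ * I)))) _ θ :=
      HasFDerivAt.comp_hasDerivAt (f := fun θ : ℝ => (γ θ - O) * exp (-(θ * I))) θ
        imCLM.hasFDerivAt h2
    exact h3.congr_deriv (by simp)

lemma exp_two_pi_shift (θ : ℝ) : exp (-(((θ + 2 * π : ℝ) : ℂ) * I)) = exp (-(θ * I)) := by
  have : -(((θ + 2 * π : ℝ) : ℂ) * I) = -(θ * I) - 2 * π * I := by push_cast; ring
  rw [this, exp_sub, exp_two_pi_mul_I, div_one]

lemma exp_two_pi_shift' (θ : ℝ) : exp ((((θ + 2 * π : ℝ) : ℂ) * I)) = exp (θ * I) := by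
  have : (((θ + 2 * π : ℝ) : ℂ) * I) = (θ * I) + 2 * π * I := by push_cast; ring
  rw [this, exp_add, exp_two_pi_mul_I, mul_one]

lemma supp {γ : ℝ → ℂ} {ρ : ℝ → ℝ} {O : ℂ} (hc : Continuous ρ) (hp : ∀ θ, 0 < ρ θ)
    (hd : ∀ θ, HasDerivAt γ (ρ θ * (Complex.I * Complex.exp (θ * Complex.I))) θ)
    (hper : ∀ θ, γ (θ + 2 * π) = γ θ) (hs : ∀ θ, 0 < ps γ O θ) :
    Supp2 (ps γ O) (qs γ O) ρ where
  cont := hc
  rpos := hp
  ppos := hs
  dp θ := (ps_hasDerivAt hd θ).1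
  dq θ := (ps_hasDerivAt hd θ).2
  pp θ := by
    unfold ps
    rw [hper, exp_two_pi_shift]
  qp θ := by
    unfold qs
    rw [hper, exp_two_pi_shift]
  rp θ := by
    have h1 : HasDerivAt (fun θ => γ (θ + 2 * π)) (ρ (θ + 2 * π) *
        (Complex.I * Complex.exp ((((θ + 2 * π : ℝ) : ℂ) * Complex.I)))) θ :=
      (hd (θ + 2 * π)).comp_add_const θ (2 * π)
    have h3 : (fun θ => γ (θ + 2 * π)) = fun θ => γ θ := funext hper
    rw [h3] at h1
    have h4 := h1.unique (hd θ)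
    rw [exp_two_pi_shift'] at h4
    have h6 : ((ρ (θ + 2 * π) : ℂ) - ρ θ) * (I * exp (θ * I)) = 0 := by linear_combination h4
    have h7 : I * exp (θ * I) ≠ 0 := mul_ne_zero I_ne_zero (exp_ne_zero _)
    have h8 := (mul_eq_zero.1 h6).resolve_right h7
    exact_mod_cast sub_eq_zero.1 h8

/-- polar form -/
lemma polar {p q : ℝ} (hp : 0 < p) :
    ((p : ℂ) + q * I) = ((√(p ^ 2 + q ^ 2) : ℝ) : ℂ) * exp ((Real.arctan (q / p) : ℝ) * I) := by
  have h0 : 0 < √(p ^ 2 + q ^ 2) := Real.sqrt_pos.2 (by positivity)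
  have h1 : √(1 + (q / p) ^ 2) = √(p ^ 2 + q ^ 2) / p := by
    rw [show 1 + (q / p) ^ 2 = (p ^ 2 + q ^ 2) / p ^ 2 by field_simp, Real.sqrt_div (by positivity),
      Real.sqrt_sq hp.le]
  rw [exp_mul_I]
  apply Complex.ext
  · simp only [add_re, ofReal_re, mul_re, I_re, I_im, ofReal_im, mul_zero, mul_one, sub_zero,
      add_zero, zero_mul, ← ofReal_cos, ← ofReal_sin, Real.cos_arctan, h1]
    field_simp
  · simp only [add_im, ofReal_im, mul_im, ofReal_re, I_re, I_im, mul_zero, mul_one, zero_add,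
      add_zero, zero_mul, ← ofReal_cos, ← ofReal_sin, Real.sin_arctan, h1]
    field_simp

lemma gam_polar (γ : ℝ → ℂ) (O : ℂ) (θ : ℝ) (hp : 0 < ps γ O θ) :
    ∃ r : ℝ, 0 < r ∧ γ θ - O = r * exp ((ph γ O θ : ℝ) * I) := by
  refine ⟨√(ps γ O θ ^ 2 + qs γ O θ ^ 2), Real.sqrt_pos.2 (by positivity), ?_⟩
  rw [gam_eq γ O θ, polar hp, mul_assoc, ← exp_add]
  congr 2
  unfold ph
  push_cast
  ring

lemma ph_hasDerivAt {p q ρ : ℝ → ℝ} (h : Supp2 p q ρ) (θ : ℝ) :
    HasDerivAt (fun t => t + Real.arctan (q t / p t)) (ρ θ * p θ / (p θ ^ 2 + q θ ^ 2)) θ := by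
  have hp := h.ppos θ
  have h1 := ((h.dq θ).div (h.dp θ) hp.ne').arctan
  have h2 := (hasDerivAt_id θ).add h1
  refine h2.congr_deriv ?_
  rw [Pi.div_apply]
  have h3 : (1 + (q θ / p θ) ^ 2) ≠ 0 := by positivity
  have h4 : p θ ^ 2 + q θ ^ 2 ≠ 0 := by positivity
  field_simp
  ring

lemma ph_strictMono {p q ρ : ℝ → ℝ} (h : Supp2 p q ρ) :
    StrictMono (fun t => t + Real.arctan (q t / p t)) := by
  refine strictMono_of_deriv_pos fun θ => ?_
  rw [(ph_hasDerivAt h θ).deriv]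
  have := h.ppos θ
  have := h.rpos θ
  positivity

end Pool.Agent.H97.OC.BSL

namespace Pool.Agent.H97.OC

open BSL

theorem bs_of (h1 : S_sector) (h2 : S_equi) : S_bs := by
  intro γ ρ hc hp hd hper
  obtain ⟨O, hO, t₁, t₂, t₃, t₄, k, k', A, h12, h23, h34, h41, hk, hk', e3, e4, A1, A2, A3, A4⟩ :=
    h2 γ ρ hc hp hd hper
  refine ⟨O, hO, ?_⟩
  have hS : Supp2 (ps γ O) (qs γ O) ρ := supp hc hp hd hper hO
  set p := ps γ O with hpd
  set q := qs γ O with hqd
  have eI : ∀ θ : ℝ, ((γ θ - O) * Complex.exp (-(θ * Complex.I))).re = p θ := fun θ => rfl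
  simp only [eI] at A1 A2 A3 A4 hO ⊢
  set f : ℝ → ℝ := fun t => t + Real.arctan (q t / p t) with hf
  have hfm : StrictMono f := ph_strictMono hS
  have hf2 : ∀ t, f (t + 2 * π) = f t + 2 * π := by
    intro t
    simp only [hf, hS.pp, hS.qp]
    ring
  have hopp : ∀ s t m : ℝ, 0 < m → s < t → t < s + 2 * π → γ t - O = -(m * (γ s - O)) →
      f t = f s + π := by
    intro s t m hm hst hts he
    obtain ⟨r, hr, er⟩ := gam_polar γ O s (hO s)
    obtain ⟨r', hr', er'⟩ := gam_polar γ O t (hO t)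
    rw [er, er'] at he
    have g1 : (r' : ℂ) * exp (((f t - f s : ℝ) : ℂ) * I) = -(m * r) := by
      have : exp (((f t - f s : ℝ) : ℂ) * I) = exp ((ph γ O t : ℝ) * I) * exp (-((ph γ O s : ℝ) * I)) := by
        rw [← exp_add]
        congr 1
        simp only [hf, ph]
        push_cast
        ring
      rw [this, ← mul_assoc, he]
      linear_combination (-(m * r : ℂ)) * exp_mul_neg (ph γ O s)
    have g2 : r' * Real.sin (f t - f s) = 0 := by
      have := congrArg Complex.im g1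
      rw [exp_mul_I, ← ofReal_cos, ← ofReal_sin] at this
      have e5 : ((r' : ℂ) * ((Real.cos (f t - f s) : ℝ) + (Real.sin (f t - f s) : ℝ) * I)).im =
          r' * Real.sin (f t - f s) := by
        simp only [mul_im, ofReal_re, ofReal_im, add_im, add_re, mul_re, I_re, I_im]
        ring
      rw [e5] at this
      rw [this, show (-((m : ℂ) * r)) = ((-(m * r) : ℝ) : ℂ) by push_cast; ring, ofReal_im]
    have g3 : Real.sin (f t - f s) = 0 := (mul_eq_zero.1 g2).resolve_left hr'.ne'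
    have g4 : 0 < f t - f s := sub_pos.2 (hfm hst)
    have g5 : f t - f s < 2 * π := by
      have := hfm hts
      rw [hf2] at this
      linarith
    obtain ⟨n, hn⟩ := Real.sin_eq_zero_iff.1 g3
    have hpi := Real.pi_pos
    have n1 : (0 : ℝ) < n := by
      by_contra hcon
      push Not at hcon
      nlinarith
    have n2 : (n : ℝ) < 2 := by
      by_contra hcon
      push Not at hcon
      nlinarith
    have n3 : n = 1 := by
      have a1 : (0 : ℤ) < n := by exact_mod_cast n1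
      have a2 : n < 2 := by exact_mod_cast n2
      omega
    rw [n3] at hn
    push_cast at hn
    linarith
  have f3 : f t₃ = f t₁ + π := hopp t₁ t₃ k hk (h12.trans h23) (by linarith) e3
  have f4 : f t₄ = f t₂ + π := hopp t₂ t₄ k' hk' (h23.trans h34) (by linarith) e4
  have m12 := hfm h12
  have m23 := hfm h23
  have m34 := hfm h34
  have m41 := hfm h41
  rw [hf2] at m41
  have hpc : Continuous p := continuous_iff_continuousAt.2 fun θ => (hS.dp θ).continuousAt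
  have hJc : Continuous (fun θ => 1 / p θ ^ 2) :=
    continuous_const.div (hpc.pow 2) fun θ => pow_ne_zero 2 (hO θ).ne'
  have hIc : Continuous (fun θ => ρ θ * p θ) := hc.mul hpc
  have hJ : ∀ a b : ℝ, IntervalIntegrable (fun θ => 1 / p θ ^ 2) volume a b :=
    fun a b => hJc.intervalIntegrable a b
  have hI : ∀ a b : ℝ, IntervalIntegrable (fun θ => ρ θ * p θ) volume a b :=
    fun a b => hIc.intervalIntegrable a b
  have s1 := h1 p q ρ hS t₁ t₂ m12 (by change f t₂ < f t₁ + π; linarith)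
  have s2 := h1 p q ρ hS t₂ t₃ m23 (by change f t₃ < f t₂ + π; linarith)
  have s3 := h1 p q ρ hS t₃ t₄ m34 (by change f t₄ < f t₃ + π; linarith)
  have s4 := h1 p q ρ hS t₄ (t₁ + 2 * π) (by change f t₄ < f (t₁ + 2 * π); rw [hf2]; linarith)
    (by change f (t₁ + 2 * π) < f t₄ + π; rw [hf2]; linarith)
  change (∫ t in t₁..t₂, ρ t * p t) * (∫ θ in (f t₂ - π / 2)..(f t₁ + π / 2), 1 / p θ ^ 2) ≤
    π ^ 2 / 4 at s1
  change (∫ t in t₂..t₃, ρ t * p t) * (∫ θ in (f t₃ - π / 2)..(f t₂ + π / 2), 1 / p θ ^ 2) ≤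
    π ^ 2 / 4 at s2
  change (∫ t in t₃..t₄, ρ t * p t) * (∫ θ in (f t₄ - π / 2)..(f t₃ + π / 2), 1 / p θ ^ 2) ≤
    π ^ 2 / 4 at s3
  change (∫ t in t₄..(t₁ + 2 * π), ρ t * p t) *
    (∫ θ in (f (t₁ + 2 * π) - π / 2)..(f t₄ + π / 2), 1 / p θ ^ 2) ≤ π ^ 2 / 4 at s4
  rw [A1] at s1
  rw [A2] at s2
  rw [A3] at s3
  rw [A4] at s4
  rw [f3, show f t₁ + π - π / 2 = f t₁ + π / 2 by ring] at s2
  rw [f3, f4, show f t₂ + π - π / 2 = f t₂ + π / 2 by ring] at s3
  rw [f4, hf2, show f t₁ + 2 * π - π / 2 = f t₁ + π + π / 2 by ring] at s4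
  have hadd : (∫ θ in (f t₂ - π / 2)..(f t₁ + π / 2), 1 / p θ ^ 2) +
      (∫ θ in (f t₁ + π / 2)..(f t₂ + π / 2), 1 / p θ ^ 2) +
      (∫ θ in (f t₂ + π / 2)..(f t₁ + π + π / 2), 1 / p θ ^ 2) +
      (∫ θ in (f t₁ + π + π / 2)..(f t₂ + π + π / 2), 1 / p θ ^ 2) =
      ∫ θ in (0 : ℝ)..(2 * π), 1 / p θ ^ 2 := by
    rw [intervalIntegral.integral_add_adjacent_intervals (hJ _ _) (hJ _ _),
      intervalIntegral.integral_add_adjacent_intervals (hJ _ _) (hJ _ _),
      intervalIntegral.integral_add_adjacent_intervals (hJ _ _) (hJ _ _)]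
    have hper' : Function.Periodic (fun θ => 1 / p θ ^ 2) (2 * π) := by
      intro θ
      simp only [hS.pp]
    have := hper'.intervalIntegral_add_eq (f t₂ - π / 2) 0
    rw [show f t₂ - π / 2 + 2 * π = f t₂ + π + π / 2 by ring, zero_add] at this
    exact this
  have haddI : ∫ θ in (0 : ℝ)..(2 * π), ρ θ * p θ = 4 * A := by
    have hper' : Function.Periodic (fun θ => ρ θ * p θ) (2 * π) := by
      intro θ
      simp only [hS.pp, hS.rp]
    have := hper'.intervalIntegral_add_eq 0 t₁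
    rw [zero_add] at this
    rw [this, ← intervalIntegral.integral_add_adjacent_intervals (hI t₁ t₄) (hI _ _),
      ← intervalIntegral.integral_add_adjacent_intervals (hI t₁ t₃) (hI _ _),
      ← intervalIntegral.integral_add_adjacent_intervals (hI t₁ t₂) (hI _ _), A1, A2, A3, A4]
    ring
  rw [haddI, ← hadd]
  nlinarith [s1, s2, s3, s4]

end Pool.Agent.H97.OC
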