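import Pool.Agent.H97.OC.Stubs

/-!
# Outer billiards: OC9, four sectors of equal area by two chords

Proof of `S_equi` (helper96).
-/

set_option autoImplicit false

open Set MeasureTheory Filter Topology
open scoped Real

namespace Pool.Agent.H97.OC

namespace Equi

/-- support function with respect to `(P, Q)` -/
noncomputable def H (X Y : ℝ → ℝ) (P Q θ : ℝ) : ℝ :=
  (X θ - P) * Real.cos θ + (Y θ - Q) * Real.sin θ

/-- an oval in coordinates -/
structure Ov (X Y ρ : ℝ → ℝ) : Prop where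
  cont : Continuous ρ
  rpos : ∀ θ, 0 < ρ θ
  dX : ∀ θ, HasDerivAt X (-(ρ θ * Real.sin θ)) θ
  dY : ∀ θ, HasDerivAt Y (ρ θ * Real.cos θ) θ
  pX : ∀ θ, X (θ + 2 * π) = X θ
  pY : ∀ θ, Y (θ + 2 * π) = Y θ

variable {X Y ρ : ℝ → ℝ}

theorem Ov.cX (h : Ov X Y ρ) : Continuous X :=
  continuous_iff_continuousAt.2 fun θ => (h.dX θ).continuousAt

theorem Ov.cY (h : Ov X Y ρ) : Continuous Y :=
  continuous_iff_continuousAt.2 fun θ => (h.dY θ).continuousAt

theorem Ov.H_add (h : Ov X Y ρ) (P Q θ : ℝ) : H X Y P Q (θ + 2 * π) = H X Y P Q θ := by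
  unfold H
  rw [h.pX, h.pY, Real.cos_add_two_pi, Real.sin_add_two_pi]

theorem Ov.str (h : Ov X Y ρ) {a b : ℝ} (hab : a < b) (hba : b < a + 2 * π) :
    0 < H X Y (X a) (Y a) b := by
  set f : ℝ → ℝ := fun x => (X b - X x) * Real.cos b + (Y b - Y x) * Real.sin b with hf
  have hd : ∀ x, HasDerivAt f (-(ρ x * Real.sin (b - x))) x := by
    intro x
    have h1 := (((h.dX x).const_sub (X b)).mul_const (Real.cos b)).add
      (((h.dY x).const_sub (Y b)).mul_const (Real.sin b))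
    refine h1.congr_deriv ?_
    rw [Real.sin_sub]
    ring
  have hc : Continuous f := continuous_iff_continuousAt.2 fun θ => (hd θ).continuousAt
  have h0 : f b = 0 := by simp [hf]
  have hgoal : f a = H X Y (X a) (Y a) b := rfl
  rw [← hgoal]
  rcases le_or_gt b (a + π) with h1 | h1
  · have : StrictAntiOn f (Icc a b) := by
      refine strictAntiOn_of_deriv_neg (convex_Icc a b) hc.continuousOn fun x hx => ?_
      rw [interior_Icc] at hx
      rw [(hd x).deriv]
      have h2 : 0 < Real.sin (b - x) := Real.sin_pos_of_pos_of_lt_pi (by linarith [hx.2])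
        (by linarith [hx.1])
      have := mul_pos (h.rpos x) h2
      linarith
    have h2 := this (left_mem_Icc.2 hab.le) (right_mem_Icc.2 hab.le) hab
    linarith
  · have : StrictMonoOn f (Icc b (a + 2 * π)) := by
      refine strictMonoOn_of_deriv_pos (convex_Icc _ _) hc.continuousOn fun x hx => ?_
      rw [interior_Icc] at hx
      rw [(hd x).deriv]
      have h2 : 0 < Real.sin (x - b) := Real.sin_pos_of_pos_of_lt_pi (by linarith [hx.1])
        (by linarith [hx.2])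
      have h3 : Real.sin (b - x) = - Real.sin (x - b) := by rw [← Real.sin_neg]; ring_nf
      rw [h3]
      have := mul_pos (h.rpos x) h2
      linarith
    have h2 := this (left_mem_Icc.2 hba.le) (right_mem_Icc.2 hba.le) hba
    have h3 : f (a + 2 * π) = f a := by simp only [hf]; rw [h.pX, h.pY]
    linarith

theorem Ov.str2 (h : Ov X Y ρ) {a b : ℝ} (hab : a < b) (hba : b < a + 2 * π) :
    0 < H X Y (X b) (Y b) a := by
  rw [← h.H_add]
  exact h.str hba (by linarith)

theorem Ov.ori (h : Ov X Y ρ) {c a b : ℝ} (hca : c < a) (hab : a < b) (hbc : b < c + 2 * π) :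
    0 < (X a - X c) * (Y b - Y c) - (Y a - Y c) * (X b - X c) := by
  set U : ℝ → ℝ := fun θ => -((X θ - X c) * Real.cos c + (Y θ - Y c) * Real.sin c) with hU
  set V : ℝ → ℝ := fun θ => (X θ - X c) * Real.sin c - (Y θ - Y c) * Real.cos c with hV
  have dU : ∀ θ, HasDerivAt U (ρ θ * Real.sin (θ - c)) θ := by
    intro θ
    have h1 := ((((h.dX θ).sub_const (X c)).mul_const (Real.cos c)).add
      (((h.dY θ).sub_const (Y c)).mul_const (Real.sin c))).neg
    refine h1.congr_deriv ?_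
    rw [Real.sin_sub]
    ring
  have dV : ∀ θ, HasDerivAt V (-(ρ θ * Real.cos (θ - c))) θ := by
    intro θ
    have h1 := (((h.dX θ).sub_const (X c)).mul_const (Real.sin c)).sub
      (((h.dY θ).sub_const (Y c)).mul_const (Real.cos c))
    refine h1.congr_deriv ?_
    rw [Real.cos_sub]
    ring
  have hUpos : ∀ θ ∈ Icc a b, 0 < U θ := by
    intro θ hθ
    have := h.str2 (a := c) (b := θ) (by linarith [hθ.1]) (by linarith [hθ.2])
    unfold H at this
    simp only [hU]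
    linarith
  have hm : StrictMonoOn (fun θ => V θ / U θ) (Icc a b) := by
    refine strictMonoOn_of_deriv_pos (convex_Icc a b) ?_ fun x hx => ?_
    · refine ContinuousOn.div ?_ ?_ fun x hx => (hUpos x hx).ne'
      · exact fun x _ => (dV x).continuousAt.continuousWithinAt
      · exact fun x _ => (dU x).continuousAt.continuousWithinAt
    · rw [interior_Icc] at hx
      have hx' := Ioo_subset_Icc_self hx
      have h1 := (dV x).div (dU x) (hUpos x hx').ne'
      have h2 : deriv (fun θ => V θ / U θ) x = _ := h1.deriv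
      rw [h2]
      refine div_pos ?_ (pow_pos (hUpos x hx') 2)
      have h3 := h.str (a := c) (b := x) (by linarith [hx.1]) (by linarith [hx.2])
      have h4 := mul_pos (h.rpos x) h3
      have h5 : -(ρ x * Real.cos (x - c)) * U x - V x * (ρ x * Real.sin (x - c)) =
          ρ x * H X Y (X c) (Y c) x := by
        have e1 : Real.cos x = Real.cos (x - c) * Real.cos c - Real.sin (x - c) * Real.sin c := by
          rw [← Real.cos_add]; ring_nf
        have e2 : Real.sin x = Real.sin (x - c) * Real.cos c + Real.cos (x - c) * Real.sin c := by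
          rw [← Real.sin_add]; ring_nf
        unfold H
        rw [e1, e2]
        simp only [hU, hV]
        ring
      rw [h5]
      exact h4
  have h1 := hm (left_mem_Icc.2 hab.le) (right_mem_Icc.2 hab.le) hab
  have ha := hUpos a (left_mem_Icc.2 hab.le)
  have hb := hUpos b (right_mem_Icc.2 hab.le)
  simp only at h1
  rw [div_lt_div_iff₀ ha hb] at h1
  have h2 : (X a - X c) * (Y b - Y c) - (Y a - Y c) * (X b - X c) = V b * U a - V a * U b := by
    have h3 := Real.sin_sq_add_cos_sq c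
    simp only [hU, hV]
    have : (X a - X c) * (Y b - Y c) - (Y a - Y c) * (X b - X c) =
      ((X a - X c) * (Y b - Y c) - (Y a - Y c) * (X b - X c)) *
        (Real.sin c ^ 2 + Real.cos c ^ 2) := by rw [h3, mul_one]
    rw [this]
    ring
  rw [h2]
  linarith

/-- continuity of an implicit function -/
theorem impl {F : ℝ → ℝ → ℝ} {l r A : ℝ} (hx : ∀ y, ContinuousOn (fun x => F x y) (Icc 0 1))
    (hy : ∀ x ∈ Icc (0 : ℝ) 1, ContinuousOn (F x) (Icc l r))
    (hm : ∀ x ∈ Icc (0 : ℝ) 1, StrictMonoOn (F x) (Icc l r)) (hlr : l < r)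
    (hA : ∀ x ∈ Icc (0 : ℝ) 1, F x l < A ∧ A < F x r) :
    ∃ a : ℝ → ℝ, ContinuousOn a (Icc 0 1) ∧ ∀ x ∈ Icc (0 : ℝ) 1, a x ∈ Ioo l r ∧ F x (a x) = A := by
  have h1 : ∀ x ∈ Icc (0 : ℝ) 1, ∃ y, y ∈ Ioo l r ∧ F x y = A := by
    intro x hx'
    obtain ⟨y, hy1, hy2⟩ := intermediate_value_Icc hlr.le (hy x hx')
      (show A ∈ Icc (F x l) (F x r) from ⟨(hA x hx').1.le, (hA x hx').2.le⟩)
    refine ⟨y, ⟨lt_of_le_of_ne hy1.1 ?_, lt_of_le_of_ne hy1.2 ?_⟩, hy2⟩
    · rintro rfl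
      exact absurd hy2 (hA x hx').1.ne
    · rintro rfl
      exact absurd hy2 (hA x hx').2.ne'
  choose! a ha using h1
  refine ⟨a, ?_, ha⟩
  intro x₀ hx₀
  rw [Metric.continuousWithinAt_iff']
  intro ε hε
  obtain ⟨⟨h2, h3⟩, h4⟩ := ha x₀ hx₀
  set a1 := max l (a x₀ - ε / 2) with ha1
  set a2 := min r (a x₀ + ε / 2) with ha2
  have i1 : a1 < a x₀ := max_lt h2 (by linarith)
  have i2 : a x₀ < a2 := lt_min h3 (by linarith)
  have m1 : a1 ∈ Icc l r := ⟨le_max_left _ _, by linarith⟩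
  have m2 : a2 ∈ Icc l r := ⟨by linarith, min_le_left _ _⟩
  have m0 : a x₀ ∈ Icc l r := ⟨h2.le, h3.le⟩
  have j1 : F x₀ a1 < A := by rw [← h4]; exact hm x₀ hx₀ m1 m0 i1
  have j2 : A < F x₀ a2 := by rw [← h4]; exact hm x₀ hx₀ m0 m2 i2
  have e1 : ∀ᶠ x in 𝓝[Icc 0 1] x₀, F x a1 < A := (hx a1 x₀ hx₀).eventually_lt_const j1
  have e2 : ∀ᶠ x in 𝓝[Icc 0 1] x₀, A < F x a2 := (hx a2 x₀ hx₀).eventually_const_lt j2
  filter_upwards [e1, e2, self_mem_nhdsWithin] with x k1 k2 k3
  obtain ⟨⟨n1, n2⟩, n3⟩ := ha x k3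
  have m : a x ∈ Icc l r := ⟨n1.le, n2.le⟩
  have o1 : a1 < a x := (hm x k3).lt_iff_lt m1 m |>.1 (by rw [n3]; exact k1)
  have o2 : a x < a2 := (hm x k3).lt_iff_lt m m2 |>.1 (by rw [n3]; exact k2)
  have p1 : a x₀ - ε / 2 ≤ a1 := le_max_right _ _
  have p2 : a2 ≤ a x₀ + ε / 2 := min_le_right _ _
  rw [Real.dist_eq, abs_lt]
  constructor <;> linarith

/-- the main statement in coordinates -/
theorem Ov.main (h : Ov X Y ρ) : ∃ P Q : ℝ, (∀ θ, 0 < H X Y P Q θ) ∧
    ∃ t₁ t₂ t₃ t₄ k k' A : ℝ, t₁ < t₂ ∧ t₂ < t₃ ∧ t₃ < t₄ ∧ t₄ < t₁ + 2 * π ∧ 0 < k ∧ 0 < k' ∧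
      X t₃ - P = -(k * (X t₁ - P)) ∧ Y t₃ - Q = -(k * (Y t₁ - Q)) ∧
      X t₄ - P = -(k' * (X t₂ - P)) ∧ Y t₄ - Q = -(k' * (Y t₂ - Q)) ∧
      (∫ θ in t₁..t₂, ρ θ * H X Y P Q θ) = A ∧
      (∫ θ in t₂..t₃, ρ θ * H X Y P Q θ) = A ∧
      (∫ θ in t₃..t₄, ρ θ * H X Y P Q θ) = A ∧
      (∫ θ in t₄..(t₁ + 2 * π), ρ θ * H X Y P Q θ) = A := by
  have h2pi : (0 : ℝ) < 2 * π := by positivity
  have cX := h.cX
  have cY := h.cY
  have cH : ∀ P Q, Continuous (fun θ => ρ θ * H X Y P Q θ) := by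
    intro P Q
    unfold H
    exact h.cont.mul (((cX.sub continuous_const).mul Real.continuous_cos).add
      ((cY.sub continuous_const).mul Real.continuous_sin))
  set S : ℝ → ℝ := fun θ => ∫ t in (0 : ℝ)..θ, ρ t * H X Y (X 0) (Y 0) t with hS
  have dS : ∀ θ, HasDerivAt S (ρ θ * H X Y (X 0) (Y 0) θ) θ := fun θ =>
    intervalIntegral.integral_hasDerivAt_right ((cH _ _).intervalIntegrable _ _)
      ((cH _ _).stronglyMeasurableAtFilter _ _) (cH _ _).continuousAt
  have cS : Continuous S := continuous_iff_continuousAt.2 fun θ => (dS θ).continuousAt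
  have S0 : S 0 = 0 := by simp [hS]
  have mS : StrictMonoOn S (Icc 0 (2 * π)) := by
    refine strictMonoOn_of_deriv_pos (convex_Icc _ _) cS.continuousOn fun x hx => ?_
    rw [interior_Icc] at hx
    rw [(dS x).deriv]
    exact mul_pos (h.rpos x) (h.str hx.1 (by linarith [hx.2]))
  have Wpos : 0 < S (2 * π) := by
    have := mS (left_mem_Icc.2 h2pi.le) (right_mem_Icc.2 h2pi.le) h2pi
    rwa [S0] at this
  obtain ⟨τ, hτ, hτ2⟩ := intermediate_value_Icc h2pi.le cS.continuousOn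
    (show S (2 * π) / 2 ∈ Icc (S 0) (S (2 * π)) from ⟨by rw [S0]; linarith, by linarith⟩)
  have τ0 : 0 < τ := lt_of_le_of_ne hτ.1 (by rintro rfl; rw [S0] at hτ2; linarith)
  have τ1 : τ < 2 * π := lt_of_le_of_ne hτ.2 (by rintro rfl; linarith)
  set D1 := X τ - X 0 with hD1
  set D2 := Y τ - Y 0 with hD2
  set c : ℝ → ℝ := fun θ => D1 * (Y θ - Y 0) - D2 * (X θ - X 0) with hc
  have dc : ∀ θ, HasDerivAt c (ρ θ * (D1 * Real.cos θ + D2 * Real.sin θ)) θ := by
    intro θ
    have h1 := (((h.dY θ).sub_const (Y 0)).const_mul D1).sub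
      (((h.dX θ).sub_const (X 0)).const_mul D2)
    refine h1.congr_deriv ?_
    ring
  set F : ℝ → ℝ → ℝ := fun x θ => S θ - x * c θ with hF
  have dF : ∀ x θ, HasDerivAt (F x) (ρ θ * H X Y (X 0 + x * D1) (Y 0 + x * D2) θ) θ := by
    intro x θ
    have h1 := (dS θ).sub ((dc θ).const_mul x)
    refine h1.congr_deriv ?_
    unfold H
    ring
  have cF : ∀ x, Continuous (F x) := fun x =>
    continuous_iff_continuousAt.2 fun θ => (dF x θ).continuousAt
  have hInt : ∀ x u v, ∫ θ in u..v, ρ θ * H X Y (X 0 + x * D1) (Y 0 + x * D2) θ = F x v - F x u :=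
    fun x u v => intervalIntegral.integral_eq_sub_of_hasDerivAt (fun θ _ => dF x θ)
      ((cH _ _).intervalIntegrable _ _)
  have X2 : X (2 * π) = X 0 := by have := h.pX 0; rwa [zero_add] at this
  have Y2 : Y (2 * π) = Y 0 := by have := h.pY 0; rwa [zero_add] at this
  have F0 : ∀ x, F x 0 = 0 := fun x => by simp [hF, hc, S0]
  have Fτ : ∀ x, F x τ = S (2 * π) / 2 := fun x => by
    simp only [hF, hc, hτ2, hD1, hD2]; ring
  have F2 : ∀ x, F x (2 * π) = S (2 * π) := fun x => by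
    simp only [hF, hc, X2, Y2]; ring
  have Hconv : ∀ x θ, H X Y (X 0 + x * D1) (Y 0 + x * D2) θ =
      (1 - x) * H X Y (X 0) (Y 0) θ + x * H X Y (X τ) (Y τ) θ := by
    intro x θ
    simp only [H, hD1, hD2]
    ring
  have P0 : ∀ θ, 0 < θ → θ < 2 * π → 0 < H X Y (X 0) (Y 0) θ := fun θ h1 h2 =>
    h.str h1 (by linarith)
  have Pτ1 : ∀ θ, 0 ≤ θ → θ < τ → 0 < H X Y (X τ) (Y τ) θ := fun θ h1 h2 =>
    h.str2 h2 (by linarith)
  have Pτ2 : ∀ θ, τ < θ → θ < 2 * π → 0 < H X Y (X τ) (Y τ) θ := fun θ h1 h2 =>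
    h.str h1 (by linarith)
  have Hpos : ∀ x ∈ Icc (0 : ℝ) 1, ∀ θ, 0 < θ → θ < 2 * π → θ ≠ τ →
      0 < H X Y (X 0 + x * D1) (Y 0 + x * D2) θ := by
    intro x hx θ h1 h2 h3
    rw [Hconv]
    have e1 := P0 θ h1 h2
    have e2 : 0 < H X Y (X τ) (Y τ) θ := by
      rcases lt_or_gt_of_ne h3 with h4 | h4
      · exact Pτ1 θ h1.le h4
      · exact Pτ2 θ h4 h2
    rcases eq_or_lt_of_le hx.1 with h5 | h5
    · rw [← h5]; linarith
    · have := mul_pos h5 e2
      have := mul_nonneg (sub_nonneg.2 hx.2) e1.le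
      linarith
  have mF1 : ∀ x ∈ Icc (0 : ℝ) 1, StrictMonoOn (F x) (Icc 0 τ) := by
    intro x hx
    refine strictMonoOn_of_deriv_pos (convex_Icc _ _) (cF x).continuousOn fun θ hθ => ?_
    rw [interior_Icc] at hθ
    rw [(dF x θ).deriv]
    exact mul_pos (h.rpos θ) (Hpos x hx θ hθ.1 (by linarith [hθ.2]) hθ.2.ne)
  have mF2 : ∀ x ∈ Icc (0 : ℝ) 1, StrictMonoOn (F x) (Icc τ (2 * π)) := by
    intro x hx
    refine strictMonoOn_of_deriv_pos (convex_Icc _ _) (cF x).continuousOn fun θ hθ => ?_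
    rw [interior_Icc] at hθ
    rw [(dF x θ).deriv]
    exact mul_pos (h.rpos θ) (Hpos x hx θ (by linarith [hθ.1]) hθ.2 hθ.1.ne')
  have cFx : ∀ y, ContinuousOn (fun x => F x y) (Icc 0 1) := by
    intro y
    simp only [hF]
    exact (continuous_const.sub (continuous_id.mul continuous_const)).continuousOn
  obtain ⟨a, ca, ha⟩ := impl (l := 0) (r := τ) (A := S (2 * π) / 4) cFx
    (fun x _ => (cF x).continuousOn) mF1 τ0 (fun x _ => by
      rw [F0, Fτ]; constructor <;> linarith)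
  obtain ⟨b, cb, hb⟩ := impl (l := τ) (r := 2 * π) (A := 3 * S (2 * π) / 4) cFx
    (fun x _ => (cF x).continuousOn) mF2 τ1 (fun x _ => by
      rw [F2, Fτ]; constructor <;> linarith)
  set E : ℝ → ℝ := fun x => (X (a x) - (X 0 + x * D1)) * (Y (b x) - (Y 0 + x * D2)) -
    (Y (a x) - (Y 0 + x * D2)) * (X (b x) - (X 0 + x * D1)) with hE
  have cE : ContinuousOn E (Icc 0 1) := by
    have c1 : ContinuousOn (fun x => X (a x)) (Icc 0 1) := cX.comp_continuousOn ca
    have c2 : ContinuousOn (fun x => Y (a x)) (Icc 0 1) := cY.comp_continuousOn ca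
    have c3 : ContinuousOn (fun x => X (b x)) (Icc 0 1) := cX.comp_continuousOn cb
    have c4 : ContinuousOn (fun x => Y (b x)) (Icc 0 1) := cY.comp_continuousOn cb
    have c5 : ContinuousOn (fun x : ℝ => X 0 + x * D1) (Icc 0 1) := by fun_prop
    have c6 : ContinuousOn (fun x : ℝ => Y 0 + x * D2) (Icc 0 1) := by fun_prop
    exact ((c1.sub c5).mul (c4.sub c6)).sub ((c2.sub c6).mul (c3.sub c5))
  have m0 : (0 : ℝ) ∈ Icc (0 : ℝ) 1 := by simp
  have m1 : (1 : ℝ) ∈ Icc (0 : ℝ) 1 := by simp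
  have E0 : 0 < E 0 := by
    obtain ⟨⟨u1, u2⟩, -⟩ := ha 0 m0
    obtain ⟨⟨u3, u4⟩, -⟩ := hb 0 m0
    have := h.ori (c := 0) (a := a 0) (b := b 0) u1 (by linarith) (by linarith)
    simp only [hE]
    rw [zero_mul, zero_mul, add_zero, add_zero]
    exact this
  have E1 : E 1 < 0 := by
    obtain ⟨⟨u1, u2⟩, -⟩ := ha 1 m1
    obtain ⟨⟨u3, u4⟩, -⟩ := hb 1 m1
    have := h.ori (c := τ) (a := b 1) (b := a 1 + 2 * π) u3 (by linarith) (by linarith)
    rw [h.pX, h.pY] at this
    have e1 : X 0 + 1 * D1 = X τ := by rw [hD1]; ring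
    have e2 : Y 0 + 1 * D2 = Y τ := by rw [hD2]; ring
    simp only [hE]
    rw [e1, e2]
    linarith
  obtain ⟨x, hx, hEx⟩ := intermediate_value_Icc' (zero_le_one' ℝ) cE
    (show (0 : ℝ) ∈ Icc (E 1) (E 0) from ⟨E1.le, E0.le⟩)
  have x0 : 0 < x := lt_of_le_of_ne hx.1 (by rintro rfl; linarith)
  have x1 : x < 1 := lt_of_le_of_ne hx.2 (by rintro rfl; linarith)
  obtain ⟨⟨u1, u2⟩, u5⟩ := ha x hx
  obtain ⟨⟨u3, u4⟩, u6⟩ := hb x hx
  have ca' : c (a x) < 0 := by
    have := h.ori (c := 0) (a := a x) (b := τ) u1 u2 (by linarith)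
    simp only [hc, hD1, hD2]
    linarith
  have cb' : 0 < c (b x) := by
    have := h.ori (c := 0) (a := τ) (b := b x) τ0 u3 (by linarith)
    simp only [hc, hD1, hD2]
    linarith
  refine ⟨X 0 + x * D1, Y 0 + x * D2, ?_, 0, a x, τ, b x, (1 - x) / x, -(c (b x) / c (a x)),
    S (2 * π) / 4, u1, u2, u3, by linarith, div_pos (by linarith) x0,
    neg_pos.2 (div_neg_of_pos_of_neg cb' ca'), ?_, ?_, ?_, ?_, ?_, ?_, ?_, ?_⟩
  · intro θ
    have hper : Function.Periodic (H X Y (X 0 + x * D1) (Y 0 + x * D2)) (2 * π) :=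
      fun θ => h.H_add _ _ θ
    obtain ⟨θ', hθ', he⟩ := hper.exists_mem_Ico₀ h2pi θ
    rw [he]
    rcases eq_or_lt_of_le hθ'.1 with h5 | h5
    · rw [← h5, Hconv]
      have e1 : H X Y (X 0) (Y 0) 0 = 0 := by simp [H]
      rw [e1, mul_zero, zero_add]
      exact mul_pos x0 (Pτ1 0 le_rfl τ0)
    · by_cases h6 : θ' = τ
      · rw [h6, Hconv]
        have e1 : H X Y (X τ) (Y τ) τ = 0 := by simp [H]
        rw [e1, mul_zero, add_zero]
        exact mul_pos (by linarith) (P0 τ τ0 τ1)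
      · exact Hpos x hx θ' h5 hθ'.2 h6
  · have hx' := x0.ne'
    rw [hD1]
    field_simp
    ring
  · have hx' := x0.ne'
    rw [hD2]
    field_simp
    ring
  · have hca := ca'.ne
    have key : c (a x) * (X (b x) - (X 0 + x * D1)) = c (b x) * (X (a x) - (X 0 + x * D1)) := by
      have e : E x * D1 = 0 := by rw [hEx, zero_mul]
      simp only [hE] at e
      simp only [hc]
      linear_combination -e
    rw [neg_mul, neg_neg, div_mul_eq_mul_div, eq_div_iff hca, ← key]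
    ring
  · have hca := ca'.ne
    have key : c (a x) * (Y (b x) - (Y 0 + x * D2)) = c (b x) * (Y (a x) - (Y 0 + x * D2)) := by
      have e : E x * D2 = 0 := by rw [hEx, zero_mul]
      simp only [hE] at e
      simp only [hc]
      linear_combination -e
    rw [neg_mul, neg_neg, div_mul_eq_mul_div, eq_div_iff hca, ← key]
    ring
  · rw [hInt, u5, F0]; ring
  · rw [hInt, u5, Fτ]; ring
  · rw [hInt, u6, Fτ]; ring
  · rw [hInt, u6, zero_add, F2]; ring

end Equi

open Equi in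
theorem equi : S_equi := by
  intro γ ρ hc hp hd hper
  have key : ∀ (O : ℂ) (θ : ℝ), ((γ θ - O) * Complex.exp (-(θ * Complex.I))).re =
      H (fun t => (γ t).re) (fun t => (γ t).im) O.re O.im θ := by
    intro O θ
    have h1 : Complex.exp (-(θ * Complex.I)) = Complex.mk (Real.cos θ) (-Real.sin θ) := by
      rw [← neg_mul, Complex.exp_mul_I]
      apply Complex.ext
      · simp [← Complex.ofReal_neg, ← Complex.ofReal_cos, ← Complex.ofReal_sin]
      · simp [← Complex.ofReal_neg, ← Complex.ofReal_cos, ← Complex.ofReal_sin]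
    rw [h1]
    simp [H, Complex.mul_re]
  have hO : Ov (fun t => (γ t).re) (fun t => (γ t).im) ρ := by
    refine ⟨hc, hp, fun θ => ?_, fun θ => ?_, fun θ => by simp [hper θ], fun θ => by simp [hper θ]⟩
    · have h1 := (Complex.reCLM.hasFDerivAt.comp_hasDerivAt θ (hd θ))
      refine h1.congr_deriv ?_
      have h2 : Complex.exp (θ * Complex.I) = Complex.mk (Real.cos θ) (Real.sin θ) := by
        rw [Complex.exp_mul_I]
        apply Complex.ext
        · simp [← Complex.ofReal_cos, ← Complex.ofReal_sin]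
        · simp [← Complex.ofReal_cos, ← Complex.ofReal_sin]
      rw [h2]
      simp
    · have h1 := (Complex.imCLM.hasFDerivAt.comp_hasDerivAt θ (hd θ))
      refine h1.congr_deriv ?_
      have h2 : Complex.exp (θ * Complex.I) = Complex.mk (Real.cos θ) (Real.sin θ) := by
        rw [Complex.exp_mul_I]
        apply Complex.ext
        · simp [← Complex.ofReal_cos, ← Complex.ofReal_sin]
        · simp [← Complex.ofReal_cos, ← Complex.ofReal_sin]
      rw [h2]
      simp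
  obtain ⟨P, Q, h1, t₁, t₂, t₃, t₄, k, k', A, g1, g2, g3, g4, g5, g6, g7, g8, g9, g10, g11, g12,
    g13, g14⟩ := hO.main
  refine ⟨⟨P, Q⟩, fun θ => by rw [key]; exact h1 θ, t₁, t₂, t₃, t₄, k, k', A, g1, g2, g3, g4, g5,
    g6, ?_, ?_, ?_, ?_, ?_, ?_⟩
  · apply Complex.ext
    · simpa using g7
    · simpa using g8
  · apply Complex.ext
    · simpa using g9
    · simpa using g10
  · simp only [key]; exact g11
  · simp only [key]; exact g12
  · simp only [key]; exact g13
  · simp only [key]; exact g14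

end Pool.Agent.H97.OC
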