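import Pool.Agent.H97.OC.Stubs

/-! OC8: the sector inequality. -/

set_option autoImplicit false

open Set MeasureTheory Filter Topology

namespace Pool.Agent.H97.OC

namespace Sec

/-- polar angle of the boundary point -/
noncomputable def ph (p q : ℝ → ℝ) (t : ℝ) : ℝ := t + Real.arctan (q t / p t)

theorem hasDerivAt_ph {p q ρ : ℝ → ℝ} (h : Supp2 p q ρ) (t : ℝ) :
    HasDerivAt (ph p q) (ρ t * p t / (p t ^ 2 + q t ^ 2)) t := by
  have hp := h.ppos t
  have h1 := ((h.dq t).div (h.dp t) hp.ne').arctan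
  have h2 := (hasDerivAt_id t).add h1
  refine h2.congr_deriv ?_
  have hne : p t ^ 2 + q t ^ 2 ≠ 0 := by positivity
  have hne2 : 1 + (q t / p t) ^ 2 ≠ 0 := by positivity
  have : 1 + (q t / p t) ^ 2 = (p t ^ 2 + q t ^ 2) / p t ^ 2 := by
    field_simp
  simp only [Pi.div_apply]
  rw [this]
  field_simp
  ring

theorem ph_strictMono {p q ρ : ℝ → ℝ} (h : Supp2 p q ρ) : StrictMono (ph p q) := by
  refine strictMono_of_deriv_pos fun t => ?_
  rw [(hasDerivAt_ph h t).deriv]
  have := h.ppos t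
  have := h.rpos t
  positivity

theorem cos_ph {p q ρ : ℝ → ℝ} (h : Supp2 p q ρ) (t : ℝ) :
    p t = √(p t ^ 2 + q t ^ 2) * Real.cos (ph p q t - t) := by
  have hp := h.ppos t
  have : ph p q t - t = Real.arctan (q t / p t) := by simp [ph]
  rw [this, Real.cos_arctan]
  have h1 : 1 + (q t / p t) ^ 2 = (p t ^ 2 + q t ^ 2) / p t ^ 2 := by
    field_simp
  rw [h1, Real.sqrt_div (by positivity), Real.sqrt_sq hp.le]
  have : √(p t ^ 2 + q t ^ 2) ≠ 0 := by positivity
  field_simp

theorem sin_ph {p q ρ : ℝ → ℝ} (h : Supp2 p q ρ) (t : ℝ) :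
    q t = √(p t ^ 2 + q t ^ 2) * Real.sin (ph p q t - t) := by
  have hp := h.ppos t
  have : ph p q t - t = Real.arctan (q t / p t) := by simp [ph]
  rw [this, Real.sin_arctan]
  have h1 : 1 + (q t / p t) ^ 2 = (p t ^ 2 + q t ^ 2) / p t ^ 2 := by
    field_simp
  rw [h1, Real.sqrt_div (by positivity), Real.sqrt_sq hp.le]
  have : √(p t ^ 2 + q t ^ 2) ≠ 0 := by positivity
  field_simp

/-- inner product with the direction `w`, in polar form -/
theorem polar {p q ρ : ℝ → ℝ} (h : Supp2 p q ρ) (t w : ℝ) :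
    p t * Real.sin (w - t) - q t * Real.cos (w - t) =
      √(p t ^ 2 + q t ^ 2) * Real.sin (w - ph p q t) := by
  have e : w - ph p q t = (w - t) - (ph p q t - t) := by ring
  rw [e, Real.sin_sub (w - t) (ph p q t - t)]
  linear_combination Real.sin (w - t) * cos_ph h t - Real.cos (w - t) * sin_ph h t

theorem cont_p {p q ρ : ℝ → ℝ} (h : Supp2 p q ρ) : Continuous p :=
  continuous_iff_continuousAt.2 fun x => (h.dp x).continuousAt

theorem cont_q {p q ρ : ℝ → ℝ} (h : Supp2 p q ρ) : Continuous q :=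
  continuous_iff_continuousAt.2 fun x => (h.dq x).continuousAt

theorem bdd_p {p q ρ : ℝ → ℝ} (h : Supp2 p q ρ) : ∃ M : ℝ, 0 < M ∧ ∀ θ, p θ ≤ M := by
  obtain ⟨x, -, hx⟩ := (isCompact_Icc (a := (0 : ℝ)) (b := 2 * Real.pi)).exists_isMaxOn
    (nonempty_Icc.2 Real.two_pi_pos.le) (cont_p h).continuousOn
  refine ⟨p x, h.ppos x, fun θ => ?_⟩
  have hper : Function.Periodic p (2 * Real.pi) := h.pp
  obtain ⟨y, hy, hyθ⟩ := hper.exists_mem_Ico₀ Real.two_pi_pos θ
  rw [hyθ]
  exact hx (Ico_subset_Icc_self hy)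

theorem tendsto_K {p q ρ : ℝ → ℝ} (h : Supp2 p q ρ) (a : ℝ) :
    Continuous (fun θ => ∫ x in a..θ, 1 / p x ^ 2) ∧
    StrictMono (fun θ => ∫ x in a..θ, 1 / p x ^ 2) ∧
    Function.Surjective (fun θ => ∫ x in a..θ, 1 / p x ^ 2) ∧
    ∀ θ, HasDerivAt (fun θ => ∫ x in a..θ, 1 / p x ^ 2) (1 / p θ ^ 2) θ := by
  have hpc := cont_p h
  have hc : Continuous fun x => 1 / p x ^ 2 :=
    continuous_const.div (hpc.pow 2) fun x => (pow_pos (h.ppos x) 2).ne'
  have hd : ∀ θ, HasDerivAt (fun θ => ∫ x in a..θ, 1 / p x ^ 2) (1 / p θ ^ 2) θ := fun θ =>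
    intervalIntegral.integral_hasDerivAt_right (hc.intervalIntegrable _ _)
      (hc.stronglyMeasurableAtFilter _ _) hc.continuousAt
  have hcont : Continuous (fun θ => ∫ x in a..θ, 1 / p x ^ 2) :=
    continuous_iff_continuousAt.2 fun x => (hd x).continuousAt
  obtain ⟨M, hM, hMb⟩ := bdd_p h
  have hlow : ∀ x, 1 / M ^ 2 ≤ 1 / p x ^ 2 := by
    intro x
    have := h.ppos x
    have := hMb x
    gcongr
  refine ⟨hcont, ?_, ?_, hd⟩
  · refine strictMono_of_deriv_pos fun θ => ?_
    rw [(hd θ).deriv]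
    have := h.ppos θ
    positivity
  · have htop : Tendsto (fun θ => ∫ x in a..θ, 1 / p x ^ 2) atTop atTop := by
      have hlin : Tendsto (fun θ : ℝ => (θ - a) * (1 / M ^ 2)) atTop atTop :=
        (tendsto_atTop_add_const_right atTop (-a) tendsto_id).atTop_mul_const (by positivity)
      refine tendsto_atTop_mono' atTop ?_ hlin
      filter_upwards [eventually_ge_atTop a] with θ hθ
      have := intervalIntegral.integral_mono_on (μ := volume) hθ (f := fun _ => 1 / M ^ 2)
        (g := fun x => 1 / p x ^ 2) (continuous_const.intervalIntegrable _ _)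
        (hc.intervalIntegrable _ _)
        (fun x _ => hlow x)
      simpa using this
    have hbot : Tendsto (fun θ => ∫ x in a..θ, 1 / p x ^ 2) atBot atBot := by
      have hlin : Tendsto (fun θ : ℝ => (θ - a) * (1 / M ^ 2)) atBot atBot :=
        (tendsto_atBot_add_const_right atBot (-a) tendsto_id).atBot_mul_const (by positivity)
      refine tendsto_atBot_mono' atBot ?_ hlin
      filter_upwards [eventually_le_atBot a] with θ hθ
      have := intervalIntegral.integral_mono_on (μ := volume) hθ (f := fun _ => 1 / M ^ 2)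
        (g := fun x => 1 / p x ^ 2) (continuous_const.intervalIntegrable _ _)
        (hc.intervalIntegrable _ _)
        (fun x _ => hlow x)
      rw [intervalIntegral.integral_symm]
      have e : (∫ x in θ..a, (fun _ => 1 / M ^ 2 : ℝ → ℝ) x) = (a - θ) * (1 / M ^ 2) := by
        simp
      rw [e] at this
      have : (a - θ) * (1 / M ^ 2) ≤ ∫ x in θ..a, 1 / p x ^ 2 := this
      linarith
    exact hcont.surjective htop hbot

/-- the transport map -/
theorem exists_T {p q ρ : ℝ → ℝ} (h : Supp2 p q ρ) (a t₁ c : ℝ) :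
    ∃ T : ℝ → ℝ, (∀ t, (∫ x in a..(T t), 1 / p x ^ 2) = c * ∫ x in t₁..t, ρ x * p x) ∧
      (∀ t, HasDerivAt T (p (T t) ^ 2 * (c * (ρ t * p t))) t) := by
  obtain ⟨hc, hm, hs, hd⟩ := tendsto_K h a
  set e := hm.orderIsoOfSurjective _ hs with he
  have heq : ∀ x, e x = ∫ y in a..x, 1 / p y ^ 2 := fun x => rfl
  have hcont : Continuous fun x => ρ x * p x := h.cont.mul (cont_p h)
  have hdI : ∀ t, HasDerivAt (fun t => c * ∫ x in t₁..t, ρ x * p x) (c * (ρ t * p t)) t :=
    fun t => (intervalIntegral.integral_hasDerivAt_right (hcont.intervalIntegrable _ _)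
      (hcont.stronglyMeasurableAtFilter _ _) hcont.continuousAt).const_mul c
  refine ⟨fun t => e.symm (c * ∫ x in t₁..t, ρ x * p x), fun t => ?_, fun t => ?_⟩
  · rw [← heq]
    exact e.apply_symm_apply _
  · have hinv : ∀ y, HasDerivAt e.symm (1 / p (e.symm y) ^ 2)⁻¹ y := by
      intro y
      refine HasDerivAt.of_local_left_inverse (f := fun x => ∫ y in a..x, 1 / p y ^ 2)
        e.symm.continuous.continuousAt (hd _) ?_ (Eventually.of_forall fun z => ?_)
      · have := h.ppos (e.symm y)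
        positivity
      · exact e.apply_symm_apply z
    have := (hinv (c * ∫ x in t₁..t, ρ x * p x)).comp t (hdI t)
    refine this.congr_deriv ?_
    rw [one_div, inv_inv]

theorem alg {x1 x2 c1 c2 P κ Δ r : ℝ} (hx1 : 0 < x1) (hx2 : 0 < x2) (hc1 : 0 < c1)
    (hc2 : 0 < c2) (hP : 0 < P) (hκ : 0 < κ) (hΔ : 0 < Δ) (hr : 0 < r)
    (hS : x1 * c1 + x2 * c2 ≤ Δ * P) :
    2 * κ * r * √(x1 * c1 * (x2 * c2)) * (x1 * c1 + x2 * c2) ≤
      Δ * r * (c1 * c2 + x1 * x2 * (P ^ 2 * κ ^ 2)) := by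
  set s := √(x1 * c1 * (x2 * c2)) with hs
  have hs2 : s ^ 2 = x1 * c1 * (x2 * c2) := Real.sq_sqrt (by positivity)
  have hs0 : 0 < s := Real.sqrt_pos.2 (by positivity)
  have h1 : 2 * κ * P * s ≤ c1 * c2 + x1 * x2 * (P ^ 2 * κ ^ 2) := by
    refine abs_le_of_sq_le_sq' ?_ (by positivity) |>.2
    have : (2 * κ * P * s) ^ 2 = 4 * κ ^ 2 * P ^ 2 * (x1 * c1 * (x2 * c2)) := by
      rw [← hs2]; ring
    rw [this]
    nlinarith [sq_nonneg (c1 * c2 - x1 * x2 * (P ^ 2 * κ ^ 2))]
  calc 2 * κ * r * s * (x1 * c1 + x2 * c2) ≤ 2 * κ * r * s * (Δ * P) := by gcongr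
    _ = Δ * r * (2 * κ * P * s) := by ring
    _ ≤ Δ * r * (c1 * c2 + x1 * x2 * (P ^ 2 * κ ^ 2)) := by gcongr

theorem hasDerivAt_C {A B : ℝ → ℝ} {A' B' t : ℝ} (hA : 0 < A t) (hB : 0 < B t)
    (dA : HasDerivAt A A' t) (dB : HasDerivAt B B' t) :
    HasDerivAt (fun t => Real.arccos ((A t - B t) / (A t + B t)))
      ((A t * B' - A' * B t) / (√(A t * B t) * (A t + B t))) t := by
  have hS : 0 < A t + B t := by positivity
  have hC := (dA.sub dB).div (dA.add dB) hS.ne'
  have e1 : 1 - ((A t - B t) / (A t + B t)) ^ 2 = 4 * (A t * B t) / (A t + B t) ^ 2 := by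
    field_simp
    ring
  have e2 : √(1 - ((A t - B t) / (A t + B t)) ^ 2) = 2 * √(A t * B t) / (A t + B t) := by
    rw [e1, Real.sqrt_div (by positivity), Real.sqrt_sq hS.le,
      show (4 : ℝ) * (A t * B t) = 2 ^ 2 * (A t * B t) by ring, Real.sqrt_mul (by positivity),
      Real.sqrt_sq (by norm_num)]
  have hne1 : (A t - B t) / (A t + B t) ≠ -1 := by
    intro h
    rw [div_eq_iff hS.ne'] at h
    linarith
  have hne2 : (A t - B t) / (A t + B t) ≠ 1 := by
    intro h
    rw [div_eq_iff hS.ne'] at h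
    linarith
  have h3 := (Real.hasDerivAt_arccos hne1 hne2).comp t hC
  refine h3.congr_deriv ?_
  rw [e2]
  have : √(A t * B t) ≠ 0 := (Real.sqrt_pos.2 (by positivity)).ne'
  simp only [Pi.add_apply, Pi.sub_apply]
  field_simp
  ring

end Sec

open Sec in
theorem sector (hsupp : S_supp) : S_sector := by
  intro p q ρ h t₁ t₂ h12 h21
  have e1 : t₁ + Real.arctan (q t₁ / p t₁) = ph p q t₁ := rfl
  have e2 : t₂ + Real.arctan (q t₂ / p t₂) = ph p q t₂ := rfl
  rw [e1, e2] at h12 h21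
  rw [e1, e2]
  have ht : t₁ < t₂ := (ph_strictMono h).lt_iff_lt.1 h12
  set φ1 := ph p q t₁ with hφ1
  set φ2 := ph p q t₂ with hφ2
  set Δ := Real.sin (φ2 - φ1) with hΔ
  have hΔ0 : 0 < Δ := Real.sin_pos_of_pos_of_lt_pi (by linarith) (by linarith)
  have hpc := cont_p h
  have hqc := cont_q h
  have hcρ : Continuous fun x => ρ x * p x := h.cont.mul hpc
  have hcp : Continuous fun x => 1 / p x ^ 2 :=
    continuous_const.div (hpc.pow 2) fun x => (pow_pos (h.ppos x) 2).ne'
  set I := ∫ t in t₁..t₂, ρ t * p t with hI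
  set J := ∫ θ in (φ2 - Real.pi / 2)..(φ1 + Real.pi / 2), 1 / p θ ^ 2 with hJ
  have hI0 : 0 < I := intervalIntegral.intervalIntegral_pos_of_pos
    (hcρ.intervalIntegrable _ _) (fun x => mul_pos (h.rpos x) (h.ppos x)) ht
  have hJ0 : 0 < J := by
    refine intervalIntegral.intervalIntegral_pos_of_pos
      (hcp.intervalIntegrable _ _) (fun x => ?_) (by linarith)
    have := h.ppos x
    positivity
  set κ := √(J / I) with hκ
  have hκ0 : 0 < κ := Real.sqrt_pos.2 (by positivity)
  have hκ2 : κ ^ 2 = J / I := Real.sq_sqrt (by positivity)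
  obtain ⟨T, hT, dT⟩ := exists_T h (φ2 - Real.pi / 2) t₁ (J / I)
  obtain ⟨-, hKm, -, -⟩ := tendsto_K h (φ2 - Real.pi / 2)
  have hT1 : T t₁ = φ2 - Real.pi / 2 := by
    apply hKm.injective
    simp only
    rw [hT t₁]
    simp
  have hT2 : T t₂ = φ1 + Real.pi / 2 := by
    apply hKm.injective
    simp only
    rw [hT t₂, ← hI, ← hJ]
    field_simp
  have hTm : StrictMono T := by
    refine strictMono_of_deriv_pos fun t => ?_
    rw [(dT t).deriv]
    have := h.ppos t
    have := h.ppos (T t)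
    have := h.rpos t
    positivity
  have hTc : Continuous T := continuous_iff_continuousAt.2 fun x => (dT x).continuousAt
  set x1 : ℝ → ℝ := fun t => p t * Real.sin (φ2 - t) - q t * Real.cos (φ2 - t) with hx1
  set x2 : ℝ → ℝ := fun t => q t * Real.cos (φ1 - t) - p t * Real.sin (φ1 - t) with hx2
  set c1 : ℝ → ℝ := fun t => Real.cos (T t - φ1) with hc1
  set c2 : ℝ → ℝ := fun t => Real.cos (T t - φ2) with hc2
  have dx1 : ∀ t, HasDerivAt x1 (-(ρ t * Real.cos (φ2 - t))) t := by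
    intro t
    have h1 : HasDerivAt (fun x : ℝ => φ2 - x) (-1) t := by
      simpa using (hasDerivAt_id t).const_sub φ2
    refine (((h.dp t).mul h1.sin).sub ((h.dq t).mul h1.cos)).congr_deriv ?_
    ring
  have dx2 : ∀ t, HasDerivAt x2 (ρ t * Real.cos (φ1 - t)) t := by
    intro t
    have h1 : HasDerivAt (fun x : ℝ => φ1 - x) (-1) t := by
      simpa using (hasDerivAt_id t).const_sub φ1
    refine (((h.dq t).mul h1.cos).sub ((h.dp t).mul h1.sin)).congr_deriv ?_
    ring
  set T' : ℝ → ℝ := fun t => p (T t) ^ 2 * (J / I * (ρ t * p t)) with hT'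
  have dc1 : ∀ t, HasDerivAt c1 (-Real.sin (T t - φ1) * T' t) t := fun t =>
    ((dT t).sub_const φ1).cos
  have dc2 : ∀ t, HasDerivAt c2 (-Real.sin (T t - φ2) * T' t) t := fun t =>
    ((dT t).sub_const φ2).cos
  have hx1p : ∀ t, x1 t = √(p t ^ 2 + q t ^ 2) * Real.sin (φ2 - ph p q t) := fun t =>
    polar h t φ2
  have hx2p : ∀ t, x2 t = √(p t ^ 2 + q t ^ 2) * Real.sin (ph p q t - φ1) := by
    intro t
    have := polar h t φ1
    have e : Real.sin (ph p q t - φ1) = - Real.sin (φ1 - ph p q t) := by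
      rw [← Real.sin_neg]; congr 1; ring
    rw [e]
    simp only [hx2]
    linarith
  have hR : ∀ t, 0 < √(p t ^ 2 + q t ^ 2) := fun t => by
    have := h.ppos t
    positivity
  have hsum : ∀ t, x1 t * c1 t + x2 t * c2 t =
      Δ * (p t * Real.cos (T t - t) + q t * Real.sin (T t - t)) := by
    intro t
    have e3 : T t - φ1 = (T t - t) - (φ1 - t) := by ring
    have e4 : T t - φ2 = (T t - t) - (φ2 - t) := by ring
    have e5 : φ2 - φ1 = (φ2 - t) - (φ1 - t) := by ring
    simp only [hx1, hx2, hc1, hc2, hΔ]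
    rw [e3, e4, e5, Real.cos_sub (T t - t), Real.cos_sub (T t - t), Real.sin_sub (φ2 - t)]
    ring
  have hle : ∀ t, x1 t * c1 t + x2 t * c2 t ≤ Δ * p (T t) := by
    intro t
    rw [hsum]
    exact mul_le_mul_of_nonneg_left (hsupp p q ρ h t (T t)) hΔ0.le
  -- positivity
  have px1 : ∀ t, t₁ ≤ t → t < t₂ → 0 < x1 t := by
    intro t ha hb
    rw [hx1p]
    have h1 := (ph_strictMono h).monotone ha
    have h2 := (ph_strictMono h) hb
    exact mul_pos (hR t) (Real.sin_pos_of_pos_of_lt_pi (by linarith) (by linarith))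
  have px2 : ∀ t, t₁ < t → t ≤ t₂ → 0 < x2 t := by
    intro t ha hb
    rw [hx2p]
    have h1 := (ph_strictMono h) ha
    have h2 := (ph_strictMono h).monotone hb
    exact mul_pos (hR t) (Real.sin_pos_of_pos_of_lt_pi (by linarith) (by linarith))
  have pc1 : ∀ t, t₁ ≤ t → t < t₂ → 0 < c1 t := by
    intro t ha hb
    have h1 := hTm.monotone ha
    have h2 := hTm hb
    rw [hT1] at h1
    rw [hT2] at h2
    exact Real.cos_pos_of_mem_Ioo ⟨by linarith, by linarith⟩
  have pc2 : ∀ t, t₁ < t → t ≤ t₂ → 0 < c2 t := by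
    intro t ha hb
    have h1 := hTm ha
    have h2 := hTm.monotone hb
    rw [hT1] at h1
    rw [hT2] at h2
    exact Real.cos_pos_of_mem_Ioo ⟨by linarith, by linarith⟩
  have zx2 : x2 t₁ = 0 := by rw [hx2p, ← hφ1]; simp
  have zx1 : x1 t₂ = 0 := by rw [hx1p, ← hφ2]; simp
  set A : ℝ → ℝ := fun t => x1 t * c1 t with hA
  set B : ℝ → ℝ := fun t => x2 t * c2 t with hB
  have pS : ∀ t ∈ Icc t₁ t₂, 0 < A t + B t := by
    intro t ht'
    rcases eq_or_lt_of_le ht'.1 with h1 | h1
    · subst h1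
      have : B t₁ = 0 := by simp only [hB, zx2, zero_mul]
      rw [this, add_zero]
      exact mul_pos (px1 _ le_rfl ht) (pc1 _ le_rfl ht)
    · rcases eq_or_lt_of_le ht'.2 with h2 | h2
      · have : A t = 0 := by simp only [hA, h2, zx1, zero_mul]
        rw [this, zero_add]
        exact mul_pos (px2 _ h1 h2.le) (pc2 _ h1 h2.le)
      · exact add_pos (mul_pos (px1 _ h1.le h2) (pc1 _ h1.le h2))
          (mul_pos (px2 _ h1 h2.le) (pc2 _ h1 h2.le))
  have hx1c : Continuous x1 := continuous_iff_continuousAt.2 fun x => (dx1 x).continuousAt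
  have hx2c : Continuous x2 := continuous_iff_continuousAt.2 fun x => (dx2 x).continuousAt
  have hc1c : Continuous c1 := continuous_iff_continuousAt.2 fun x => (dc1 x).continuousAt
  have hc2c : Continuous c2 := continuous_iff_continuousAt.2 fun x => (dc2 x).continuousAt
  have hAc : Continuous A := hx1c.mul hc1c
  have hBc : Continuous B := hx2c.mul hc2c
  have dInt : ∀ t, HasDerivAt (fun t => ∫ x in t₁..t, ρ x * p x) (ρ t * p t) t := fun t =>
    intervalIntegral.integral_hasDerivAt_right (hcρ.intervalIntegrable _ _)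
      (hcρ.stronglyMeasurableAtFilter _ _) hcρ.continuousAt
  have cInt : Continuous (fun t => ∫ x in t₁..t, ρ x * p x) :=
    continuous_iff_continuousAt.2 fun x => (dInt x).continuousAt
  have hmono : MonotoneOn (fun t => Real.arccos ((A t - B t) / (A t + B t)) -
      2 * κ * ∫ x in t₁..t, ρ x * p x) (Icc t₁ t₂) := by
    have hd : ∀ t ∈ Ioo t₁ t₂, HasDerivAt (fun t => Real.arccos ((A t - B t) / (A t + B t)) -
        2 * κ * ∫ x in t₁..t, ρ x * p x)
        ((A t * (ρ t * Real.cos (φ1 - t) * c2 t + x2 t * (-Real.sin (T t - φ2) * T' t)) -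
          (-(ρ t * Real.cos (φ2 - t)) * c1 t + x1 t * (-Real.sin (T t - φ1) * T' t)) * B t) /
          (√(A t * B t) * (A t + B t)) - 2 * κ * (ρ t * p t)) t := by
      intro t ht'
      have pA : 0 < A t := mul_pos (px1 _ ht'.1.le ht'.2) (pc1 _ ht'.1.le ht'.2)
      have pB : 0 < B t := mul_pos (px2 _ ht'.1 ht'.2.le) (pc2 _ ht'.1 ht'.2.le)
      exact (hasDerivAt_C pA pB ((dx1 t).mul (dc1 t)) ((dx2 t).mul (dc2 t))).sub
        ((dInt t).const_mul (2 * κ))
    refine monotoneOn_of_deriv_nonneg (convex_Icc _ _) ?_ ?_ ?_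
    · refine ContinuousOn.sub ?_ (continuous_const.mul cInt).continuousOn
      refine Real.continuous_arccos.comp_continuousOn ?_
      exact ContinuousOn.div (hAc.sub hBc).continuousOn (hAc.add hBc).continuousOn
        fun t ht' => (pS t ht').ne'
    · rw [interior_Icc]
      exact fun t ht' => (hd t ht').differentiableAt.differentiableWithinAt
    · rw [interior_Icc]
      intro t ht'
      rw [(hd t ht').deriv]
      have qx1 := px1 _ ht'.1.le ht'.2
      have qc1 := pc1 _ ht'.1.le ht'.2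
      have qx2 := px2 _ ht'.1 ht'.2.le
      have qc2 := pc2 _ ht'.1 ht'.2.le
      have pA : 0 < A t := mul_pos qx1 qc1
      have pB : 0 < B t := mul_pos qx2 qc2
      have pr := mul_pos (h.rpos t) (h.ppos t)
      have hkey := alg qx1 qx2 qc1 qc2 (h.ppos (T t)) hκ0 hΔ0 pr (hle t)
      -- the Wronskians
      have w1 : x1 t * Real.cos (φ1 - t) + x2 t * Real.cos (φ2 - t) = p t * Δ := by
        have e5 : φ2 - φ1 = (φ2 - t) - (φ1 - t) := by ring
        simp only [hx1, hx2, hΔ]
        rw [e5, Real.sin_sub (φ2 - t)]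
        ring
      have w2 : c2 t * Real.sin (T t - φ1) - c1 t * Real.sin (T t - φ2) = Δ := by
        have e5 : φ2 - φ1 = (T t - φ1) - (T t - φ2) := by ring
        simp only [hc1, hc2, hΔ]
        rw [e5, Real.sin_sub (T t - φ1)]
        ring
      have hnum : A t * (ρ t * Real.cos (φ1 - t) * c2 t + x2 t * (-Real.sin (T t - φ2) * T' t)) -
          (-(ρ t * Real.cos (φ2 - t)) * c1 t + x1 t * (-Real.sin (T t - φ1) * T' t)) * B t =
          Δ * (ρ t * p t) * (c1 t * c2 t + x1 t * x2 t * (p (T t) ^ 2 * κ ^ 2)) := by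
        rw [hκ2]
        have : A t * (ρ t * Real.cos (φ1 - t) * c2 t + x2 t * (-Real.sin (T t - φ2) * T' t)) -
          (-(ρ t * Real.cos (φ2 - t)) * c1 t + x1 t * (-Real.sin (T t - φ1) * T' t)) * B t =
          ρ t * c1 t * c2 t * (x1 t * Real.cos (φ1 - t) + x2 t * Real.cos (φ2 - t)) +
          x1 t * x2 t * T' t * (c2 t * Real.sin (T t - φ1) - c1 t * Real.sin (T t - φ2)) := by
          simp only [hA, hB]
          ring
        rw [this, w1, w2]
        simp only [hT']
        ring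
      rw [hnum, sub_nonneg, le_div_iff₀ (mul_pos (Real.sqrt_pos.2 (mul_pos pA pB))
        (add_pos pA pB))]
      calc 2 * κ * (ρ t * p t) * (√(A t * B t) * (A t + B t)) =
          2 * κ * (ρ t * p t) * √(x1 t * c1 t * (x2 t * c2 t)) * (x1 t * c1 t + x2 t * c2 t) := by
            simp only [hA, hB]
            ring
        _ ≤ _ := hkey
  have hfin := hmono (left_mem_Icc.2 ht.le) (right_mem_Icc.2 ht.le) ht.le
  simp only [intervalIntegral.integral_same, mul_zero, sub_zero] at hfin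
  rw [← hI] at hfin
  have hB1 : B t₁ = 0 := by simp only [hB, zx2, zero_mul]
  have hA2 : A t₂ = 0 := by simp only [hA, zx1, zero_mul]
  have hA1 : 0 < A t₁ := by
    have := pS t₁ (left_mem_Icc.2 ht.le)
    rwa [hB1, add_zero] at this
  have hB2 : 0 < B t₂ := by
    have := pS t₂ (right_mem_Icc.2 ht.le)
    rwa [hA2, zero_add] at this
  rw [hB1, hA2, sub_zero, add_zero, div_self hA1.ne', Real.arccos_one, zero_sub, zero_add,
    neg_div, div_self hB2.ne', Real.arccos_neg_one] at hfin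
  have hfin2 : κ * I ≤ Real.pi / 2 := by linarith
  have hfin3 : (κ * I) ^ 2 ≤ (Real.pi / 2) ^ 2 := by
    have : 0 ≤ κ * I := by positivity
    gcongr
  have : (κ * I) ^ 2 = I * J := by
    rw [mul_pow, hκ2]
    field_simp
  rw [this] at hfin3
  calc I * J ≤ (Real.pi / 2) ^ 2 := hfin3
    _ = Real.pi ^ 2 / 4 := by ring

end Pool.Agent.H97.OC
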