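import Pool.Agent.H97.OC.Stubs

/-! OC7: the support inequality. -/

set_option autoImplicit false

open Set

namespace Pool.Agent.H97.OC

theorem hasDerivAt_G {p q ρ : ℝ → ℝ} (h : Supp2 p q ρ) (θ x : ℝ) :
    HasDerivAt (fun x => p x * Real.cos (θ - x) + q x * Real.sin (θ - x))
      (ρ x * Real.sin (θ - x)) x := by
  have h1 : HasDerivAt (fun x : ℝ => θ - x) (-1) x := by
    simpa using (hasDerivAt_id x).const_sub θ
  have hc := h1.cos
  have hs := h1.sin
  have := ((h.dp x).mul hc).add ((h.dq x).mul hs)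
  refine this.congr_deriv ?_
  ring

theorem supp_ineq_aux {p q ρ : ℝ → ℝ} (h : Supp2 p q ρ) (t θ : ℝ) (h1 : t - Real.pi ≤ θ)
    (h2 : θ ≤ t + Real.pi) :
    p t * Real.cos (θ - t) + q t * Real.sin (θ - t) ≤ p θ := by
  set G : ℝ → ℝ := fun x => p x * Real.cos (θ - x) + q x * Real.sin (θ - x) with hG
  have hGc : Continuous G := by
    rw [continuous_iff_continuousAt]
    intro x
    exact (hasDerivAt_G h θ x).continuousAt
  have hGθ : G θ = p θ := by simp [hG]
  rw [← hGθ]
  change G t ≤ G θ
  rcases le_total t θ with ht | ht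
  · have : MonotoneOn G (Icc t θ) := by
      refine monotoneOn_of_deriv_nonneg (convex_Icc t θ) hGc.continuousOn
        (fun x _ => (hasDerivAt_G h θ x).differentiableAt.differentiableWithinAt) ?_
      intro x hx
      rw [interior_Icc] at hx
      rw [(hasDerivAt_G h θ x).deriv]
      refine mul_nonneg (h.rpos x).le (Real.sin_nonneg_of_nonneg_of_le_pi ?_ ?_)
      · linarith [hx.2]
      · linarith [hx.1]
    exact this (left_mem_Icc.2 ht) (right_mem_Icc.2 ht) ht
  · have : AntitoneOn G (Icc θ t) := by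
      refine antitoneOn_of_deriv_nonpos (convex_Icc θ t) hGc.continuousOn
        (fun x _ => (hasDerivAt_G h θ x).differentiableAt.differentiableWithinAt) ?_
      intro x hx
      rw [interior_Icc] at hx
      rw [(hasDerivAt_G h θ x).deriv]
      refine mul_nonpos_of_nonneg_of_nonpos (h.rpos x).le
        (Real.sin_nonpos_of_nonpos_of_neg_pi_le ?_ ?_)
      · linarith [hx.1]
      · linarith [hx.2]
    exact this (left_mem_Icc.2 ht) (right_mem_Icc.2 ht) ht

theorem supp_ineq : S_supp := by
  intro p q ρ h t θ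
  have hper : Function.Periodic p (2 * Real.pi) := h.pp
  -- reduce θ to the interval [t - π, t + π)
  obtain ⟨n, hn, -⟩ := existsUnique_add_zsmul_mem_Ico Real.two_pi_pos θ (t - Real.pi)
  have hn1 : t - Real.pi ≤ θ + n • (2 * Real.pi) := hn.1
  have hn2 : θ + n • (2 * Real.pi) < t - Real.pi + 2 * Real.pi := hn.2
  have hp : p (θ + n • (2 * Real.pi)) = p θ := hper.zsmul n θ
  have := supp_ineq_aux h t (θ + n • (2 * Real.pi)) hn1 (by linarith)
  rw [hp] at this
  have e : θ + n • (2 * Real.pi) - t = (θ - t) + n * (2 * Real.pi) := by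
    rw [zsmul_eq_mul]; ring
  rw [e, Real.cos_add_int_mul_two_pi, Real.sin_add_int_mul_two_pi] at this
  exact this

end Pool.Agent.H97.OC
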