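import Pool.Agent.H97.OC.Stubs3

/-!
# Outer billiards: TRI13, the inequality on the leaf of 3-periodic orbits

Proof of `S_assemble` from `S_key3` and `S_G` (helper96).
-/

set_option autoImplicit false

open Set MeasureTheory Filter Topology
open scoped Real

namespace Pool.Agent.H97.OC

open Pool.Agent.H97.OB

namespace Asm3

/-- the data -/
structure Asm (p q ρ s u f g : ℝ → ℝ) (a : ℝ) : Prop where
  S : Supp2 p q ρ
  cu : Continuous u
  cg : Continuous g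
  ds : ∀ θ, HasDerivAt s (u θ) θ
  df : ∀ θ, HasDerivAt f (g θ) θ
  sp : ∀ θ, 0 < s θ
  sper : ∀ θ, s (θ + 2 * π) = s θ
  fper : ∀ θ, f (θ + 2 * π) = f θ + 2 * π
  f3 : ∀ θ, f (f (f θ)) = θ + 2 * π
  ap : 0 < a
  gp : ∀ θ, 0 < g θ
  g3 : ∀ θ, g (f (f θ)) * (g (f θ) * g θ) = 1
  k3 : ∀ θ, s θ ^ 2 = a * (ρ (f θ) * g θ / s (f θ) +
    ρ (f (f θ)) * (g (f θ) * g θ) / s (f (f θ)))
  k4 : ∀ θ, p θ * s θ + p (f θ) * s (f θ) + p (f (f θ)) * s (f (f θ)) = 2 * a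
  k5 : ∀ θ, q θ * s θ + p θ * u θ =
    -(ρ (f θ) * g θ / s (f θ) * (a - p (f θ) * s (f θ)) -
      ρ (f (f θ)) * (g (f θ) * g θ) / s (f (f θ)) * (a - p (f (f θ)) * s (f (f θ))))

/-- sum over the orbit -/
def sm (f g h : ℝ → ℝ) (θ : ℝ) : ℝ := h θ + h (f θ) * g θ + h (f (f θ)) * (g (f θ) * g θ)

variable {p q ρ s u f g : ℝ → ℝ} {a : ℝ}

theorem Asm.cp (h : Asm p q ρ s u f g a) : Continuous p :=
  continuous_iff_continuousAt.2 fun θ => (h.S.dp θ).continuousAt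

theorem Asm.cq (h : Asm p q ρ s u f g a) : Continuous q :=
  continuous_iff_continuousAt.2 fun θ => (h.S.dq θ).continuousAt

theorem Asm.cs (h : Asm p q ρ s u f g a) : Continuous s :=
  continuous_iff_continuousAt.2 fun θ => (h.ds θ).continuousAt

theorem Asm.cf (h : Asm p q ρ s u f g a) : Continuous f :=
  continuous_iff_continuousAt.2 fun θ => (h.df θ).continuousAt

theorem Asm.gper (h : Asm p q ρ s u f g a) (θ : ℝ) : g (θ + 2 * π) = g θ := by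
  have h1 : HasDerivAt (fun x => f (x + 2 * π)) (g (θ + 2 * π)) θ := by
    have := (h.df (θ + 2 * π)).comp_add_const θ (2 * π)
    exact this
  have h2 : HasDerivAt (fun x => f x + 2 * π) (g θ) θ := (h.df θ).add_const _
  have h3 : (fun x => f (x + 2 * π)) = fun x => f x + 2 * π := funext h.fper
  rw [h3] at h1
  exact h1.unique h2

theorem Asm.subst (h : Asm p q ρ s u f g a) {F : ℝ → ℝ} (hF : Continuous F)
    (hp : ∀ θ, F (θ + 2 * π) = F θ) :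
    ∫ θ in (0 : ℝ)..(2 * π), F (f θ) * g θ = ∫ θ in (0 : ℝ)..(2 * π), F θ := by
  have h1 := intervalIntegral.integral_comp_mul_deriv (a := 0) (b := 2 * π) (f := f) (f' := g)
    (g := F) (fun x _ => h.df x) h.cg.continuousOn hF
  have h2 : f (2 * π) = f 0 + 2 * π := by have := h.fper 0; rwa [zero_add] at this
  have h3 : Function.Periodic F (2 * π) := hp
  have h4 := h3.intervalIntegral_add_eq (f 0) 0
  rw [zero_add] at h4
  rw [← h4, ← h2, ← h1]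
  rfl

theorem Asm.sm_cont (h : Asm p q ρ s u f g a) {F : ℝ → ℝ} (hF : Continuous F) :
    Continuous (sm f g F) := by
  unfold sm
  have := h.cf
  have := h.cg
  fun_prop

theorem Asm.sm_int (h : Asm p q ρ s u f g a) {F : ℝ → ℝ} (hF : Continuous F)
    (hp : ∀ θ, F (θ + 2 * π) = F θ) :
    ∫ θ in (0 : ℝ)..(2 * π), sm f g F θ = 3 * ∫ θ in (0 : ℝ)..(2 * π), F θ := by
  have cf := h.cf
  have cg := h.cg
  have c2 : Continuous (fun θ => F (f θ) * g θ) := by fun_prop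
  have c3 : Continuous (fun θ => F (f (f θ)) * (g (f θ) * g θ)) := by fun_prop
  have c12 : Continuous (fun θ => F θ + F (f θ) * g θ) := by fun_prop
  unfold sm
  rw [intervalIntegral.integral_add (c12.intervalIntegrable _ _)
    (c3.intervalIntegrable _ _), intervalIntegral.integral_add (hF.intervalIntegrable _ _)
    (c2.intervalIntegrable _ _), h.subst hF hp]
  have h3 : ∫ θ in (0 : ℝ)..(2 * π), F (f (f θ)) * (g (f θ) * g θ) =
      ∫ θ in (0 : ℝ)..(2 * π), F θ := by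
    rw [← h.subst hF hp, ← h.subst c2 (fun θ => by
      simp only [h.fper, hp, h.gper])]
    refine intervalIntegral.integral_congr fun θ _ => ?_
    ring
  rw [h3]
  ring

/-- the integrand of one side -/
noncomputable def AA (p ρ s : ℝ → ℝ) (θ : ℝ) : ℝ :=
  2 * √(ρ θ / p θ) * Real.arctan (s θ / √(p θ * ρ θ))

theorem side {R P S G l Y : ℝ} (hR : 0 < R) (hP : 0 < P) (hS : 0 < S) (hG : 0 < G)
    (hl : l = R * G / S) (hY : Y = S * G / P) :
    2 * √(l * Y) * Real.arctan (√(Y / l)) = 2 * √(R / P) * Real.arctan (S / √(P * R)) * G := by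
  have h1 : l * Y = R / P * G ^ 2 := by rw [hl, hY]; field_simp
  have h2 : Y / l = S ^ 2 / (P * R) := by rw [hl, hY]; field_simp
  rw [h1, h2, Real.sqrt_mul (div_pos hR hP).le, Real.sqrt_sq hG.le, Real.sqrt_div (sq_nonneg S),
    Real.sqrt_sq hS.le]
  ring

/-- the logarithm of `p s` and its derivative -/
noncomputable def ll (p s : ℝ → ℝ) (θ : ℝ) : ℝ := Real.log (p θ * s θ)

/-- the derivative -/
noncomputable def dl (p q s u : ℝ → ℝ) (θ : ℝ) : ℝ := (q θ * s θ + p θ * u θ) / (p θ * s θ)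

/-- the integrand `log (p s) (log (p s) ∘ f)'` -/
noncomputable def WW (p q s u f g : ℝ → ℝ) (θ : ℝ) : ℝ :=
  ll p s θ * (dl p q s u (f θ) * g θ)

/-- half of the derivative of the periodic function of the integration by parts -/
noncomputable def dPhi (p q s u f g : ℝ → ℝ) (θ : ℝ) : ℝ :=
  (dl p q s u θ * ll p s (f θ) + ll p s θ * (dl p q s u (f θ) * g θ)) +
  (dl p q s u (f θ) * g θ * ll p s (f (f θ)) +
    ll p s (f θ) * (dl p q s u (f (f θ)) * (g (f θ) * g θ))) +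
  (dl p q s u (f (f θ)) * (g (f θ) * g θ) * ll p s θ + ll p s (f (f θ)) * dl p q s u θ)

theorem Asm.dll (h : Asm p q ρ s u f g a) (θ : ℝ) :
    HasDerivAt (ll p s) (dl p q s u θ) θ := by
  have h1 := ((h.S.dp θ).mul (h.ds θ)).log (mul_pos (h.S.ppos θ) (h.sp θ)).ne'
  exact h1

theorem Asm.dllf (h : Asm p q ρ s u f g a) (θ : ℝ) :
    HasDerivAt (fun θ => ll p s (f θ)) (dl p q s u (f θ) * g θ) θ :=
  (h.dll (f θ)).comp θ (h.df θ)

theorem Asm.dllff (h : Asm p q ρ s u f g a) (θ : ℝ) :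
    HasDerivAt (fun θ => ll p s (f (f θ))) (dl p q s u (f (f θ)) * (g (f θ) * g θ)) θ := by
  have h1 := (h.dllf (f θ)).comp θ (h.df θ)
  refine h1.congr_deriv ?_
  ring

theorem Asm.cll (h : Asm p q ρ s u f g a) : Continuous (ll p s) :=
  continuous_iff_continuousAt.2 fun θ => (h.dll θ).continuousAt

theorem Asm.cdl (h : Asm p q ρ s u f g a) : Continuous (dl p q s u) := by
  unfold dl
  have := h.cp
  have := h.cq
  have := h.cs
  have := h.cu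
  exact Continuous.div (by fun_prop) (by fun_prop)
    fun θ => (mul_pos (h.S.ppos θ) (h.sp θ)).ne'

theorem Asm.cWW (h : Asm p q ρ s u f g a) : Continuous (WW p q s u f g) := by
  unfold WW
  have := h.cll
  have := h.cdl
  have := h.cf
  have := h.cg
  fun_prop

theorem Asm.cdPhi (h : Asm p q ρ s u f g a) : Continuous (dPhi p q s u f g) := by
  unfold dPhi
  have := h.cll
  have := h.cdl
  have := h.cf
  have := h.cg
  fun_prop

theorem Asm.uper (h : Asm p q ρ s u f g a) (θ : ℝ) : u (θ + 2 * π) = u θ := by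
  have h1 : HasDerivAt (fun x => s (x + 2 * π)) (u (θ + 2 * π)) θ := by
    have := (h.ds (θ + 2 * π)).comp_add_const θ (2 * π)
    exact this
  have h3 : (fun x => s (x + 2 * π)) = s := funext h.sper
  rw [h3] at h1
  exact h1.unique (h.ds θ)

theorem Asm.llper (h : Asm p q ρ s u f g a) (θ : ℝ) : ll p s (θ + 2 * π) = ll p s θ := by
  unfold ll
  rw [h.S.pp, h.sper]

theorem Asm.dlper (h : Asm p q ρ s u f g a) (θ : ℝ) :
    dl p q s u (θ + 2 * π) = dl p q s u θ := by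
  unfold dl
  rw [h.S.pp, h.sper, h.S.qp, h.uper]

theorem Asm.WWper (h : Asm p q ρ s u f g a) (θ : ℝ) :
    WW p q s u f g (θ + 2 * π) = WW p q s u f g θ := by
  unfold WW
  rw [h.llper, h.fper, h.dlper, h.gper]

theorem Asm.dPhi_int (h : Asm p q ρ s u f g a) :
    ∫ θ in (0 : ℝ)..(2 * π), dPhi p q s u f g θ = 0 := by
  have h1 : ∀ θ, HasDerivAt (fun θ => ll p s θ * ll p s (f θ) + ll p s (f θ) * ll p s (f (f θ)) +
      ll p s (f (f θ)) * ll p s θ) (dPhi p q s u f g θ) θ := by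
    intro θ
    exact (((h.dll θ).mul (h.dllf θ)).add ((h.dllf θ).mul (h.dllff θ))).add
      ((h.dllff θ).mul (h.dll θ))
  rw [intervalIntegral.integral_eq_sub_of_hasDerivAt (fun θ _ => h1 θ)
    (h.cdPhi.intervalIntegrable _ _)]
  have e1 : f (2 * π) = f 0 + 2 * π := by have := h.fper 0; rwa [zero_add] at this
  have e2 : ll p s (2 * π) = ll p s 0 := by have := h.llper 0; rwa [zero_add] at this
  simp only [e1, h.fper, h.llper, e2, sub_self]

theorem amgm {c z w : ℝ} (hc : 0 < c) (hz : 0 ≤ z) (hw : 0 ≤ w) :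
    √(z * w) ≤ (c * z + w / c) / 2 := by
  refine Real.sqrt_le_iff.2 ⟨by positivity, ?_⟩
  have h1 : ((c * z + w / c) / 2) ^ 2 - z * w = ((c * z - w / c) / 2) ^ 2 := by
    field_simp
    ring
  nlinarith [sq_nonneg ((c * z - w / c) / 2)]

/-- the relations of the three sides -/
theorem Asm.rel (h : Asm p q ρ s u f g a) (θ : ℝ) :
    s θ ^ 2 = a * (ρ (f θ) * g θ / s (f θ) + ρ (f (f θ)) * (g (f θ) * g θ) / s (f (f θ))) ∧
    s (f θ) ^ 2 * g θ = a * (ρ (f (f θ)) * (g (f θ) * g θ) / s (f (f θ)) + ρ θ / s θ) ∧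
    s (f (f θ)) ^ 2 * (g (f θ) * g θ) = a * (ρ θ / s θ + ρ (f θ) * g θ / s (f θ)) := by
  have hg := h.g3 θ
  refine ⟨h.k3 θ, ?_, ?_⟩
  · have h1 := h.k3 (f θ)
    rw [h.f3, h.S.rp, h.sper] at h1
    rw [h1]
    linear_combination (a * ρ θ / s θ) * hg
  · have h1 := h.k3 (f (f θ))
    have e1 : f (f (f (f θ))) = f θ + 2 * π := by rw [h.f3 θ, h.fper]
    rw [h.f3, h.S.rp, h.sper, h.fper, h.S.rp, h.sper, h.gper] at h1
    rw [h1]
    linear_combination (a * ρ θ / s θ + a * ρ (f θ) * g θ / s (f θ)) * hg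

/-- the derivatives of the three logarithms -/
theorem Asm.rel5 (h : Asm p q ρ s u f g a) (θ : ℝ) :
    q θ * s θ + p θ * u θ = -(ρ (f θ) * g θ / s (f θ) * (a - p (f θ) * s (f θ)) -
      ρ (f (f θ)) * (g (f θ) * g θ) / s (f (f θ)) * (a - p (f (f θ)) * s (f (f θ)))) ∧
    (q (f θ) * s (f θ) + p (f θ) * u (f θ)) * g θ =
      -(ρ (f (f θ)) * (g (f θ) * g θ) / s (f (f θ)) * (a - p (f (f θ)) * s (f (f θ))) -
        ρ θ / s θ * (a - p θ * s θ)) ∧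
    (q (f (f θ)) * s (f (f θ)) + p (f (f θ)) * u (f (f θ))) * (g (f θ) * g θ) =
      -(ρ θ / s θ * (a - p θ * s θ) - ρ (f θ) * g θ / s (f θ) * (a - p (f θ) * s (f θ))) := by
  have hg := h.g3 θ
  refine ⟨h.k5 θ, ?_, ?_⟩
  · have h1 := h.k5 (f θ)
    rw [h.f3, h.S.rp, h.sper, h.S.pp] at h1
    rw [h1]
    linear_combination (ρ θ / s θ * (a - p θ * s θ)) * hg
  · have h1 := h.k5 (f (f θ))
    rw [h.f3, h.S.rp, h.sper, h.S.pp, h.fper, h.S.rp, h.sper, h.gper, h.S.pp] at h1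
    rw [h1]
    linear_combination (-(ρ θ / s θ * (a - p θ * s θ)) +
      ρ (f θ) * g θ / s (f θ) * (a - p (f θ) * s (f θ))) * hg

/-- the upper bound of the integrand -/
noncomputable def RB (p q ρ s u f g : ℝ → ℝ) (κ θ : ℝ) : ℝ :=
  π / 3 * (κ * sm f g (fun θ => ρ θ * p θ) θ + 1 / κ * sm f g (fun θ => 1 / p θ ^ 2) θ) +
    (dPhi p q s u f g θ / 2 - sm f g (WW p q s u f g) θ)

theorem Asm.second (h : Asm p q ρ s u f g a) (θ : ℝ) {l₁ l₂ l₃ M₁ M₂ M₃ : ℝ}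
    (hl₁ : l₁ = ρ θ / s θ) (hl₂ : l₂ = ρ (f θ) * g θ / s (f θ))
    (hl₃ : l₃ = ρ (f (f θ)) * (g (f θ) * g θ) / s (f (f θ)))
    (hM₁ : M₁ = p θ * s θ / a) (hM₂ : M₂ = p (f θ) * s (f θ) / a)
    (hM₃ : M₃ = p (f (f θ)) * s (f (f θ)) / a) :
    l₁ * (1 - M₁) / 2 * (Real.log (M₃ / M₁) / M₂ + Real.log (M₂ / M₁) / M₃) +
    l₂ * (1 - M₂) / 2 * (Real.log (M₁ / M₂) / M₃ + Real.log (M₃ / M₂) / M₁) +
    l₃ * (1 - M₃) / 2 * (Real.log (M₂ / M₃) / M₁ + Real.log (M₁ / M₃) / M₂) =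
    dPhi p q s u f g θ / 2 - sm f g (WW p q s u f g) θ := by
  have ha := h.ap
  have b1 := mul_pos (h.S.ppos θ) (h.sp θ)
  have b2 := mul_pos (h.S.ppos (f θ)) (h.sp (f θ))
  have b3 := mul_pos (h.S.ppos (f (f θ))) (h.sp (f (f θ)))
  have m1 : 0 < M₁ := by rw [hM₁]; exact div_pos b1 ha
  have m2 : 0 < M₂ := by rw [hM₂]; exact div_pos b2 ha
  have m3 : 0 < M₃ := by rw [hM₃]; exact div_pos b3 ha
  have L1 : Real.log M₁ = ll p s θ - Real.log a := by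
    rw [hM₁, Real.log_div b1.ne' ha.ne']; rfl
  have L2 : Real.log M₂ = ll p s (f θ) - Real.log a := by
    rw [hM₂, Real.log_div b2.ne' ha.ne']; rfl
  have L3 : Real.log M₃ = ll p s (f (f θ)) - Real.log a := by
    rw [hM₃, Real.log_div b3.ne' ha.ne']; rfl
  obtain ⟨r1, r2, r3⟩ := h.rel5 θ
  have d1 : dl p q s u θ = -(l₂ * (1 - M₂) - l₃ * (1 - M₃)) / M₁ := by
    unfold dl
    rw [r1, ← hl₂, ← hl₃, hM₁, hM₂, hM₃]
    field_simp
  have d2 : dl p q s u (f θ) * g θ = -(l₃ * (1 - M₃) - l₁ * (1 - M₁)) / M₂ := by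
    unfold dl
    rw [div_mul_eq_mul_div, r2, ← hl₁, ← hl₃, hM₁, hM₂, hM₃]
    field_simp
  have d3 : dl p q s u (f (f θ)) * (g (f θ) * g θ) =
      -(l₁ * (1 - M₁) - l₂ * (1 - M₂)) / M₃ := by
    unfold dl
    rw [div_mul_eq_mul_div, r3, ← hl₁, ← hl₂, hM₁, hM₂, hM₃]
    field_simp
  have hsm : sm f g (WW p q s u f g) θ = ll p s θ * (dl p q s u (f θ) * g θ) +
      ll p s (f θ) * (dl p q s u (f (f θ)) * (g (f θ) * g θ)) +
      ll p s (f (f θ)) * dl p q s u θ := by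
    have hg := h.g3 θ
    unfold sm WW
    rw [h.f3, h.dlper]
    linear_combination (ll p s (f (f θ)) * dl p q s u θ) * hg
  rw [hsm]
  unfold dPhi
  rw [d1, d2, d3, Real.log_div m3.ne' m1.ne', Real.log_div m2.ne' m1.ne',
    Real.log_div m1.ne' m2.ne', Real.log_div m3.ne' m2.ne', Real.log_div m2.ne' m3.ne',
    Real.log_div m1.ne' m3.ne', L1, L2, L3]
  field_simp
  ring

theorem Asm.first (h : Asm p q ρ s u f g a) (θ : ℝ) {l₁ l₂ l₃ M₁ M₂ M₃ κ : ℝ} (hκ : 0 < κ)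
    (hl₁ : l₁ = ρ θ / s θ) (hl₂ : l₂ = ρ (f θ) * g θ / s (f θ))
    (hl₃ : l₃ = ρ (f (f θ)) * (g (f θ) * g θ) / s (f (f θ)))
    (hM₁ : M₁ = p θ * s θ / a) (hM₂ : M₂ = p (f θ) * s (f θ) / a)
    (hM₃ : M₃ = p (f (f θ)) * s (f (f θ)) / a) :
    (2 * π / 3) * (l₁ * √(M₁ * (1 / M₂ ^ 2 + 1 / M₃ ^ 2))) +
    (2 * π / 3) * (l₂ * √(M₂ * (1 / M₃ ^ 2 + 1 / M₁ ^ 2))) +
    (2 * π / 3) * (l₃ * √(M₃ * (1 / M₁ ^ 2 + 1 / M₂ ^ 2))) ≤
    π / 3 * (κ * sm f g (fun θ => ρ θ * p θ) θ + 1 / κ * sm f g (fun θ => 1 / p θ ^ 2) θ) := by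
  have ha := h.ap
  have p1 := h.S.ppos θ
  have p2 := h.S.ppos (f θ)
  have p3 := h.S.ppos (f (f θ))
  have s1 := h.sp θ
  have s2 := h.sp (f θ)
  have s3 := h.sp (f (f θ))
  have r1 := h.S.rpos θ
  have r2 := h.S.rpos (f θ)
  have r3 := h.S.rpos (f (f θ))
  have g1 := h.gp θ
  have g2 := h.gp (f θ)
  have m1 : 0 < M₁ := by rw [hM₁]; positivity
  have m2 : 0 < M₂ := by rw [hM₂]; positivity
  have m3 : 0 < M₃ := by rw [hM₃]; positivity
  have k1 : 0 < l₁ := by rw [hl₁]; positivity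
  have k2 : 0 < l₂ := by rw [hl₂]; positivity
  have k3 : 0 < l₃ := by rw [hl₃]; positivity
  have hc : 0 < a * κ := by positivity
  have A1 := amgm (z := M₁) (w := 1 / M₂ ^ 2 + 1 / M₃ ^ 2) hc m1.le (by positivity)
  have A2 := amgm (z := M₂) (w := 1 / M₃ ^ 2 + 1 / M₁ ^ 2) hc m2.le (by positivity)
  have A3 := amgm (z := M₃) (w := 1 / M₁ ^ 2 + 1 / M₂ ^ 2) hc m3.le (by positivity)
  have B1 := mul_le_mul_of_nonneg_left A1 k1.le
  have B2 := mul_le_mul_of_nonneg_left A2 k2.le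
  have B3 := mul_le_mul_of_nonneg_left A3 k3.le
  obtain ⟨R1, R2, R3⟩ := h.rel θ
  rw [← hl₂, ← hl₃] at R1
  rw [← hl₁, ← hl₃] at R2
  rw [← hl₁, ← hl₂] at R3
  have C1 : (l₂ + l₃) / M₁ ^ 2 = a / p θ ^ 2 := by
    have : l₂ + l₃ = s θ ^ 2 / a := by rw [R1]; field_simp
    rw [this, hM₁]; field_simp
  have C2 : (l₃ + l₁) / M₂ ^ 2 = a / p (f θ) ^ 2 * g θ := by
    have : l₃ + l₁ = s (f θ) ^ 2 * g θ / a := by rw [R2]; field_simp
    rw [this, hM₂]; field_simp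
  have C3 : (l₁ + l₂) / M₃ ^ 2 = a / p (f (f θ)) ^ 2 * (g (f θ) * g θ) := by
    have : l₁ + l₂ = s (f (f θ)) ^ 2 * (g (f θ) * g θ) / a := by rw [R3]; field_simp
    rw [this, hM₃]; field_simp
  have D1 : l₁ * M₁ = ρ θ * p θ / a := by rw [hl₁, hM₁]; field_simp
  have D2 : l₂ * M₂ = ρ (f θ) * p (f θ) * g θ / a := by rw [hl₂, hM₂]; field_simp
  have D3 : l₃ * M₃ = ρ (f (f θ)) * p (f (f θ)) * (g (f θ) * g θ) / a := by
    rw [hl₃, hM₃]; field_simp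
  have key : l₁ * ((a * κ * M₁ + (1 / M₂ ^ 2 + 1 / M₃ ^ 2) / (a * κ)) / 2) +
      l₂ * ((a * κ * M₂ + (1 / M₃ ^ 2 + 1 / M₁ ^ 2) / (a * κ)) / 2) +
      l₃ * ((a * κ * M₃ + (1 / M₁ ^ 2 + 1 / M₂ ^ 2) / (a * κ)) / 2) =
      (κ * sm f g (fun θ => ρ θ * p θ) θ + 1 / κ * sm f g (fun θ => 1 / p θ ^ 2) θ) / 2 := by
    have e1 : l₁ * ((a * κ * M₁ + (1 / M₂ ^ 2 + 1 / M₃ ^ 2) / (a * κ)) / 2) +
      l₂ * ((a * κ * M₂ + (1 / M₃ ^ 2 + 1 / M₁ ^ 2) / (a * κ)) / 2) +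
      l₃ * ((a * κ * M₃ + (1 / M₁ ^ 2 + 1 / M₂ ^ 2) / (a * κ)) / 2) =
      (a * κ * (l₁ * M₁ + l₂ * M₂ + l₃ * M₃) +
        1 / (a * κ) * ((l₂ + l₃) / M₁ ^ 2 + (l₃ + l₁) / M₂ ^ 2 + (l₁ + l₂) / M₃ ^ 2)) / 2 := by
      ring
    rw [e1, C1, C2, C3, D1, D2, D3]
    unfold sm
    field_simp
  have hpi : 0 ≤ 2 * π / 3 := by positivity
  have B := add_le_add (add_le_add B1 B2) B3
  rw [key] at B
  have := mul_le_mul_of_nonneg_left B hpi
  linarith

/-- the pointwise inequality -/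
theorem Asm.point (hk : S_key3) (h : Asm p q ρ s u f g a) {κ : ℝ} (hκ : 0 < κ) (θ : ℝ) :
    sm f g (AA p ρ s) θ ≤ RB p q ρ s u f g κ θ ∧
    (p θ * s θ ≠ 2 * a / 3 → sm f g (AA p ρ s) θ < RB p q ρ s u f g κ θ) := by
  have ha := h.ap
  have p1 := h.S.ppos θ
  have p2 := h.S.ppos (f θ)
  have p3 := h.S.ppos (f (f θ))
  have s1 := h.sp θ
  have s2 := h.sp (f θ)
  have s3 := h.sp (f (f θ))
  have r1 := h.S.rpos θ
  have r2 := h.S.rpos (f θ)
  have r3 := h.S.rpos (f (f θ))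
  have g1 := h.gp θ
  have g2 := h.gp (f θ)
  obtain ⟨l₁, hl₁⟩ : ∃ x, x = ρ θ / s θ := ⟨_, rfl⟩
  obtain ⟨l₂, hl₂⟩ : ∃ x, x = ρ (f θ) * g θ / s (f θ) := ⟨_, rfl⟩
  obtain ⟨l₃, hl₃⟩ : ∃ x, x = ρ (f (f θ)) * (g (f θ) * g θ) / s (f (f θ)) := ⟨_, rfl⟩
  obtain ⟨M₁, hM₁⟩ : ∃ x, x = p θ * s θ / a := ⟨_, rfl⟩
  obtain ⟨M₂, hM₂⟩ : ∃ x, x = p (f θ) * s (f θ) / a := ⟨_, rfl⟩
  obtain ⟨M₃, hM₃⟩ : ∃ x, x = p (f (f θ)) * s (f (f θ)) / a := ⟨_, rfl⟩
  have m1 : 0 < M₁ := by rw [hM₁]; positivity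
  have m2 : 0 < M₂ := by rw [hM₂]; positivity
  have m3 : 0 < M₃ := by rw [hM₃]; positivity
  have k1 : 0 < l₁ := by rw [hl₁]; positivity
  have k2 : 0 < l₂ := by rw [hl₂]; positivity
  have k3 : 0 < l₃ := by rw [hl₃]; positivity
  have hsum : M₁ + M₂ + M₃ = 2 := by
    rw [hM₁, hM₂, hM₃, ← add_div, ← add_div, h.k4 θ]
    field_simp
  obtain ⟨R1, R2, R3⟩ := h.rel θ
  rw [← hl₂, ← hl₃] at R1
  rw [← hl₁, ← hl₃] at R2
  rw [← hl₁, ← hl₂] at R3
  have C1 : (l₂ + l₃) / M₁ = s θ * 1 / p θ := by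
    have : l₂ + l₃ = s θ ^ 2 / a := by rw [R1]; field_simp
    rw [this, hM₁]; field_simp
  have C2 : (l₃ + l₁) / M₂ = s (f θ) * g θ / p (f θ) := by
    have : l₃ + l₁ = s (f θ) ^ 2 * g θ / a := by rw [R2]; field_simp
    rw [this, hM₂]; field_simp
  have C3 : (l₁ + l₂) / M₃ = s (f (f θ)) * (g (f θ) * g θ) / p (f (f θ)) := by
    have : l₁ + l₂ = s (f (f θ)) ^ 2 * (g (f θ) * g θ) / a := by rw [R3]; field_simp
    rw [this, hM₃]; field_simp
  have E1 := side r1 p1 s1 one_pos (l := l₁) (Y := (l₂ + l₃) / M₁) (by rw [hl₁, mul_one]) C1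
  have E2 := side r2 p2 s2 g1 (l := l₂) (Y := (l₃ + l₁) / M₂) hl₂ C2
  have E3 := side r3 p3 s3 (mul_pos g2 g1) (l := l₃) (Y := (l₁ + l₂) / M₃) hl₃ C3
  obtain ⟨K1, K2⟩ := hk l₁ l₂ l₃ M₁ M₂ M₃ k1 k2 k3 m1 m2 m3 hsum
  rw [E1, E2, E3] at K1 K2
  have hA : 2 * √(ρ θ / p θ) * Real.arctan (s θ / √(p θ * ρ θ)) * 1 +
      2 * √(ρ (f θ) / p (f θ)) * Real.arctan (s (f θ) / √(p (f θ) * ρ (f θ))) * g θ +
      2 * √(ρ (f (f θ)) / p (f (f θ))) *
        Real.arctan (s (f (f θ)) / √(p (f (f θ)) * ρ (f (f θ)))) * (g (f θ) * g θ) =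
      sm f g (AA p ρ s) θ := by
    unfold sm AA
    ring
  rw [hA] at K1 K2
  have hR : Rk l₁ M₂ M₃ M₁ + Rk l₂ M₃ M₁ M₂ + Rk l₃ M₁ M₂ M₃ ≤ RB p q ρ s u f g κ θ := by
    have e1 := h.first θ hκ hl₁ hl₂ hl₃ hM₁ hM₂ hM₃
    have e2 := h.second θ hl₁ hl₂ hl₃ hM₁ hM₂ hM₃
    unfold RB Rk
    rw [← e2]
    linarith
  refine ⟨K1.trans hR, fun hne => (K2 (Or.inl fun hM => hne ?_)).trans_le hR⟩
  rw [hM₁] at hM
  field_simp at hM
  linarith

end Asm3

open Asm3 in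
theorem assemble (hk : S_key3) (hG : S_G) : S_assemble := by
  intro p q ρ s u f g a hS cu cg ds df sp sper fper f3 hh1 hh2 ap gp g3 k3 k4 k5 hBS
  have h : Asm p q ρ s u f g a := ⟨hS, cu, cg, ds, df, sp, sper, fper, f3, ap, gp, g3, k3, k4, k5⟩
  have hGG := hG p q ρ s u f g hS cu cg ds df sp sper fper f3 hh1 hh2
  have h2pi : (0 : ℝ) < 2 * π := by positivity
  have cp := h.cp
  have cq := h.cq
  have cs := h.cs
  have cr := hS.cont
  have cI : Continuous (fun θ => ρ θ * p θ) := cr.mul cp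
  have cJ : Continuous (fun θ => 1 / p θ ^ 2) :=
    continuous_const.div (cp.pow 2) fun θ => (pow_pos (hS.ppos θ) 2).ne'
  have hI : 0 < ∫ θ in (0 : ℝ)..(2 * π), ρ θ * p θ :=
    intervalIntegral.intervalIntegral_pos_of_pos (cI.intervalIntegrable _ _)
      (fun θ => mul_pos (hS.rpos θ) (hS.ppos θ)) h2pi
  have hJ : 0 < ∫ θ in (0 : ℝ)..(2 * π), 1 / p θ ^ 2 :=
    intervalIntegral.intervalIntegral_pos_of_pos (cJ.intervalIntegrable _ _)
      (fun θ => div_pos one_pos (pow_pos (hS.ppos θ) 2)) h2pi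
  obtain ⟨II, hII⟩ : ∃ x, x = ∫ θ in (0 : ℝ)..(2 * π), ρ θ * p θ := ⟨_, rfl⟩
  obtain ⟨JJ, hJJ⟩ : ∃ x, x = ∫ θ in (0 : ℝ)..(2 * π), 1 / p θ ^ 2 := ⟨_, rfl⟩
  rw [← hII] at hI hBS
  rw [← hJJ] at hJ hBS
  obtain ⟨κ, hκ, hκ2⟩ : ∃ κ : ℝ, 0 < κ ∧ κ ^ 2 * II = JJ := by
    refine ⟨√(JJ / II), Real.sqrt_pos.2 (div_pos hJ hI), ?_⟩
    rw [Real.sq_sqrt (div_pos hJ hI).le]
    field_simp
  have hκI : κ * II ≤ 2 * π := by
    refine abs_le_of_sq_le_sq' ?_ h2pi.le |>.2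
    have : (κ * II) ^ 2 = II * JJ := by rw [← hκ2]; ring
    rw [this]
    linarith
  have cAA : Continuous (AA p ρ s) := by
    unfold AA
    have c1 : Continuous (fun θ => √(ρ θ / p θ)) :=
      Real.continuous_sqrt.comp (cr.div cp fun θ => (hS.ppos θ).ne')
    have c2 : Continuous (fun θ => s θ / √(p θ * ρ θ)) :=
      cs.div (Real.continuous_sqrt.comp (cp.mul cr))
        fun θ => (Real.sqrt_pos.2 (mul_pos (hS.ppos θ) (hS.rpos θ))).ne'
    exact (continuous_const.mul c1).mul (Real.continuous_arctan.comp c2)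
  have pAA : ∀ θ, AA p ρ s (θ + 2 * π) = AA p ρ s θ := by
    intro θ
    unfold AA
    rw [hS.rp, hS.pp, sper]
  have iA := h.sm_int cAA pAA
  have iI := h.sm_int cI fun θ => by rw [hS.rp, hS.pp]
  have iJ := h.sm_int cJ fun θ => by rw [hS.pp]
  have iW := h.sm_int h.cWW h.WWper
  have iP := h.dPhi_int
  rw [← hII] at iI
  rw [← hJJ] at iJ
  have cRB : Continuous (RB p q ρ s u f g κ) := by
    unfold RB
    have := h.sm_cont cI
    have := h.sm_cont cJ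
    have := h.sm_cont h.cWW
    have := h.cdPhi
    fun_prop
  have iRB : ∫ θ in (0 : ℝ)..(2 * π), RB p q ρ s u f g κ θ =
      2 * π * (κ * II) - 3 * ∫ θ in (0 : ℝ)..(2 * π), WW p q s u f g θ := by
    have c1 := h.sm_cont cI
    have c2 := h.sm_cont cJ
    have c3 := h.sm_cont h.cWW
    have c4 := h.cdPhi
    have c5 : Continuous (fun θ => π / 3 * (κ * sm f g (fun θ => ρ θ * p θ) θ +
      1 / κ * sm f g (fun θ => 1 / p θ ^ 2) θ)) := by fun_prop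
    have c6 : Continuous (fun θ => dPhi p q s u f g θ / 2 - sm f g (WW p q s u f g) θ) := by
      fun_prop
    have c7 : Continuous (fun θ => κ * sm f g (fun θ => ρ θ * p θ) θ) := by fun_prop
    have c8 : Continuous (fun θ => 1 / κ * sm f g (fun θ => 1 / p θ ^ 2) θ) := by fun_prop
    have c9 : Continuous (fun θ => dPhi p q s u f g θ / 2) := by fun_prop
    unfold RB
    rw [intervalIntegral.integral_add (c5.intervalIntegrable _ _) (c6.intervalIntegrable _ _),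
      intervalIntegral.integral_const_mul, intervalIntegral.integral_add
      (c7.intervalIntegrable _ _) (c8.intervalIntegrable _ _),
      intervalIntegral.integral_const_mul, intervalIntegral.integral_const_mul,
      intervalIntegral.integral_sub (c9.intervalIntegrable _ _) (c3.intervalIntegrable _ _),
      intervalIntegral.integral_div, iI, iJ, iW, iP, ← hκ2]
    field_simp
    ring
  have hle : ∀ θ, sm f g (AA p ρ s) θ ≤ RB p q ρ s u f g κ θ := fun θ => (h.point hk hκ θ).1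
  have cL := h.sm_cont cAA
  have hint : ∫ θ in (0 : ℝ)..(2 * π), sm f g (AA p ρ s) θ ≤
      ∫ θ in (0 : ℝ)..(2 * π), RB p q ρ s u f g κ θ :=
    intervalIntegral.integral_mono_on h2pi.le (cL.intervalIntegrable _ _)
      (cRB.intervalIntegrable _ _) fun θ _ => hle θ
  have hWW : ∫ θ in (0 : ℝ)..(2 * π), WW p q s u f g θ =
      ∫ θ in (0 : ℝ)..(2 * π), Real.log (p θ * s θ) *
      ((q (f θ) * s (f θ) + p (f θ) * u (f θ)) / (p (f θ) * s (f θ)) * g θ) := rfl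
  have cGG : Continuous (fun θ => Real.arctan ((q θ + s θ) / p θ) -
      Real.arctan ((q θ - s θ) / p θ) + q θ / (2 * p θ) *
        Real.log ((p θ ^ 2 + (q θ + s θ) ^ 2) / (p θ ^ 2 + (q θ - s θ) ^ 2))) := by
    have n1 : ∀ θ, p θ ≠ 0 := fun θ => (hS.ppos θ).ne'
    have n2 : ∀ θ, 0 < p θ ^ 2 + (q θ + s θ) ^ 2 := fun θ => by
      have := pow_pos (hS.ppos θ) 2; positivity
    have n3 : ∀ θ, 0 < p θ ^ 2 + (q θ - s θ) ^ 2 := fun θ => by
      have := pow_pos (hS.ppos θ) 2; positivity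
    refine ((Real.continuous_arctan.comp ((cq.add cs).div cp n1)).sub
      (Real.continuous_arctan.comp ((cq.sub cs).div cp n1))).add
      ((cq.div (continuous_const.mul cp) fun θ => mul_ne_zero two_ne_zero (n1 θ)).mul
      (Continuous.log (Continuous.div (by fun_prop) (by fun_prop) fun θ => (n3 θ).ne')
        fun θ => (div_pos (n2 θ) (n3 θ)).ne'))
  have hPsi : ∫ θ in (0 : ℝ)..(2 * π), Psi (p θ) (q θ) (ρ θ) (s θ) =
      (∫ θ in (0 : ℝ)..(2 * π), AA p ρ s θ) - (4 * π ^ 2 / 3 -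
        ∫ θ in (0 : ℝ)..(2 * π), WW p q s u f g θ) := by
    rw [hWW, ← hGG, ← intervalIntegral.integral_sub (cAA.intervalIntegrable _ _)
      (cGG.intervalIntegrable _ _)]
    refine intervalIntegral.integral_congr fun θ _ => ?_
    simp only [Psi, AA]
    ring
  rw [iA] at hint
  have hpp : 2 * π * (κ * II) ≤ 4 * π ^ 2 := by
    have := mul_le_mul_of_nonneg_left hκI h2pi.le
    nlinarith
  refine ⟨?_, fun h0 => ?_⟩
  · rw [hPsi]
    rw [iRB] at hint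
    linarith
  · have heq : ∫ θ in (0 : ℝ)..(2 * π), (RB p q ρ s u f g κ θ - sm f g (AA p ρ s) θ) = 0 := by
      rw [intervalIntegral.integral_sub (cRB.intervalIntegrable _ _) (cL.intervalIntegrable _ _)]
      have h1 : ∫ θ in (0 : ℝ)..(2 * π), sm f g (AA p ρ s) θ =
        3 * ∫ θ in (0 : ℝ)..(2 * π), AA p ρ s θ := iA
      rw [h1]
      rw [hPsi] at h0
      rw [iRB] at hint ⊢
      linarith
    have cd : Continuous (fun θ => RB p q ρ s u f g κ θ - sm f g (AA p ρ s) θ) := cRB.sub cL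
    have hz : ∀ θ ∈ Icc (0 : ℝ) (2 * π), p θ * s θ = 2 * a / 3 := by
      intro θ hθ
      by_contra hne
      have h1 := (h.point hk hκ θ).2 hne
      have h2 : 0 < ∫ θ in (0 : ℝ)..(2 * π), (RB p q ρ s u f g κ θ - sm f g (AA p ρ s) θ) :=
        intervalIntegral.integral_pos h2pi cd.continuousOn
          (fun x _ => sub_nonneg.2 (hle x)) ⟨θ, hθ, sub_pos.2 h1⟩
      linarith
    intro θ
    have hper : Function.Periodic (fun θ => p θ * s θ) (2 * π) := fun θ => by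
      simp only [hS.pp, sper]
    obtain ⟨θ', hθ', he⟩ := hper.exists_mem_Ico₀ h2pi θ
    have he' : p θ * s θ = p θ' * s θ' := he
    rw [he']
    exact hz θ' ⟨hθ'.1, hθ'.2.le⟩

end Pool.Agent.H97.OC
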