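import Pool.Agent.H97.OB.Defs

/-!
# Outer billiards: the leaf of 3-periodic orbits
-/

set_option autoImplicit false

namespace Pool.Agent.H97.OC

open Pool.Agent.H97.OB

/-- Every point of the outer leaf `{Y = 1}` is a vertex of a triangle with vertices on that leaf
whose sides touch `γ`. -/
def OuterLeafThreePeriodic (γ : ℝ → ℂ) (Y : ℂ → ℝ) : Prop :=
  ∀ z₁, Y z₁ = 1 → ∃ z₂ z₃, Y z₂ = 1 ∧ Y z₃ = 1 ∧ Next γ z₁ z₂ ∧ Next γ z₂ z₃ ∧ Next γ z₃ z₁

end Pool.Agent.H97.OC
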