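import Pool.Agent.H97.OC.Stubs

/-! OC4: the loop integral of `Re (log ζ d log (ζ - 1))`. -/

set_option autoImplicit false

open Set MeasureTheory Filter Topology
open scoped Real

namespace Pool.Agent.H97.OC

/-- real parts of loop integrals of holomorphic functions on convex open sets -/
theorem re_loop {D : Set ℂ} (hD : IsOpen D) (hconv : Convex ℝ D) {F : ℂ → ℂ}
    (hF : DifferentiableOn ℂ F D) {x y x' y' : ℝ → ℝ} {T : ℝ} (hx' : Continuous x')
    (hy' : Continuous y') (hx : ∀ t, HasDerivAt x (x' t) t) (hy : ∀ t, HasDerivAt y (y' t) t)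
    (hmem : ∀ t, (⟨x t, y t⟩ : ℂ) ∈ D) (hxT : x T = x 0) (hyT : y T = y 0) :
    ∫ t in (0 : ℝ)..T, ((F ⟨x t, y t⟩).re * x' t - (F ⟨x t, y t⟩).im * y' t) = 0 := by
  obtain ⟨g, hg⟩ := hconv.exists_forall_hasDerivWithinAt hF
  have hg' : ∀ v ∈ D, HasDerivAt g (F v) v := fun v hv => (hg v hv).hasDerivAt (hD.mem_nhds hv)
  have hw : ∀ t, HasDerivAt (fun t => (⟨x t, y t⟩ : ℂ)) (⟨x' t, y' t⟩ : ℂ) t := by
    intro t
    have h1 := ((hx t).ofReal_comp).add (((hy t).ofReal_comp).mul_const Complex.I)
    have e1 : (fun t => (⟨x t, y t⟩ : ℂ)) = fun t => ((x t : ℝ) : ℂ) + ((y t : ℝ) : ℂ) * Complex.I := by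
      funext t
      exact Complex.mk_eq_add_mul_I _ _
    rw [e1, Complex.mk_eq_add_mul_I]
    exact h1
  have hder : ∀ t, HasDerivAt (fun t => (g ⟨x t, y t⟩).re)
      ((F ⟨x t, y t⟩).re * x' t - (F ⟨x t, y t⟩).im * y' t) t := by
    intro t
    have h2 := (hg' _ (hmem t)).comp t (hw t)
    have h3 := Complex.reCLM.hasFDerivAt.comp_hasDerivAt t h2
    refine h3.congr_deriv ?_
    rw [Complex.reCLM_apply, Complex.mul_re]
  have hc : Continuous (fun t => (⟨x t, y t⟩ : ℂ)) :=
    continuous_iff_continuousAt.2 fun t => (hw t).continuousAt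
  have hFc : Continuous (fun t => F ⟨x t, y t⟩) := continuous_iff_continuousAt.2 fun t =>
    (hF.differentiableAt (hD.mem_nhds (hmem t))).continuousAt.comp
      (f := fun t => (⟨x t, y t⟩ : ℂ)) hc.continuousAt
  have hc1 : Continuous (fun t => (F ⟨x t, y t⟩).re) := Complex.continuous_re.comp hFc
  have hc2 : Continuous (fun t => (F ⟨x t, y t⟩).im) := Complex.continuous_im.comp hFc
  rw [intervalIntegral.integral_eq_sub_of_hasDerivAt (fun t _ => hder t)
    (((hc1.mul hx').sub (hc2.mul hy')).intervalIntegrable _ _), hxT, hyT, sub_self]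

theorem e1 : S_E1 := by
  intro a b a' b' T ha' hb' ha hb hmem haT hbT
  let D : Set ℂ := {w | 0 < w.im ∧ w.im < π}
  have hDo : IsOpen D :=
    (isOpen_lt continuous_const Complex.continuous_im).inter
      (isOpen_lt Complex.continuous_im continuous_const)
  have hDc : Convex ℝ D :=
    (convex_halfSpace_im_gt (0 : ℝ)).inter (convex_halfSpace_im_lt π)
  have hne : ∀ w ∈ D, Complex.exp w - 1 ≠ 0 := by
    rintro w ⟨h1, h2⟩ h
    have h3 := congrArg Complex.im h
    rw [Complex.sub_im, Complex.exp_im, Complex.one_im, Complex.zero_im, sub_zero] at h3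
    have h4 := mul_pos (Real.exp_pos w.re) (Real.sin_pos_of_pos_of_lt_pi h1 h2)
    exact h4.ne' h3
  have hF : DifferentiableOn ℂ (fun w => w * (Complex.exp w / (Complex.exp w - 1))) D := by
    intro w hw
    refine DifferentiableAt.differentiableWithinAt ?_
    have h1 : DifferentiableAt ℂ (fun w : ℂ => w) w := differentiableAt_fun_id
    have h2 : DifferentiableAt ℂ (fun w : ℂ => Complex.exp w) w :=
      (Complex.differentiable_exp (𝕜 := ℂ)) w
    have h3 : DifferentiableAt ℂ (fun w : ℂ => Complex.exp w - 1) w := h2.sub_const 1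
    exact h1.fun_mul (h2.fun_div h3 (hne w hw))
  have key := re_loop (D := D) (x := a) (y := b) (x' := a') (y' := b') (T := T) hDo hDc hF ha' hb' ha hb
    (fun t => hmem t) haT hbT
  refine Eq.trans ?_ key
  refine intervalIntegral.integral_congr fun t _ => ?_
  have hN : Complex.normSq (Complex.exp ⟨a t, b t⟩ - 1) =
      Real.exp (2 * a t) - 2 * Real.exp (a t) * Real.cos (b t) + 1 := by
    rw [Complex.normSq_apply, Complex.sub_re, Complex.sub_im, Complex.exp_re, Complex.exp_im,
      Complex.one_re, Complex.one_im, two_mul (a t), Real.exp_add]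
    linear_combination (Real.exp (a t)) ^ 2 * Real.cos_sq_add_sin_sq (b t)
  have hNpos : 0 < Real.exp (2 * a t) - 2 * Real.exp (a t) * Real.cos (b t) + 1 := by
    rw [← hN]
    exact Complex.normSq_pos.2 (hne _ (hmem t))
  have hre : (Complex.exp ⟨a t, b t⟩ / (Complex.exp ⟨a t, b t⟩ - 1)).re =
      (Real.exp (2 * a t) - Real.exp (a t) * Real.cos (b t)) /
        (Real.exp (2 * a t) - 2 * Real.exp (a t) * Real.cos (b t) + 1) := by
    rw [Complex.div_re, hN, Complex.sub_re, Complex.sub_im, Complex.exp_re, Complex.exp_im,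
      Complex.one_re, Complex.one_im, ← add_div, two_mul (a t), Real.exp_add]
    congr 1
    linear_combination (Real.exp (a t)) ^ 2 * Real.cos_sq_add_sin_sq (b t)
  have him : (Complex.exp ⟨a t, b t⟩ / (Complex.exp ⟨a t, b t⟩ - 1)).im =
      -(Real.exp (a t) * Real.sin (b t)) /
        (Real.exp (2 * a t) - 2 * Real.exp (a t) * Real.cos (b t) + 1) := by
    rw [Complex.div_im, hN, Complex.sub_re, Complex.sub_im, Complex.exp_re, Complex.exp_im,
      Complex.one_re, Complex.one_im, ← sub_div]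
    congr 1
    ring
  rw [Complex.mul_re, Complex.mul_im, hre, him]
  dsimp only
  have := hNpos.ne'
  field_simp
  ring

theorem e1_of_loop (_ : S_loop) : S_E1 := e1

end Pool.Agent.H97.OC
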