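import Pool.Agent.H97.OC.Loop

/-! OC5: the loop integral over the angles of a triangle. -/

set_option autoImplicit false

open Set MeasureTheory Filter Topology
open scoped Real

namespace Pool.Agent.H97.OC

theorem e2_of_loop (hloop : S_loop) : S_E2 := by
  intro x y x' y' T hx' hy' hx hy hxm hym hwm hxT hyT
  let D : Set (ℝ × ℝ) := {v | 0 < v.1} ∩ ({v | v.1 < π} ∩ ({v | 0 < v.2} ∩ ({v | v.2 < π} ∩
    ({v | 0 < 2 * π - v.1 - v.2} ∩ {v | 2 * π - v.1 - v.2 < π}))))
  have hc1 : Continuous (fun v : ℝ × ℝ => v.1) := continuous_fst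
  have hc2 : Continuous (fun v : ℝ × ℝ => v.2) := continuous_snd
  have hc3 : Continuous (fun v : ℝ × ℝ => 2 * π - v.1 - v.2) := by fun_prop
  have hDo : IsOpen D :=
    (isOpen_lt continuous_const hc1).inter ((isOpen_lt hc1 continuous_const).inter
      ((isOpen_lt continuous_const hc2).inter ((isOpen_lt hc2 continuous_const).inter
        ((isOpen_lt continuous_const hc3).inter (isOpen_lt hc3 continuous_const)))))
  have hDc : Convex ℝ D := by
    intro v hv w hw a b ha hb hab
    obtain ⟨h1, h2, h3, h4, h5, h6⟩ := hv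
    obtain ⟨g1, g2, g3, g4, g5, g6⟩ := hw
    simp only [mem_ofPred_eq] at h1 h2 h3 h4 h5 h6 g1 g2 g3 g4 g5 g6
    have hb' : b = 1 - a := by linarith
    subst hb'
    have key : ∀ p q r : ℝ, p < r → q < r → a * p + (1 - a) * q < r := by
      intro p q r hp hq
      rcases ha.eq_or_lt with h0 | h0
      · rw [← h0]; linarith
      · nlinarith [mul_pos h0 (sub_pos.2 hp), mul_nonneg hb (sub_pos.2 hq).le]
    have key2 : ∀ p q r : ℝ, r < p → r < q → r < a * p + (1 - a) * q := by
      intro p q r hp hq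
      have := key (-p) (-q) (-r) (by linarith) (by linarith)
      linarith
    refine ⟨?_, ?_, ?_, ?_, ?_, ?_⟩ <;>
      simp only [mem_ofPred_eq, Prod.fst_add, Prod.snd_add, Prod.smul_fst, Prod.smul_snd,
        smul_eq_mul]
    · exact key2 _ _ _ h1 g1
    · exact key _ _ _ h2 g2
    · exact key2 _ _ _ h3 g3
    · exact key _ _ _ h4 g4
    · have := key2 _ _ _ h5 g5
      linarith
    · have := key _ _ _ h6 g6
      linarith
  -- the functions
  let w : ℝ × ℝ → ℝ := fun v => 2 * π - v.1 - v.2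
  let X := ContinuousLinearMap.fst ℝ ℝ ℝ
  let Y := ContinuousLinearMap.snd ℝ ℝ ℝ
  have hX : ∀ v : ℝ × ℝ, HasFDerivAt (fun v : ℝ × ℝ => v.1) X v := fun v => hasFDerivAt_fst
  have hY : ∀ v : ℝ × ℝ, HasFDerivAt (fun v : ℝ × ℝ => v.2) Y v := fun v => hasFDerivAt_snd
  have hW : ∀ v : ℝ × ℝ, HasFDerivAt w (-X - Y) v := by
    intro v
    have := ((hX v).const_sub (2 * π)).sub (hY v)
    exact this
  have hsx : ∀ v ∈ D, 0 < Real.sin v.1 := fun v hv => Real.sin_pos_of_pos_of_lt_pi hv.1 hv.2.1
  have hsy : ∀ v ∈ D, 0 < Real.sin v.2 := fun v hv =>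
    Real.sin_pos_of_pos_of_lt_pi hv.2.2.1 hv.2.2.2.1
  have hsw : ∀ v ∈ D, 0 < Real.sin (w v) := fun v hv =>
    Real.sin_pos_of_pos_of_lt_pi hv.2.2.2.2.1 hv.2.2.2.2.2
  -- derivative of `log sin` and `cot`
  have dls : ∀ r : ℝ, 0 < Real.sin r → HasDerivAt (fun r => Real.log (Real.sin r))
      (Real.cos r / Real.sin r) r := fun r hr => (Real.hasDerivAt_sin r).log hr.ne'
  have dct : ∀ r : ℝ, 0 < Real.sin r → HasDerivAt (fun r => Real.cos r / Real.sin r)
      (-(1 / Real.sin r ^ 2)) r := by
    intro r hr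
    refine ((Real.hasDerivAt_cos r).div (Real.hasDerivAt_sin r) hr.ne').congr_deriv ?_
    have := Real.sin_sq_add_cos_sq r
    field_simp
    linarith
  have csx : ContinuousOn (fun v : ℝ × ℝ => Real.sin v.1) D :=
    (Real.continuous_sin.comp hc1).continuousOn
  have csy : ContinuousOn (fun v : ℝ × ℝ => Real.sin v.2) D :=
    (Real.continuous_sin.comp hc2).continuousOn
  have csw : ContinuousOn (fun v : ℝ × ℝ => Real.sin (w v)) D :=
    (Real.continuous_sin.comp hc3).continuousOn
  have ccx : ContinuousOn (fun v : ℝ × ℝ => Real.cos v.1) D :=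
    (Real.continuous_cos.comp hc1).continuousOn
  have ccy : ContinuousOn (fun v : ℝ × ℝ => Real.cos v.2) D :=
    (Real.continuous_cos.comp hc2).continuousOn
  have ccw : ContinuousOn (fun v : ℝ × ℝ => Real.cos (w v)) D :=
    (Real.continuous_cos.comp hc3).continuousOn
  have clx := csx.log (fun v hv => (hsx v hv).ne')
  have cly := csy.log (fun v hv => (hsy v hv).ne')
  have clw := csw.log (fun v hv => (hsw v hv).ne')
  have ctx := ccx.div csx (fun v hv => (hsx v hv).ne')
  have cty := ccy.div csy (fun v hv => (hsy v hv).ne')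
  have ctw := ccw.div csw (fun v hv => (hsw v hv).ne')
  have cotid : ∀ v ∈ D, 1 - (Real.cos v.2 / Real.sin v.2) * (Real.cos (w v) / Real.sin (w v)) -
      (Real.cos (w v) / Real.sin (w v)) * (Real.cos v.1 / Real.sin v.1) =
      (Real.cos v.1 / Real.sin v.1) * (Real.cos v.2 / Real.sin v.2) := by
    intro v hv
    have h1 := (hsx v hv).ne'
    have h2 := (hsy v hv).ne'
    have h3 := (hsw v hv).ne'
    have e1 : Real.sin (w v) = -(Real.sin v.1 * Real.cos v.2 + Real.cos v.1 * Real.sin v.2) := by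
      have : w v = 2 * π - (v.1 + v.2) := by simp only [w]; ring
      rw [this, Real.sin_two_pi_sub, Real.sin_add]
    have e2 : Real.cos (w v) = Real.cos v.1 * Real.cos v.2 - Real.sin v.1 * Real.sin v.2 := by
      have : w v = 2 * π - (v.1 + v.2) := by simp only [w]; ring
      rw [this, Real.cos_two_pi_sub, Real.cos_add]
    field_simp
    rw [e1, e2]
    ring
  have key := hloop D
    (fun v => v.2 - Real.log (Real.sin v.2) * (Real.cos (w v) / Real.sin (w v)) +
      Real.log (Real.sin (w v)) * (Real.cos v.1 / Real.sin v.1))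
    (fun v => Real.log (Real.sin v.1) * (Real.cos v.2 / Real.sin v.2) -
      Real.log (Real.sin v.2) * (Real.cos (w v) / Real.sin (w v)))
    (fun v => -(Real.log (Real.sin v.2) * (1 / Real.sin (w v) ^ 2)) -
      (Real.cos (w v) / Real.sin (w v)) * (Real.cos v.1 / Real.sin v.1) -
      Real.log (Real.sin (w v)) * (1 / Real.sin v.1 ^ 2))
    (fun v => (Real.cos v.1 / Real.sin v.1) * (Real.cos v.2 / Real.sin v.2) -
      Real.log (Real.sin v.2) * (1 / Real.sin (w v) ^ 2))
    (fun v => -(Real.log (Real.sin v.1) * (1 / Real.sin v.2 ^ 2)) -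
      (Real.cos v.2 / Real.sin v.2) * (Real.cos (w v) / Real.sin (w v)) -
      Real.log (Real.sin v.2) * (1 / Real.sin (w v) ^ 2))
    x y x' y' T hDo hDc ?_ ?_ ?_ ?_ ?_ hx' hy' hx hy
    (fun t => ⟨(hxm t).1, (hxm t).2, (hym t).1, (hym t).2, (hwm t).1, (hwm t).2⟩) hxT hyT
  · refine Eq.trans ?_ key
    refine intervalIntegral.integral_congr fun t _ => ?_
    simp only [w]
    ring
  · exact ((cly.mul (continuousOn_const.div (csw.pow 2) (fun v hv => (pow_pos (hsw v hv) 2).ne'))).neg.sub
      (ctw.mul ctx)).sub (clw.mul (continuousOn_const.div (csx.pow 2)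
        (fun v hv => (pow_pos (hsx v hv) 2).ne')))
  · exact (ctx.mul cty).sub (cly.mul (continuousOn_const.div (csw.pow 2)
      (fun v hv => (pow_pos (hsw v hv) 2).ne')))
  · exact ((clx.mul (continuousOn_const.div (csy.pow 2) (fun v hv => (pow_pos (hsy v hv) 2).ne'))).neg.sub
      (cty.mul ctw)).sub (cly.mul (continuousOn_const.div (csw.pow 2)
        (fun v hv => (pow_pos (hsw v hv) 2).ne')))
  · intro v hv
    have hlw := (dls _ (hsw v hv)).comp_hasFDerivAt v (hW v)
    have hly := (dls _ (hsy v hv)).comp_hasFDerivAt v (hY v)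
    have htw := (dct _ (hsw v hv)).comp_hasFDerivAt v (hW v)
    have htx := (dct _ (hsx v hv)).comp_hasFDerivAt v (hX v)
    have h := ((hY v).sub (hly.mul htw)).add (hlw.mul htx)
    refine h.congr_fderiv ?_
    have hcot := cotid v hv
    refine ContinuousLinearMap.ext fun u => ?_
    simp only [add_apply, sub_apply, neg_apply, smul_apply, smul_eq_mul, X, Y,
      ContinuousLinearMap.coe_fst', ContinuousLinearMap.coe_snd', Function.comp]
    linear_combination u.2 * hcot
  · intro v hv
    have hlx := (dls _ (hsx v hv)).comp_hasFDerivAt v (hX v)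
    have hly := (dls _ (hsy v hv)).comp_hasFDerivAt v (hY v)
    have htw := (dct _ (hsw v hv)).comp_hasFDerivAt v (hW v)
    have hty := (dct _ (hsy v hv)).comp_hasFDerivAt v (hY v)
    have h := (hlx.mul hty).sub (hly.mul htw)
    refine h.congr_fderiv ?_
    refine ContinuousLinearMap.ext fun u => ?_
    simp only [add_apply, sub_apply, neg_apply, smul_apply, smul_eq_mul, X, Y,
      ContinuousLinearMap.coe_fst', ContinuousLinearMap.coe_snd', Function.comp]
    ring

end Pool.Agent.H97.OC
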