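import Pool.Agent.H97.OC.Stubs2

set_option autoImplicit false

open Set Filter Topology MeasureTheory
open scoped Real

namespace Pool.Agent.H97.OC

open Pool.Agent.H97.OB

theorem continuousOn_Psi {X : Type*} [TopologicalSpace X] {S : Set X} {a b r s : X → ℝ}
    (ha : ContinuousOn a S) (hb : ContinuousOn b S) (hr : ContinuousOn r S)
    (hs : ContinuousOn s S) (ha0 : ∀ x ∈ S, 0 < a x) (hr0 : ∀ x ∈ S, 0 < r x) :
    ContinuousOn (fun x => Psi (a x) (b x) (r x) (s x)) S := by
  unfold Psi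
  have hane : ∀ x ∈ S, a x ≠ 0 := fun x hx => (ha0 x hx).ne'
  have h1 : ContinuousOn (fun x => √(r x / a x)) S :=
    Real.continuous_sqrt.comp_continuousOn (hr.div ha hane)
  have h2 : ContinuousOn (fun x => √(a x * r x)) S :=
    Real.continuous_sqrt.comp_continuousOn (ha.mul hr)
  have h2' : ∀ x ∈ S, √(a x * r x) ≠ 0 := fun x hx =>
    (Real.sqrt_pos.2 (mul_pos (ha0 x hx) (hr0 x hx))).ne'
  have h3 : ContinuousOn (fun x => Real.arctan (s x / √(a x * r x))) S :=
    Real.continuous_arctan.comp_continuousOn (hs.div h2 h2')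
  have h4 : ContinuousOn (fun x => Real.arctan ((b x + s x) / a x)) S :=
    Real.continuous_arctan.comp_continuousOn ((hb.add hs).div ha hane)
  have h5 : ContinuousOn (fun x => Real.arctan ((b x - s x) / a x)) S :=
    Real.continuous_arctan.comp_continuousOn ((hb.sub hs).div ha hane)
  have hne1 : ∀ x ∈ S, a x ^ 2 + (b x + s x) ^ 2 ≠ 0 := fun x hx => by
    have := ha0 x hx
    positivity
  have hne2 : ∀ x ∈ S, a x ^ 2 + (b x - s x) ^ 2 ≠ 0 := fun x hx => by
    have := ha0 x hx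
    positivity
  have h6 : ContinuousOn (fun x => Real.log ((a x ^ 2 + (b x + s x) ^ 2) /
      (a x ^ 2 + (b x - s x) ^ 2))) S := by
    refine ContinuousOn.log ?_ ?_
    · exact ((ha.pow 2).add ((hb.add hs).pow 2)).div ((ha.pow 2).add ((hb.sub hs).pow 2)) hne2
    · intro x hx
      exact div_ne_zero (hne1 x hx) (hne2 x hx)
  have h7 : ContinuousOn (fun x => b x / (2 * a x)) S :=
    hb.div (continuousOn_const.mul ha) (fun x hx => mul_ne_zero two_ne_zero (hane x hx))
  exact (((continuousOn_const.mul h1).mul h3).sub (h4.sub h5)).sub (h7.mul h6)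

theorem continuousOn_QQ {X : Type*} [TopologicalSpace X] {S : Set X} {a b r s : X → ℝ}
    (ha : ContinuousOn a S) (hb : ContinuousOn b S) (hr : ContinuousOn r S)
    (hs : ContinuousOn s S) (ha0 : ∀ x ∈ S, 0 < a x) (hr0 : ∀ x ∈ S, 0 < r x) :
    ContinuousOn (fun x => QQ (a x) (b x) (r x) (s x)) S := by
  unfold QQ
  have hane : ∀ x ∈ S, a x ≠ 0 := fun x hx => (ha0 x hx).ne'
  have hs2 := hs.pow 2
  have ha2 := ha.pow 2
  have hb2 := hb.pow 2
  have hN : ContinuousOn (fun x => s x ^ 2 + a x ^ 2 - b x ^ 2) S := (hs2.add ha2).sub hb2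
  have hD : ContinuousOn (fun x => (s x ^ 2 + a x ^ 2 - b x ^ 2) ^ 2 +
      4 * a x ^ 2 * b x ^ 2) S := (hN.pow 2).add ((continuousOn_const.mul ha2).mul hb2)
  have hD0 : ∀ x ∈ S, (s x ^ 2 + a x ^ 2 - b x ^ 2) ^ 2 + 4 * a x ^ 2 * b x ^ 2 ≠ 0 := by
    intro x hx
    have h0 := ha0 x hx
    have : (s x ^ 2 + a x ^ 2 - b x ^ 2) ^ 2 + 4 * a x ^ 2 * b x ^ 2 =
      (a x ^ 2 + (b x + s x) ^ 2) * (a x ^ 2 + (b x - s x) ^ 2) := by ring
    rw [this]
    positivity
  have hE0 : ∀ x ∈ S, s x ^ 2 + a x * r x ≠ 0 := by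
    intro x hx
    have h0 := ha0 x hx
    have h1 := hr0 x hx
    positivity
  exact ((continuousOn_const.mul hs).div ha hane).mul
    ((hN.div hD hD0).sub (continuousOn_const.div (hs2.add (ha.mul hr)) hE0))

theorem Psi_zero (p q r : ℝ) : Psi p q r 0 = 0 := by
  unfold Psi
  have : Real.log ((p ^ 2 + (q + 0) ^ 2) / (p ^ 2 + (q - 0) ^ 2)) = 0 := by
    rw [add_zero, sub_zero]
    by_cases h : p ^ 2 + q ^ 2 = 0
    · rw [h]; simp
    · rw [div_self h, Real.log_one]
  rw [this]
  simp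

theorem mono_of (h1 : S_dPsi) : S_mono2 := by
  intro p q ρ σ v hS hσ hv hd hσ0 hσpos hint
  have hpc : Continuous p := continuous_iff_continuousAt.2 fun x => (hS.dp x).continuousAt
  have hqc : Continuous q := continuous_iff_continuousAt.2 fun x => (hS.dq x).continuousAt
  have hrc := hS.cont
  set P : ℝ → ℝ → ℝ := fun c θ => Psi (p θ) (q θ) (ρ θ) (σ c θ) with hP
  set D : ℝ → ℝ → ℝ := fun c θ =>
    QQ (p θ) (q θ) (ρ θ) (σ c θ) * (σ c θ * v c θ) with hD
  have hPcont : ContinuousOn (fun x : ℝ × ℝ => P x.1 x.2) (Icc 0 1 ×ˢ univ) :=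
    continuousOn_Psi (hpc.comp continuous_snd).continuousOn (hqc.comp continuous_snd).continuousOn
      (hrc.comp continuous_snd).continuousOn hσ (fun x _ => hS.ppos _) (fun x _ => hS.rpos _)
  have hsub : (Ioo (0 : ℝ) 1 ×ˢ (univ : Set ℝ)) ⊆ Icc (0 : ℝ) 1 ×ˢ univ :=
    prod_mono Ioo_subset_Icc_self subset_rfl
  have hDcont : ContinuousOn (fun x : ℝ × ℝ => D x.1 x.2) (Ioo 0 1 ×ˢ univ) := by
    have hσ' := hσ.mono hsub
    exact (continuousOn_QQ (hpc.comp continuous_snd).continuousOn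
      (hqc.comp continuous_snd).continuousOn
      (hrc.comp continuous_snd).continuousOn hσ' (fun x _ => hS.ppos _)
      (fun x _ => hS.rpos _)).mul (hσ'.mul hv)
  have hPd : ∀ c ∈ Ioo (0 : ℝ) 1, ∀ θ, HasDerivAt (fun c => P c θ) (D c θ) c := by
    intro c hc θ
    have h := (h1 (p θ) (q θ) (ρ θ) (σ c θ) (hS.ppos θ) (hS.rpos θ)).comp c (hd c hc θ)
    refine h.congr_deriv ?_
    simp only [hD]
    ring
  -- slices
  have hPslice : ∀ c ∈ Icc (0 : ℝ) 1, Continuous (P c) := by
    intro c hc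
    rw [← continuousOn_univ]
    exact hPcont.comp (f := fun θ : ℝ => (c, θ)) (by fun_prop) (fun θ _ => ⟨hc, mem_univ _⟩)
  have hDslice : ∀ c ∈ Ioo (0 : ℝ) 1, Continuous (D c) := by
    intro c hc
    rw [← continuousOn_univ]
    exact hDcont.comp (f := fun θ : ℝ => (c, θ)) (by fun_prop) (fun θ _ => ⟨hc, mem_univ _⟩)
  set G : ℝ → ℝ := fun c => ∫ θ in (0 : ℝ)..(2 * π), P c θ with hG
  have hGcont : ContinuousOn G (Icc 0 1) := by
    set pr : ℝ → ℝ := fun c => max 0 (min 1 c) with hpr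
    have hprmem : ∀ c, pr c ∈ Icc (0 : ℝ) 1 := fun c =>
      ⟨le_max_left _ _, max_le zero_le_one (min_le_left _ _)⟩
    have hc2 : Continuous (fun x : ℝ × ℝ => P (pr x.1) x.2) := by
      rw [← continuousOn_univ]
      refine hPcont.comp (f := fun x : ℝ × ℝ => (pr x.1, x.2)) (by fun_prop)
        (fun x _ => ⟨hprmem _, mem_univ _⟩)
    have hc3 : Continuous (fun c => ∫ θ in (0 : ℝ)..(2 * π), P (pr c) θ) :=
      intervalIntegral.continuous_parametric_intervalIntegral_of_continuous' hc2 0 (2 * π)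
    refine hc3.continuousOn.congr ?_
    intro c hc
    have : pr c = c := by
      simp only [hpr]
      rw [min_eq_right hc.2, max_eq_right hc.1]
    simp only [hG, this]
  have hGd : ∀ c ∈ Ioo (0 : ℝ) 1, HasDerivAt G (∫ θ in (0 : ℝ)..(2 * π), D c θ) c := by
    intro c hc
    obtain ⟨ε, hε, hball⟩ := Metric.isOpen_iff.1 isOpen_Ioo c hc
    have hcb : Metric.closedBall c (ε / 2) ⊆ Ioo 0 1 := fun x hx =>
      hball (lt_of_le_of_lt (Metric.mem_closedBall.1 hx) (by linarith))
    have hcomp : IsCompact (Metric.closedBall c (ε / 2) ×ˢ Icc (0 : ℝ) (2 * π)) :=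
      (isCompact_closedBall _ _).prod isCompact_Icc
    obtain ⟨K, hK⟩ := hcomp.exists_bound_of_continuousOn
      (hDcont.mono (prod_mono hcb (subset_univ _)))
    have h2pi : (0 : ℝ) ≤ 2 * π := by positivity
    have hmem : Metric.ball c (ε / 2) ∈ 𝓝 c := Metric.ball_mem_nhds _ (by linarith)
    refine (intervalIntegral.hasDerivAt_integral_of_dominated_loc_of_deriv_le
      (μ := volume) (F := P) (F' := D) (bound := fun _ => K) (a := 0) (b := 2 * π)
      hmem ?_ ?_ ?_ ?_ ?_ ?_).2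
    · filter_upwards [hmem] with x hx
      exact (hPslice x (Ioo_subset_Icc_self (hcb (Metric.ball_subset_closedBall hx)))).aestronglyMeasurable
    · exact (hPslice c (Ioo_subset_Icc_self hc)).intervalIntegrable _ _
    · exact (hDslice c hc).aestronglyMeasurable
    · refine Eventually.of_forall fun θ hθ x hx => ?_
      rw [uIoc_of_le h2pi] at hθ
      exact hK (x, θ) ⟨Metric.ball_subset_closedBall hx, ⟨hθ.1.le, hθ.2⟩⟩
    · exact intervalIntegrable_const
    · refine Eventually.of_forall fun θ _ x hx => ?_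
      exact hPd x (hcb (Metric.ball_subset_closedBall hx)) θ
  have hmono : MonotoneOn G (Icc 0 1) := by
    refine monotoneOn_of_deriv_nonneg (convex_Icc _ _) hGcont ?_ ?_
    · intro c hc
      rw [interior_Icc] at hc
      exact (hGd c hc).differentiableAt.differentiableWithinAt
    · intro c hc
      rw [interior_Icc] at hc
      rw [(hGd c hc).deriv]
      exact hint c hc
  have hG0 : G 0 = 0 := by
    simp only [hG, hP, hσ0, Psi_zero, intervalIntegral.integral_zero]
  have hG1 : 0 ≤ G 1 := by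
    rw [← hG0]
    exact hmono (left_mem_Icc.2 zero_le_one) (right_mem_Icc.2 zero_le_one) zero_le_one
  refine ⟨hG1, fun hle c hc => ?_⟩
  have hle' : G 1 ≤ 0 := hle
  have hz : ∀ x ∈ Icc (0 : ℝ) 1, G x = 0 := by
    intro x hx
    apply le_antisymm
    · exact (hmono hx (right_mem_Icc.2 zero_le_one) hx.2).trans hle'
    · rw [← hG0]
      exact hmono (left_mem_Icc.2 zero_le_one) hx hx.1
  have hev : G =ᶠ[𝓝 c] fun _ => (0 : ℝ) := by
    filter_upwards [isOpen_Ioo.mem_nhds hc] with x hx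
    exact hz x (Ioo_subset_Icc_self hx)
  have h0 : HasDerivAt G 0 c := (hasDerivAt_const c (0 : ℝ)).congr_of_eventuallyEq hev
  exact (hGd c hc).unique h0

theorem mono : S_mono2 := mono_of dPsi

end Pool.Agent.H97.OC
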