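import Pool.Agent.H97.OC.Kin
import Pool.Agent.H97.OC.Mono

/-!
# Outer billiards: rigidity of collars up to the leaf of 3-periodic orbits
-/

set_option autoImplicit false

open Set Filter Topology Complex MeasureTheory
open scoped ContDiff Real

namespace Pool.Agent.H97.OC

open Pool.Agent.H97.OB

variable {γ : ℝ → ℂ} {ρ : ℝ → ℝ} {Y : ℂ → ℝ}

/-- If `ρ p ^ 3` is constant then `p ^ 2` is a quadratic form in the normal vector. -/
lemma ermakov {p q ρ : ℝ → ℝ} (hS : Supp2 p q ρ) {κ : ℝ} (hκ : ∀ θ, ρ θ * p θ ^ 3 = κ) :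
    ∃ A B C : ℝ, ∀ θ, p θ ^ 2 =
      A * Real.cos θ ^ 2 + B * (Real.cos θ * Real.sin θ) + C * Real.sin θ ^ 2 := by
  have hp := hS.ppos
  -- energy
  have hE : ∀ θ, HasDerivAt (fun θ => q θ ^ 2 + p θ ^ 2 + κ / p θ ^ 2) 0 θ := by
    intro θ
    have h1 := (hS.dq θ).pow 2
    have h2 := (hS.dp θ).pow 2
    have h3 : HasDerivAt (fun θ => κ / p θ ^ 2) (κ * (-(2 * p θ * q θ) / (p θ ^ 2) ^ 2)) θ := by
      have h4 : HasDerivAt (fun θ => (p θ ^ 2)⁻¹) (-(2 * p θ * q θ) / (p θ ^ 2) ^ 2) θ := by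
        have := ((hS.dp θ).pow 2).inv (pow_ne_zero 2 (hp θ).ne')
        refine this.congr_deriv ?_
        simp
      have := h4.const_mul κ
      refine this.congr_of_eventuallyEq (Eventually.of_forall fun x => ?_)
      simp [div_eq_mul_inv]
    refine ((h1.add h2).add h3).congr_deriv ?_
    have hpθ := (hp θ).ne'
    rw [← hκ θ]
    simp only [Nat.cast_ofNat, Nat.add_one_sub_one, pow_one]
    field_simp
    ring
  obtain ⟨E, hEc⟩ : ∃ E, ∀ θ, q θ ^ 2 + p θ ^ 2 + κ / p θ ^ 2 = E :=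
    ⟨_, fun θ => is_const_of_deriv_eq_zero (f := fun θ => q θ ^ 2 + p θ ^ 2 + κ / p θ ^ 2)
      (fun θ => (hE θ).differentiableAt) (fun θ => (hE θ).deriv) θ 0⟩
  have hκ2 : ∀ θ, ρ θ * p θ = κ / p θ ^ 2 := by
    intro θ
    have hpθ := (hp θ).ne'
    rw [← hκ θ]; field_simp
  have hq2 : ∀ θ, HasDerivAt (fun θ => p θ * q θ) (E - 2 * p θ ^ 2) θ := by
    intro θ
    refine ((hS.dp θ).mul (hS.dq θ)).congr_deriv ?_
    have e1 := hEc θ
    have e2 := hκ2 θ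
    nlinarith
  have hp2 : ∀ θ, HasDerivAt (fun θ => p θ ^ 2 - E / 2) (2 * (p θ * q θ)) θ := by
    intro θ
    refine (((hS.dp θ).pow 2).sub_const _).congr_deriv ?_
    simp only [Nat.cast_ofNat, Nat.add_one_sub_one, pow_one]; ring
  have d2 : ∀ θ : ℝ, HasDerivAt (fun θ : ℝ => 2 * θ) 2 θ := fun θ => by
    simpa using (hasDerivAt_id θ).const_mul 2
  have hα : ∀ θ, HasDerivAt (fun θ => (p θ ^ 2 - E / 2) * Real.cos (2 * θ) -
      p θ * q θ * Real.sin (2 * θ)) 0 θ := by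
    intro θ
    refine (((hp2 θ).mul (d2 θ).cos).sub ((hq2 θ).mul (d2 θ).sin)).congr_deriv ?_
    ring
  have hβ : ∀ θ, HasDerivAt (fun θ => (p θ ^ 2 - E / 2) * Real.sin (2 * θ) +
      p θ * q θ * Real.cos (2 * θ)) 0 θ := by
    intro θ
    refine (((hp2 θ).mul (d2 θ).sin).add ((hq2 θ).mul (d2 θ).cos)).congr_deriv ?_
    ring
  obtain ⟨α, hαc⟩ : ∃ α, ∀ θ, (p θ ^ 2 - E / 2) * Real.cos (2 * θ) -
      p θ * q θ * Real.sin (2 * θ) = α :=
    ⟨_, fun θ => is_const_of_deriv_eq_zero (f := fun θ => (p θ ^ 2 - E / 2) * Real.cos (2 * θ) -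
      p θ * q θ * Real.sin (2 * θ))
      (fun θ => (hα θ).differentiableAt) (fun θ => (hα θ).deriv) θ 0⟩
  obtain ⟨β, hβc⟩ : ∃ β, ∀ θ, (p θ ^ 2 - E / 2) * Real.sin (2 * θ) +
      p θ * q θ * Real.cos (2 * θ) = β :=
    ⟨_, fun θ => is_const_of_deriv_eq_zero (f := fun θ => (p θ ^ 2 - E / 2) * Real.sin (2 * θ) +
      p θ * q θ * Real.cos (2 * θ))
      (fun θ => (hβ θ).differentiableAt) (fun θ => (hβ θ).deriv) θ 0⟩
  refine ⟨E / 2 + α, 2 * β, E / 2 - α, fun θ => ?_⟩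
  have e1 := hαc θ
  have e2 := hβc θ
  have e3 : p θ ^ 2 - E / 2 = α * Real.cos (2 * θ) + β * Real.sin (2 * θ) := by
    rw [← e1, ← e2]
    have := Real.sin_sq_add_cos_sq (2 * θ)
    linear_combination (-(p θ ^ 2 - E / 2)) * this
  have e4 : Real.cos (2 * θ) = Real.cos θ ^ 2 - Real.sin θ ^ 2 := by
    rw [Real.cos_two_mul, Real.sin_sq]; ring
  have e5 : Real.sin (2 * θ) = 2 * Real.sin θ * Real.cos θ := Real.sin_two_mul θ
  rw [e4, e5] at e3
  have := Real.sin_sq_add_cos_sq θ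
  linear_combination e3 - E / 2 * this

namespace Sit

/-- polar angles are onto -/
lemma angle_surj (h : Sit γ ρ Y) {s : ℝ → ℝ} (hs : Continuous s) (φ : ℝ) :
    ∃ θ, θ + Real.arctan ((sq γ θ + s θ) / sp γ θ) = φ := by
  have hp := h.cont_sp
  have hq := h.cont_sq
  refine surj_of_bdd (g := fun θ => θ + Real.arctan ((sq γ θ + s θ) / sp γ θ)) ?_ (π / 2) ?_ φ
  · refine continuous_id.add (Real.continuous_arctan.comp (Continuous.div (by fun_prop) hp ?_))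
    intro θ; exact (h.supp.ppos θ).ne'
  · intro θ
    rw [add_sub_cancel_left, abs_le]
    exact ⟨(Real.neg_pi_div_two_lt_arctan _).le, (Real.arctan_lt_pi_div_two _).le⟩

/-- all the points of a leaf -/
lemma leaf_iff (h : Sit γ ρ Y) {c : ℝ} (h0 : 0 < c) (h1 : c ≤ 1) (z : ℂ) :
    Y z = c ↔ ∃ θ, z = P γ θ (S γ Y c θ) := by
  constructor
  · intro hz
    have hz0 : z ≠ 0 := by
      rintro rfl
      have := h.inside_zero
      linarith
    have hn : 0 < ‖z‖ := norm_pos_iff.2 hz0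
    have hzp : z = ‖z‖ * exp (arg z * I) := (norm_mul_exp_arg_mul_I z).symm
    have hr1 : ‖z‖ = Rad Y c (arg z) := h.Rad_unique h0 h1 hn (by rw [← hzp]; exact hz)
    obtain ⟨θ, hθ⟩ := h.angle_surj (h.S_cont h0 h1) (arg z)
    refine ⟨θ, ?_⟩
    rw [h.P_rad h0 h1 (h.S_spec h0 h1 θ).2, hθ, ← hr1]
    exact hzp
  · rintro ⟨θ, rfl⟩
    exact (h.S_spec h0 h1 θ).2

/-- The quadratic form. -/
noncomputable def Nq (A B C : ℝ) (z : ℂ) : ℝ :=
  C / (A * C - B ^ 2 / 4) * z.re ^ 2 + 2 * (-B / (2 * (A * C - B ^ 2 / 4))) * z.re * z.im +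
    A / (A * C - B ^ 2 / 4) * z.im ^ 2

section ell

variable (h : Sit γ ρ Y) {A B C : ℝ} (hp2 : ∀ θ, sp γ θ ^ 2 =
  A * Real.cos θ ^ 2 + B * (Real.cos θ * Real.sin θ) + C * Real.sin θ ^ 2)
include h hp2

lemma disc_pos : 0 < A ∧ 0 < C ∧ 0 < A * C - B ^ 2 / 4 := by
  have hA : 0 < A := by
    have := hp2 0
    simp at this
    rw [← this]
    have := h.supp.ppos 0
    positivity
  have hC : 0 < C := by
    have := hp2 (π / 2)
    simp at this
    rw [← this]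
    have := h.supp.ppos (π / 2)
    positivity
  refine ⟨hA, hC, ?_⟩
  set v : ℂ := ⟨B / 2, -A⟩ with hv
  have hv0 : v ≠ 0 := by
    intro h0
    have := congrArg Complex.im h0
    simp [hv] at this
    exact hA.ne' this
  have hn : 0 < ‖v‖ := norm_pos_iff.2 hv0
  have e1 : ‖v‖ * Real.cos (arg v) = B / 2 := by
    rw [Complex.norm_mul_cos_arg]
  have e2 : ‖v‖ * Real.sin (arg v) = -A := by
    rw [Complex.norm_mul_sin_arg]
  have h2 := hp2 (arg v)
  have h3 : ‖v‖ ^ 2 * sp γ (arg v) ^ 2 = A * (A * C - B ^ 2 / 4) := by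
    rw [h2]
    have : ‖v‖ ^ 2 * (A * Real.cos (arg v) ^ 2 + B * (Real.cos (arg v) * Real.sin (arg v)) +
        C * Real.sin (arg v) ^ 2) = A * (‖v‖ * Real.cos (arg v)) ^ 2 +
        B * ((‖v‖ * Real.cos (arg v)) * (‖v‖ * Real.sin (arg v))) +
        C * (‖v‖ * Real.sin (arg v)) ^ 2 := by ring
    rw [this, e1, e2]; ring
  have h4 : 0 < ‖v‖ ^ 2 * sp γ (arg v) ^ 2 := by
    have := h.supp.ppos (arg v)
    positivity
  rw [h3] at h4
  exact (pos_iff_pos_of_mul_pos h4).1 hA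

lemma pq_eq (θ : ℝ) : sp γ θ * sq γ θ = (C - A) * (Real.cos θ * Real.sin θ) +
    B / 2 * (Real.cos θ ^ 2 - Real.sin θ ^ 2) := by
  have d1 : HasDerivAt (fun θ => sp γ θ ^ 2) (2 * sp γ θ * sq γ θ) θ := by
    exact ((h.supp.dp θ).pow 2).congr_deriv (by simp)
  have hc := Real.hasDerivAt_cos θ
  have hs := Real.hasDerivAt_sin θ
  have d2 : HasDerivAt (fun θ => A * Real.cos θ ^ 2 + B * (Real.cos θ * Real.sin θ) +
      C * Real.sin θ ^ 2) (A * (2 * Real.cos θ * (-Real.sin θ)) +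
      B * (-Real.sin θ * Real.sin θ + Real.cos θ * Real.cos θ) +
      C * (2 * Real.sin θ * Real.cos θ)) θ := by
    exact ((((hc.pow 2).const_mul A).add ((hc.mul hs).const_mul B)).add
      ((hs.pow 2).const_mul C)).congr_deriv (by simp)
  have e : (fun θ => sp γ θ ^ 2) = fun θ => A * Real.cos θ ^ 2 +
      B * (Real.cos θ * Real.sin θ) + C * Real.sin θ ^ 2 := funext hp2
  rw [e] at d1
  have := d1.unique d2
  linarith

/-- the value of the quadratic form in tangent coordinates -/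
lemma Nq_P (θ s : ℝ) : Nq A B C (P γ θ s) = 1 + s ^ 2 * sp γ θ ^ 2 / (A * C - B ^ 2 / 4) := by
  obtain ⟨hA, hC, hD⟩ := h.disc_pos hp2
  have hp := h.supp.ppos θ
  have hpq := h.pq_eq hp2 θ
  have hpp := hp2 θ
  have hre : (P γ θ s).re = sp γ θ * Real.cos θ - (sq γ θ + s) * Real.sin θ := by
    rw [P_eq_pt, pt, exp_mul_I, ← ofReal_cos, ← ofReal_sin]
    simp only [mul_re, add_re, add_im, ofReal_re, ofReal_im, I_re, I_im, mul_im]
    ring
  have him : (P γ θ s).im = sp γ θ * Real.sin θ + (sq γ θ + s) * Real.cos θ := by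
    rw [P_eq_pt, pt, exp_mul_I, ← ofReal_cos, ← ofReal_sin]
    simp only [mul_re, add_re, add_im, ofReal_re, ofReal_im, I_re, I_im, mul_im]
    ring
  have hcs := Real.sin_sq_add_cos_sq θ
  have hx : sp γ θ * (sp γ θ * Real.cos θ - sq γ θ * Real.sin θ) =
      A * Real.cos θ + B / 2 * Real.sin θ := by
    have e1 : sp γ θ * (sp γ θ * Real.cos θ - sq γ θ * Real.sin θ) =
      sp γ θ ^ 2 * Real.cos θ - (sp γ θ * sq γ θ) * Real.sin θ := by ring
    rw [e1, hpp, hpq]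
    linear_combination (A * Real.cos θ + B / 2 * Real.sin θ) * hcs
  have hy : sp γ θ * (sp γ θ * Real.sin θ + sq γ θ * Real.cos θ) =
      B / 2 * Real.cos θ + C * Real.sin θ := by
    have e1 : sp γ θ * (sp γ θ * Real.sin θ + sq γ θ * Real.cos θ) =
      sp γ θ ^ 2 * Real.sin θ + (sp γ θ * sq γ θ) * Real.cos θ := by ring
    rw [e1, hpp, hpq]
    linear_combination (B / 2 * Real.cos θ + C * Real.sin θ) * hcs
  have hX : (P γ θ s).re = (A * Real.cos θ + B / 2 * Real.sin θ) / sp γ θ - s * Real.sin θ := by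
    rw [hre, ← hx]; field_simp; ring
  have hY : (P γ θ s).im = (B / 2 * Real.cos θ + C * Real.sin θ) / sp γ θ + s * Real.cos θ := by
    rw [him, ← hy]; field_simp; ring
  unfold Nq
  rw [hX, hY]
  have hD' := hD.ne'
  have hp' := hp.ne'
  set co := Real.cos θ
  set si := Real.sin θ
  set D := A * C - B ^ 2 / 4 with hDdef
  have hquad : (C * (A * co + B / 2 * si) ^ 2 - B * (A * co + B / 2 * si) * (B / 2 * co + C * si) +
      A * (B / 2 * co + C * si) ^ 2) = D * sp γ θ ^ 2 := by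
    rw [hpp, hDdef]; ring
  have hcross : (2 * C * (A * co + B / 2 * si) * (-si) -
      B * ((A * co + B / 2 * si) * co + (B / 2 * co + C * si) * (-si)) +
      2 * A * (B / 2 * co + C * si) * co) = 0 := by ring
  have hlast : (C * si ^ 2 + B * (si * co) + A * co ^ 2) = sp γ θ ^ 2 := by
    rw [hpp]; ring
  have key : C / D * ((A * co + B / 2 * si) / sp γ θ - s * si) ^ 2 +
      2 * (-B / (2 * D)) * ((A * co + B / 2 * si) / sp γ θ - s * si) *
        ((B / 2 * co + C * si) / sp γ θ + s * co) +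
      A / D * ((B / 2 * co + C * si) / sp γ θ + s * co) ^ 2 =
      (1 / D) * ((C * (A * co + B / 2 * si) ^ 2 -
        B * (A * co + B / 2 * si) * (B / 2 * co + C * si) +
        A * (B / 2 * co + C * si) ^ 2) / sp γ θ ^ 2 +
        s / sp γ θ * (2 * C * (A * co + B / 2 * si) * (-si) -
      B * ((A * co + B / 2 * si) * co + (B / 2 * co + C * si) * (-si)) +
      2 * A * (B / 2 * co + C * si) * co) +
        s ^ 2 * (C * si ^ 2 + B * (si * co) + A * co ^ 2)) := by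
    field_simp
    ring
  rw [key, hquad, hcross, hlast]
  field_simp
  ring

/-- the conics of the pencil in tangent coordinates -/
lemma conic_iff {τ : ℝ} (hτ : 0 ≤ τ) (z : ℂ) :
    Nq A B C z = 1 + τ ^ 2 / (A * C - B ^ 2 / 4) ↔ ∃ θ, z = P γ θ (τ / sp γ θ) := by
  obtain ⟨hA, hC, hD⟩ := h.disc_pos hp2
  have hval : ∀ θ, Nq A B C (P γ θ (τ / sp γ θ)) = 1 + τ ^ 2 / (A * C - B ^ 2 / 4) := by
    intro θ
    rw [h.Nq_P hp2]
    have hp := (h.supp.ppos θ).ne'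
    congr 2
    field_simp
  constructor
  · intro hz
    have hl : 0 < 1 + τ ^ 2 / (A * C - B ^ 2 / 4) := by positivity
    have hz0 : z ≠ 0 := by
      rintro rfl
      unfold Nq at hz
      simp at hz
      linarith
    have hn : 0 < ‖z‖ := norm_pos_iff.2 hz0
    have hzp : z = ‖z‖ * exp (arg z * I) := (norm_mul_exp_arg_mul_I z).symm
    have hcs : Continuous fun θ => τ / sp γ θ :=
      continuous_const.div h.cont_sp fun θ => (h.supp.ppos θ).ne'
    obtain ⟨θ, hθ⟩ := h.angle_surj hcs (arg z)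
    refine ⟨θ, ?_⟩
    have hP := h.P_polar θ (τ / sp γ θ)
    rw [hθ] at hP
    set R := sp γ θ * √(1 + ((sq γ θ + τ / sp γ θ) / sp γ θ) ^ 2) with hR
    have hRpos : 0 < R := mul_pos (h.supp.ppos θ) (Real.sqrt_pos.2 (by positivity))
    have hscale : ∀ r : ℝ, Nq A B C (r * exp (arg z * I)) = r ^ 2 * Nq A B C (exp (arg z * I)) := by
      intro r
      unfold Nq
      simp only [mul_re, mul_im, ofReal_re, ofReal_im]
      ring
    have e1 := hval θ
    rw [hP, hscale] at e1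
    rw [hzp, hscale] at hz
    have hN : Nq A B C (exp (arg z * I)) ≠ 0 := by
      intro h0
      rw [h0, mul_zero] at hz
      linarith
    have h5 : ‖z‖ ^ 2 = R ^ 2 := mul_right_cancel₀ hN (hz.trans e1.symm)
    have h6 : ‖z‖ = R := (pow_left_inj₀ hn.le hRpos.le two_ne_zero).1 h5
    rw [hP, ← h6]
    exact hzp
  · rintro ⟨θ, rfl⟩
    exact hval θ

end ell

/-- `ρ p ^ 3` is constant. -/
lemma rho_p3 (h : Sit γ ρ Y) (hr : ∀ θ, SigmaReflection γ Y θ)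
    (h3 : OuterLeafThreePeriodic γ Y) (hM : ∀ θ, sp γ θ * S γ Y 1 θ = 2 * A1 γ Y 0 / 3)
    (θ : ℝ) : ρ θ * sp γ θ ^ 3 = 4 * A1 γ Y 0 ^ 2 / 27 := by
  set a := A1 γ Y 0 with ha
  have hapos : 0 < a := h.A1_pos hr 0
  have hd : HasDerivAt (fun θ => sp γ θ * S γ Y 1 θ)
      (sq γ θ * S γ Y 1 θ + sp γ θ * Su γ ρ Y 1 θ) θ :=
    (h.supp.dp θ).mul (h.S_deriv_right one_pos le_rfl θ)
  have hz : ∀ θ, sq γ θ * S γ Y 1 θ + sp γ θ * Su γ ρ Y 1 θ = 0 := by
    intro θ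
    have hd : HasDerivAt (fun θ => sp γ θ * S γ Y 1 θ)
      (sq γ θ * S γ Y 1 θ + sp γ θ * Su γ ρ Y 1 θ) θ :=
      (h.supp.dp θ).mul (h.S_deriv_right one_pos le_rfl θ)
    have hf : (fun θ => sp γ θ * S γ Y 1 θ) = fun _ => 2 * a / 3 := funext hM
    rw [hf] at hd
    exact (hd.unique (hasDerivAt_const θ _))
  -- the three weights are equal
  have w1 := h.k5 hr h3 θ
  rw [hz, hM, hM, ← ha] at w1
  have w2 := h.k5 hr h3 (F γ Y 1 θ)
  rw [hz, hM, hM, ← ha, h.F_three hr h3, h.S_periodic,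
    show ρ (θ + 2 * π) = ρ θ from h.supp.rp θ] at w2
  have hg := h.ggg hr h3 θ
  have hg1 := h.gF_pos hr θ
  have hk := h.k3 hr h3 θ
  rw [← ha] at hk
  set l2 := ρ (F γ Y 1 θ) * gF γ ρ Y θ / S γ Y 1 (F γ Y 1 θ) with hl2
  set l3 := ρ (F γ Y 1 (F γ Y 1 θ)) * (gF γ ρ Y (F γ Y 1 θ) * gF γ ρ Y θ) /
        S γ Y 1 (F γ Y 1 (F γ Y 1 θ)) with hl3
  have hs := (h.S_spec one_pos le_rfl θ).1
  have e1 : l2 = l3 := by
    have : (l2 - l3) * (a / 3) = 0 := by linarith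
    have := (mul_eq_zero.1 this).resolve_right (by positivity)
    linarith
  have e2 : l3 = ρ θ / S γ Y 1 θ := by
    have h4 : (ρ (F γ Y 1 (F γ Y 1 θ)) * gF γ ρ Y (F γ Y 1 θ) / S γ Y 1 (F γ Y 1 (F γ Y 1 θ)) -
        ρ θ * (gF γ ρ Y (F γ Y 1 (F γ Y 1 θ)) * gF γ ρ Y (F γ Y 1 θ)) / S γ Y 1 θ) *
        (a / 3) = 0 := by linarith
    have h5 := (mul_eq_zero.1 h4).resolve_right (by positivity)
    have h6 : l3 = gF γ ρ Y θ * (ρ (F γ Y 1 (F γ Y 1 θ)) * gF γ ρ Y (F γ Y 1 θ) /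
        S γ Y 1 (F γ Y 1 (F γ Y 1 θ))) := by rw [hl3]; ring
    have h7 : ρ θ / S γ Y 1 θ = gF γ ρ Y θ *
        (ρ θ * (gF γ ρ Y (F γ Y 1 (F γ Y 1 θ)) * gF γ ρ Y (F γ Y 1 θ)) / S γ Y 1 θ) := by
      have : gF γ ρ Y θ *
        (ρ θ * (gF γ ρ Y (F γ Y 1 (F γ Y 1 θ)) * gF γ ρ Y (F γ Y 1 θ)) / S γ Y 1 θ) =
        ρ θ / S γ Y 1 θ * (gF γ ρ Y (F γ Y 1 (F γ Y 1 θ)) *
          (gF γ ρ Y (F γ Y 1 θ) * gF γ ρ Y θ)) := by ring
      rw [this, hg, mul_one]
    rw [h6, h7]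
    linear_combination gF γ ρ Y θ * h5
  rw [e1, e2] at hk
  have hk2 : S γ Y 1 θ ^ 3 = 2 * a * ρ θ := by
    field_simp at hk
    linarith
  have hp := h.supp.ppos θ
  have hm := hM θ
  have h8 : (sp γ θ * S γ Y 1 θ) ^ 3 = (2 * a / 3) ^ 3 := by rw [hm]
  have h9 : 2 * a * (ρ θ * sp γ θ ^ 3) = 2 * a * (4 * a ^ 2 / 27) := by
    rw [mul_pow, hk2] at h8
    linarith
  exact mul_left_cancel₀ (by positivity) h9

end Sit

/-- The theorem when the origin satisfies the Blaschke-Santaló inequality. -/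
theorem three_origin (hA : S_assemble) (hγ : IsOval γ ρ) (hin : ∀ θ, 0 < sp γ θ)
    (hBS : (∫ θ in (0 : ℝ)..(2 * π), ρ θ * sp γ θ) *
      (∫ θ in (0 : ℝ)..(2 * π), 1 / sp γ θ ^ 2) ≤ 4 * π ^ 2)
    (hY : IsCollar γ Y) (hr : ∀ θ, SigmaReflection γ Y θ) (h3 : OuterLeafThreePeriodic γ Y) :
    ∃ a b d : ℝ, 0 < a ∧ b ^ 2 < a * d ∧
      (∀ z : ℂ, z ∈ range γ ↔ a * z.re ^ 2 + 2 * b * z.re * z.im + d * z.im ^ 2 = 1) ∧
      ∀ c, 0 ≤ c → c ≤ 1 → ∃ l : ℝ, 1 ≤ l ∧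
        ∀ z : ℂ, Y z = c ↔ a * z.re ^ 2 + 2 * b * z.re * z.im + d * z.im ^ 2 = l := by
  have h : Sit γ ρ Y := ⟨hγ, hin, hY, second⟩
  obtain ⟨hineq, heq⟩ := h.main_ineq hr hopf mono
  obtain ⟨hle, hell⟩ := h.outer_ineq hr h3 hA hBS
  have hM := hell hineq
  have hb := heq hle
  obtain ⟨A, B, C, hp2⟩ := ermakov h.supp (h.rho_p3 hr h3 hM)
  obtain ⟨hA', hC, hD⟩ := h.disc_pos hp2
  set τ : ℝ := 2 * Sit.A1 γ Y 0 / 3 with hτdef
  have hτ : 0 < τ := by have := h.A1_pos hr 0; positivity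
  have hS : ∀ θ, S γ Y 1 θ = τ / sp γ θ := by
    intro θ
    rw [eq_div_iff (h.supp.ppos θ).ne', mul_comm]
    exact hM θ
  -- the leaves
  have hleaf : ∀ c, 0 < c → c ≤ 1 → ∃ t : ℝ, 0 ≤ t ∧ ∀ θ, S γ Y c θ = t / sp γ θ := by
    intro c h0 h1
    rcases eq_or_lt_of_le h1 with hc1 | hc1
    · rw [hc1]; exact ⟨τ, hτ.le, hS⟩
    · have hd : ∀ θ, HasDerivAt (fun θ => sp γ θ * S γ Y c θ) 0 θ := by
        intro θ
        have e := h.S_deriv_right h0 h1 θ
        refine ((h.supp.dp θ).mul e).congr_deriv ?_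
        change sq γ θ * S γ Y c θ + sp γ θ * Sit.Su γ ρ Y c θ = 0
        have := hb c ⟨h0, hc1⟩ θ
        linarith
      have hconst : ∀ x y, sp γ x * S γ Y c x = sp γ y * S γ Y c y := by
        intro x y
        exact is_const_of_deriv_eq_zero (f := fun θ => sp γ θ * S γ Y c θ)
          (fun θ => (hd θ).differentiableAt) (fun θ => (hd θ).deriv) x y
      refine ⟨sp γ 0 * S γ Y c 0, (mul_pos (h.supp.ppos 0) (h.S_spec h0 h1 0).1).le,
        fun θ => ?_⟩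
      rw [eq_div_iff (h.supp.ppos θ).ne', mul_comm]
      exact hconst θ 0
  refine ⟨C / (A * C - B ^ 2 / 4), -B / (2 * (A * C - B ^ 2 / 4)), A / (A * C - B ^ 2 / 4),
    by positivity, ?_, ?_, ?_⟩
  · rw [div_pow, div_mul_div_comm, div_lt_div_iff₀ (by positivity) (by positivity)]
    have h5 : 0 < (A * C - B ^ 2 / 4) ^ 3 := by positivity
    nlinarith
  · intro z
    have h5 := h.conic_iff hp2 le_rfl z
    unfold Sit.Nq at h5
    simp only [zero_div, ne_eq, OfNat.ofNat_ne_zero, not_false_eq_true, zero_pow, add_zero,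
      P_zero] at h5
    rw [h5]
    constructor
    · rintro ⟨θ, rfl⟩; exact ⟨θ, rfl⟩
    · rintro ⟨θ, rfl⟩; exact ⟨θ, rfl⟩
  · intro c h0 h1
    rcases eq_or_lt_of_le h0 with hc0 | hc0
    · refine ⟨1, le_rfl, fun z => ?_⟩
      rw [← hc0, h.collar.leaf_zero]
      have h5 := h.conic_iff hp2 le_rfl z
      unfold Sit.Nq at h5
      simp only [zero_div, ne_eq, OfNat.ofNat_ne_zero, not_false_eq_true, zero_pow, add_zero,
        P_zero] at h5
      rw [h5]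
      constructor
      · rintro ⟨θ, rfl⟩; exact ⟨θ, rfl⟩
      · rintro ⟨θ, rfl⟩; exact ⟨θ, rfl⟩
    · obtain ⟨t, ht, hSt⟩ := hleaf c hc0 h1
      refine ⟨1 + t ^ 2 / (A * C - B ^ 2 / 4), by
        have : 0 ≤ t ^ 2 / (A * C - B ^ 2 / 4) := by positivity
        linarith, fun z => ?_⟩
      rw [h.leaf_iff hc0 h1]
      have h5 := h.conic_iff hp2 ht z
      unfold Sit.Nq at h5
      rw [h5]
      simp only [hSt]


/-- **Rigidity of outer billiards, 3-periodic version.** -/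
theorem three_rigidity (hA : S_assemble) (hBS : S_bs) (hγ : IsOval γ ρ) (hY : IsCollar γ Y)
    (hr : ∀ θ, SigmaReflection γ Y θ) (h3 : OuterLeafThreePeriodic γ Y) :
    ∃ (O : ℂ) (a b d : ℝ), 0 < a ∧ b ^ 2 < a * d ∧
      (∀ z : ℂ, z ∈ range γ ↔ a * (z - O).re ^ 2 + 2 * b * (z - O).re * (z - O).im +
        d * (z - O).im ^ 2 = 1) ∧
      ∀ c, 0 ≤ c → c ≤ 1 → ∃ l : ℝ, 1 ≤ l ∧
        ∀ z : ℂ, Y z = c ↔ a * (z - O).re ^ 2 + 2 * b * (z - O).re * (z - O).im +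
          d * (z - O).im ^ 2 = l := by
  obtain ⟨O, hO, hprod⟩ := hBS γ ρ hγ.cont hγ.pos (fun θ => hγ.deriv θ) hγ.per
  refine ⟨O, ?_⟩
  have hγ' : IsOval (fun θ => γ θ - O) ρ :=
    ⟨hγ.cont, hγ.pos, fun θ => (hγ.deriv θ).sub_const O, fun θ => by rw [hγ.per]⟩
  have hmem : ∀ z, (z + O ∈ range γ ↔ z ∈ range fun θ => γ θ - O) := by
    intro z
    constructor
    · rintro ⟨θ, hθ⟩; exact ⟨θ, by simp only [hθ]; ring⟩
    · rintro ⟨θ, hθ⟩; exact ⟨θ, by rw [← hθ]; ring⟩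
  have hin : ∀ z, (z + O ∈ inside γ ↔ z ∈ inside fun θ => γ θ - O) := by
    intro z
    have : ∀ θ, z + O - γ θ = z - (γ θ - O) := fun θ => by ring
    simp only [inside, mem_setOf_eq, this]
  have hpre : ∀ c, {z | Y (z + O) ≤ c} = (fun z => -O + z) '' {z | Y z ≤ c} := by
    intro c
    ext z
    simp only [mem_setOf_eq, mem_image]
    constructor
    · intro hz; exact ⟨z + O, hz, by ring⟩
    · rintro ⟨w, hw, rfl⟩
      rwa [show -O + w + O = w by ring]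
  have hY' : IsCollar (fun θ => γ θ - O) (fun z => Y (z + O)) := by
    refine ⟨?_, ?_, ?_, ?_, ?_, ?_⟩
    · obtain ⟨U, hU, hsub, hd⟩ := hY.smooth
      refine ⟨(fun z => z + O) ⁻¹' U, hU.preimage (by fun_prop), fun z hz => hsub hz, ?_⟩
      exact hd.comp (by fun_prop) fun z hz => hz
    · intro z h0 h1
      have := hY.regular (z + O) h0 h1
      rwa [← fderiv_comp_add_right] at this
    · intro c h0 h1
      rw [hpre]
      exact (hY.compact c h0 h1).image (by fun_prop)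
    · intro c h0 h1
      rw [hpre]
      exact (hY.convex c h0 h1).translate (-O)
    · intro z; rw [← hmem]; exact hY.leaf_zero _
    · intro z; rw [← hin]; exact hY.inner _
  have hr' : ∀ θ, SigmaReflection (fun θ => γ θ - O) (fun z => Y (z + O)) θ := by
    intro θ t ht
    have e1 : γ θ - O + t * tang θ + O = γ θ + t * tang θ := by ring
    have e2 : γ θ - O - t * tang θ + O = γ θ - t * tang θ := by ring
    simp only [e1] at ht
    simp only [e1, e2]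
    exact hr θ t ht
  have hN : ∀ z w, Next γ z w → Next (fun θ => γ θ - O) (z - O) (w - O) := by
    rintro z w ⟨θ, s, t, hs, ht, e1, e2⟩
    exact ⟨θ, s, t, hs, ht, by rw [e1]; ring, by rw [e2]; ring⟩
  have h3' : OuterLeafThreePeriodic (fun θ => γ θ - O) (fun z => Y (z + O)) := by
    intro z₁ hz
    obtain ⟨z₂, z₃, y2, y3, n1, n2, n3⟩ := h3 (z₁ + O) hz
    have m1 := hN _ _ n1
    have m2 := hN _ _ n2
    have m3 := hN _ _ n3
    rw [show z₁ + O - O = z₁ by ring] at m1 m3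
    exact ⟨z₂ - O, z₃ - O, by simpa using y2, by simpa using y3, m1, m2, m3⟩
  obtain ⟨a, b, d, ha, hbd, hg, hl⟩ := three_origin hA hγ' hO hprod hY' hr' h3'
  refine ⟨a, b, d, ha, hbd, ?_, ?_⟩
  · intro z
    rw [← hg, ← hmem, sub_add_cancel]
  · intro c h0 h1
    obtain ⟨l, hl1, hl2⟩ := hl c h0 h1
    refine ⟨l, hl1, fun z => ?_⟩
    rw [← hl2, sub_add_cancel]

end Pool.Agent.H97.OC
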