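import Pool.Agent.H97.OC.Stubs

/-! OC6: evaluation of the boundary term. -/

set_option autoImplicit false

open Set MeasureTheory Filter Topology
open scoped Real

namespace Pool.Agent.H97.OC

/-- integral over a period, as a linear map on continuous functions -/
noncomputable def J : C(ℝ, ℝ) →ₗ[ℝ] ℝ where
  toFun h := ∫ t in (0 : ℝ)..(2 * π), h t
  map_add' h k := intervalIntegral.integral_add (h.continuous.intervalIntegrable _ _)
    (k.continuous.intervalIntegrable _ _)
  map_smul' c h := by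
    simp only [ContinuousMap.coe_smul, Pi.smul_apply, smul_eq_mul, RingHom.id_apply]
    exact intervalIntegral.integral_const_mul _ _

theorem J_apply (h : C(ℝ, ℝ)) : J h = ∫ t in (0 : ℝ)..(2 * π), h t := rfl

/-- periodic `C¹` function with its derivative -/
structure PC (h h' : C(ℝ, ℝ)) : Prop where
  d : ∀ t, HasDerivAt h (h' t) t
  p : ∀ t, h (t + 2 * π) = h t

theorem PC.per' {h h' : C(ℝ, ℝ)} (H : PC h h') (t : ℝ) : h' (t + 2 * π) = h' t := by
  have h1 : HasDerivAt (fun t => h (t + 2 * π)) (h' (t + 2 * π)) t :=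
    (H.d (t + 2 * π)).comp_add_const t (2 * π)
  have h2 : (fun t => h (t + 2 * π)) = h := funext H.p
  rw [h2] at h1
  exact h1.unique (H.d t)

theorem PC.uniq {h h' k' : C(ℝ, ℝ)} (H : PC h h') (K : PC h k') : h' = k' := by
  ext t
  exact (H.d t).unique (K.d t)

theorem PC.add {h h' k k' : C(ℝ, ℝ)} (H : PC h h') (K : PC k k') : PC (h + k) (h' + k') :=
  ⟨fun t => (H.d t).add (K.d t), fun t => by
    simp only [ContinuousMap.add_apply, H.p t, K.p t]⟩

theorem PC.sub {h h' k k' : C(ℝ, ℝ)} (H : PC h h') (K : PC k k') : PC (h - k) (h' - k') :=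
  ⟨fun t => (H.d t).sub (K.d t), fun t => by
    simp only [ContinuousMap.sub_apply, H.p t, K.p t]⟩

theorem PC.mul {h h' k k' : C(ℝ, ℝ)} (H : PC h h') (K : PC k k') :
    PC (h * k) (h' * k + h * k') :=
  ⟨fun t => (H.d t).mul (K.d t), fun t => by
    simp only [ContinuousMap.mul_apply, H.p t, K.p t]⟩

theorem PC.const (c : ℝ) : PC (c • (1 : C(ℝ, ℝ))) 0 :=
  ⟨fun t => by
    have : (⇑(c • (1 : C(ℝ, ℝ)))) = fun _ => c := by
      funext t
      simp
    rw [this]
    exact hasDerivAt_const t c, fun t => by simp⟩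

theorem PC.J_zero {h h' : C(ℝ, ℝ)} (H : PC h h') : J h' = 0 := by
  rw [J_apply, intervalIntegral.integral_eq_sub_of_hasDerivAt (fun t _ => H.d t)
    (h'.continuous.intervalIntegrable _ _)]
  have := H.p 0
  rw [zero_add] at this
  rw [this, sub_self]

theorem PC.ibp {h h' k k' : C(ℝ, ℝ)} (H : PC h h') (K : PC k k') : J (h * k') = -J (k * h') := by
  have := (H.mul K).J_zero
  rw [map_add, mul_comm h' k] at this
  linarith

theorem PC.self {h h' : C(ℝ, ℝ)} (H : PC h h') : J (h * h') = 0 := by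
  have := H.ibp H
  linarith

theorem J_shift {F g : C(ℝ, ℝ)} (hF : ∀ t, HasDerivAt F (g t) t)
    (hFp : ∀ t, F (t + 2 * π) = F t + 2 * π) {k : C(ℝ, ℝ)} (hk : ∀ t, k (t + 2 * π) = k t) :
    J (k.comp F * g) = J k := by
  rw [J_apply, J_apply]
  have h1 : (∫ t in (0 : ℝ)..(2 * π), (k.comp F * g) t) = ∫ t in (F 0)..(F (2 * π)), k t := by
    rw [← intervalIntegral.integral_comp_mul_deriv (f := F) (f' := g) (g := k)
      (fun t _ => hF t) g.continuous.continuousOn k.continuous]
    rfl
  have h2 : F (2 * π) = F 0 + 2 * π := by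
    have := hFp 0
    rwa [zero_add] at this
  have hper : Function.Periodic (fun t => k t) (2 * π) := hk
  rw [h1, h2, hper.intervalIntegral_add_eq (F 0) 0, zero_add]

theorem PC.comp {F g : C(ℝ, ℝ)} (hF : ∀ t, HasDerivAt F (g t) t)
    (hFp : ∀ t, F (t + 2 * π) = F t + 2 * π) {h h' : C(ℝ, ℝ)} (H : PC h h') :
    PC (h.comp F) (h'.comp F * g) :=
  ⟨fun t => (H.d (F t)).comp t (hF t), fun t => by
    simp only [ContinuousMap.comp_apply, hFp t, H.p (F t)]⟩

theorem J_shift2 {F g : C(ℝ, ℝ)} (hF : ∀ t, HasDerivAt F (g t) t)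
    (hFp : ∀ t, F (t + 2 * π) = F t + 2 * π) {h h' k k' : C(ℝ, ℝ)} (H : PC h h') (K : PC k k') :
    J (h.comp F * (k'.comp F * g)) = J (h * k') := by
  rw [← J_shift hF hFp (k := h * k') (fun t => by
    simp only [ContinuousMap.mul_apply, H.p t, K.per' t])]
  congr 1
  ext t
  simp only [ContinuousMap.mul_apply, ContinuousMap.comp_apply]
  ring

/-- the algebraic part of OC6 -/
theorem J_main {F g : C(ℝ, ℝ)} (hF : ∀ t, HasDerivAt F (g t) t)
    (hFp : ∀ t, F (t + 2 * π) = F t + 2 * π) (hF3 : ∀ t, F (F (F t)) = t + 2 * π)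
    {a α S σ : C(ℝ, ℝ)} (A : PC a α) (B : PC S σ) (c : ℝ) :
    J ((a.comp F - a) * (α + α.comp F * g + σ)) - J ((a.comp F - a) * α) +
      J ((a + a.comp F + S - c • (1 : C(ℝ, ℝ))) *
        ((α + α.comp F * g + σ).comp F * g)) = J (S * (σ.comp F * g)) := by
  have A1 := A.comp hF hFp
  have A2 := A1.comp hF hFp
  have A3 := A2.comp hF hFp
  have B1 := B.comp hF hFp
  set a1 := a.comp F with ha1
  set α1 := α.comp F * g with hα1
  set a2 := a1.comp F with ha2
  set α2 := α1.comp F * g with hα2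
  set S1 := S.comp F with hS1
  set σ1 := σ.comp F * g with hσ1
  have ha3 : a2.comp F = a := by
    ext t
    simp only [ha2, ha1, ContinuousMap.comp_apply, hF3, A.p]
  have hα3 : α2.comp F * g = α := by
    rw [ha3] at A3
    exact A3.uniq A
  have hl : (α + α1 + σ).comp F * g = α1 + α2 + σ1 := by
    ext t
    simp only [hα1, hα2, hσ1, ContinuousMap.add_apply, ContinuousMap.mul_apply,
      ContinuousMap.comp_apply]
    ring
  have L1 : PC (a1 + a2 + S1) (α1 + α2 + σ1) := (A1.add A2).add B1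
  have e0 := L1.J_zero
  have e : (a + a1 + S - c • (1 : C(ℝ, ℝ))) * (α1 + α2 + σ1) =
      a * α1 + a * α2 + a * σ1 + a1 * α1 + a1 * α2 + a1 * σ1 + S * α1 + S * α2 + S * σ1 -
        c • (α1 + α2 + σ1) := by
    ext t
    simp only [ContinuousMap.add_apply, ContinuousMap.mul_apply, ContinuousMap.sub_apply,
      ContinuousMap.smul_apply, ContinuousMap.one_apply, smul_eq_mul]
    ring
  have e' : (a1 - a) * (α + α1 + σ) = (a1 - a) * α + a1 * α1 - a * α1 + a1 * σ - a * σ := by
    ring
  have i1 : J (a * α2) = J (a1 * α) := by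
    rw [← J_shift2 hF hFp A A2, hα3]
  have i2 : J (a1 * α2) = J (a * α1) := J_shift2 hF hFp A A1
  have i3 : J (a1 * α) = -J (a * α1) := A1.ibp A
  have i4 : J (a1 * α1) = 0 := A1.self
  have i5 : J (a1 * σ1) = J (a * σ) := J_shift2 hF hFp A B
  have i6 : J (S * α1) = -J (a1 * σ) := B.ibp A1
  have i7 : J (S * α2) = -J (a * σ1) := by
    rw [← J_shift2 hF hFp B A2, hα3]
    exact B1.ibp A
  rw [hl, e, e']
  simp only [map_add, map_sub, map_smul, smul_eq_mul] at e0 ⊢
  rw [e0, i1, i2, i3, i4, i5, i6, i7]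
  ring

/-- the three shifts of the angle form -/
theorem J_tri {F g : C(ℝ, ℝ)} (hF : ∀ t, HasDerivAt F (g t) t)
    (hFp : ∀ t, F (t + 2 * π) = F t + 2 * π) (hF3 : ∀ t, F (F (F t)) = t + 2 * π)
    {x x' ψ β : C(ℝ, ℝ)} (X : PC x x') (Y : PC ψ β)
    (hrel : ∀ t, x t = F t + ψ (F t) - t - ψ t) :
    (∀ t, x t + x (F t) + x (F (F t)) = 2 * π) ∧
    (∀ t, x' t + x' (F t) * g t + x' (F (F t)) * g (F t) * g t = 0) ∧
    3 * J (x * (1 + β)) = 4 * π ^ 2 + J (x.comp F * x') := by
  have hsum : ∀ t, x t + x (F t) + x (F (F t)) = 2 * π := by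
    intro t
    rw [hrel t, hrel (F t), hrel (F (F t)), hF3 t, Y.p t]
    ring
  refine ⟨hsum, ?_⟩
  have X1 := X.comp hF hFp
  have X2 := X1.comp hF hFp
  set y := x.comp F with hy
  set y' := x'.comp F * g with hy'
  set w := y.comp F with hw
  set w' := y'.comp F * g with hw'
  have hder : g + β.comp F * g = 1 + β + x' := by
    ext t
    have h1 : HasDerivAt (fun t => F t + ψ (F t)) (g t + β (F t) * g t) t :=
      (hF t).add ((Y.d (F t)).comp t (hF t))
    have h2 : HasDerivAt (fun t => t + ψ t + x t) (1 + β t + x' t) t :=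
      ((hasDerivAt_id t).add (Y.d t)).add (X.d t)
    have h3 : (fun t => F t + ψ (F t)) = fun t => t + ψ t + x t := by
      funext t
      rw [hrel t]
      ring
    rw [h3] at h1
    exact h1.unique h2
  have hder1 : ∀ t, g t + β (F t) * g t = 1 + β t + x' t := fun t => by
    have := congrArg (fun h : C(ℝ, ℝ) => h t) hder
    exact this
  have hw1 : x + y + w = (2 * π) • (1 : C(ℝ, ℝ)) := by
    ext t
    simp only [ContinuousMap.add_apply, ContinuousMap.smul_apply, ContinuousMap.one_apply,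
      smul_eq_mul, hy, hw, ContinuousMap.comp_apply, hsum t, mul_one]
  have hw2 : x' + y' + w' = 0 := by
    have h1 := (X.add X1).add X2
    rw [hw1] at h1
    exact h1.uniq (PC.const _)
  refine ⟨fun t => by
    have := congrArg (fun h : C(ℝ, ℝ) => h t) hw2
    exact this, ?_⟩
  have per : ∀ t, (x * (1 + β)) (t + 2 * π) = (x * (1 + β)) t := fun t => by
    simp only [ContinuousMap.mul_apply, ContinuousMap.add_apply, ContinuousMap.one_apply,
      X.p t, Y.per' t]
  have per1 : ∀ t, (y * (1 + β + x')) (t + 2 * π) = (y * (1 + β + x')) t := fun t => by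
    simp only [ContinuousMap.mul_apply, ContinuousMap.add_apply, ContinuousMap.one_apply,
      X1.p t, X.per' t, Y.per' t]
  have s1 : J (y * (1 + β + x')) = J (x * (1 + β)) := by
    rw [← J_shift hF hFp per]
    congr 1
    ext t
    simp only [ContinuousMap.mul_apply, ContinuousMap.add_apply, ContinuousMap.one_apply,
      ContinuousMap.comp_apply, hy]
    linear_combination -(x (F t)) * hder1 t
  have s2 : J (w * (1 + β + x' + y')) = J (y * (1 + β + x')) := by
    rw [← J_shift hF hFp per1]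
    congr 1
    ext t
    simp only [ContinuousMap.mul_apply, ContinuousMap.add_apply, ContinuousMap.one_apply,
      ContinuousMap.comp_apply, hy, hw, hy']
    linear_combination -(x (F (F t))) * hder1 t
  have e : x * (1 + β) + y * (1 + β + x') + w * (1 + β + x' + y') =
      (2 * π) • (1 + β) + y * x' - w * w' := by
    have : (2 * π) • (1 + β) = (x + y + w) * (1 + β) := by
      rw [hw1, smul_mul_assoc, one_mul]
    rw [this]
    linear_combination w * hw2
  have J1 : J (1 : C(ℝ, ℝ)) = 2 * π := by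
    rw [J_apply]
    simp
  have e2 := congrArg J e
  simp only [map_add, map_sub, map_smul, smul_eq_mul] at e2
  rw [s2, s1, J1, Y.J_zero, X2.self] at e2
  linarith

/-- the three shifts of the logarithmic form -/
theorem J_tri2 {F g : C(ℝ, ℝ)} (hF : ∀ t, HasDerivAt F (g t) t)
    (hFp : ∀ t, F (t + 2 * π) = F t + 2 * π) (hF3 : ∀ t, F (F (F t)) = t + 2 * π)
    {S σ : C(ℝ, ℝ)} (B : PC S σ) :
    3 * J (S * (σ.comp F * g)) = J (S * (σ.comp F * g) +
      S.comp F * ((σ.comp F * g).comp F * g) + (S.comp F).comp F * σ) := by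
  have B1 := B.comp hF hFp
  have B2 := B1.comp hF hFp
  have B3 := B2.comp hF hFp
  set S1 := S.comp F with hS1
  set σ1 := σ.comp F * g with hσ1
  set S2 := S1.comp F with hS2
  set σ2 := σ1.comp F * g with hσ2
  have hS3 : S2.comp F = S := by
    ext t
    simp only [hS1, hS2, ContinuousMap.comp_apply, hF3, B.p]
  have hσ3 : σ2.comp F * g = σ := by
    rw [hS3] at B3
    exact B3.uniq B
  have i1 : J (S1 * σ2) = J (S * σ1) := J_shift2 hF hFp B B1
  have i2 : J (S2 * σ) = J (S * σ1) := by
    rw [← i1, ← J_shift2 hF hFp B1 B2, hσ3]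
  simp only [map_add]
  rw [i1, i2]
  ring

/-- `log |p + i v|` -/
noncomputable def lg (P V : C(ℝ, ℝ)) (hP : ∀ t, 0 < P t) : C(ℝ, ℝ) :=
  ⟨fun t => Real.log (P t ^ 2 + V t ^ 2) / 2, by
    refine Continuous.div_const (Continuous.log (by fun_prop) fun t => ?_) 2
    have := hP t
    positivity⟩

/-- derivative of `lg` -/
noncomputable def lg' (P V P' V' : C(ℝ, ℝ)) (hP : ∀ t, 0 < P t) : C(ℝ, ℝ) :=
  ⟨fun t => (P t * P' t + V t * V' t) / (P t ^ 2 + V t ^ 2), by
    refine Continuous.div (by fun_prop) (by fun_prop) fun t => ?_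
    have := hP t
    positivity⟩

/-- `arg (p + i v)` -/
noncomputable def an (P V : C(ℝ, ℝ)) (hP : ∀ t, 0 < P t) : C(ℝ, ℝ) :=
  ⟨fun t => Real.arctan (V t / P t), by
    refine Real.continuous_arctan.comp (Continuous.div (by fun_prop) (by fun_prop) fun t => ?_)
    exact (hP t).ne'⟩

/-- derivative of `an` -/
noncomputable def an' (P V P' V' : C(ℝ, ℝ)) (hP : ∀ t, 0 < P t) : C(ℝ, ℝ) :=
  ⟨fun t => (V' t * P t - V t * P' t) / (P t ^ 2 + V t ^ 2), by
    refine Continuous.div (by fun_prop) (by fun_prop) fun t => ?_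
    have := hP t
    positivity⟩

theorem PC_lg {P V P' V' : C(ℝ, ℝ)} (hP : ∀ t, 0 < P t) (A : PC P P') (B : PC V V') :
    PC (lg P V hP) (lg' P V P' V' hP) := by
  refine ⟨fun t => ?_, fun t => ?_⟩
  · have hp := hP t
    have h0 : P t ^ 2 + V t ^ 2 ≠ 0 := by positivity
    have h := (((A.d t).pow 2).add ((B.d t).pow 2)).log h0
    have h1 := h.div_const 2
    refine h1.congr_deriv ?_
    simp only [lg', ContinuousMap.coe_mk, Pi.add_apply, Pi.pow_apply]
    push_cast
    field_simp
    try ring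
  · simp only [lg, ContinuousMap.coe_mk, A.p t, B.p t]

theorem PC_an {P V P' V' : C(ℝ, ℝ)} (hP : ∀ t, 0 < P t) (A : PC P P') (B : PC V V') :
    PC (an P V hP) (an' P V P' V' hP) := by
  refine ⟨fun t => ?_, fun t => ?_⟩
  · have hp := hP t
    have h := ((B.d t).div (A.d t) hp.ne').arctan
    refine h.congr_deriv ?_
    simp only [an', ContinuousMap.coe_mk, Pi.div_apply]
    field_simp
  · simp only [an, ContinuousMap.coe_mk, A.p t, B.p t]

theorem cos_arctan_div {p v : ℝ} (hp : 0 < p) :
    Real.cos (Real.arctan (v / p)) = p / √(p ^ 2 + v ^ 2) := by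
  rw [Real.cos_arctan]
  have h : √(1 + (v / p) ^ 2) = √(p ^ 2 + v ^ 2) / p := by
    rw [eq_div_iff hp.ne']
    nth_rewrite 2 [← Real.sqrt_sq hp.le]
    rw [← Real.sqrt_mul (by positivity)]
    congr 1
    field_simp
  rw [h]
  field_simp

theorem sin_arctan_div {p v : ℝ} (hp : 0 < p) :
    Real.sin (Real.arctan (v / p)) = v / √(p ^ 2 + v ^ 2) := by
  rw [Real.sin_arctan]
  have h : √(1 + (v / p) ^ 2) = √(p ^ 2 + v ^ 2) / p := by
    rw [eq_div_iff hp.ne']
    nth_rewrite 2 [← Real.sqrt_sq hp.le]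
    rw [← Real.sqrt_mul (by positivity)]
    congr 1
    field_simp
  rw [h]
  field_simp

theorem g_of (hE1 : S_E1) (hE2 : S_E2) : S_G := by
  intro p q ρ s u f g H hu hg hs hf hs0 hsp hfp hf3 hA hB
  have cp : Continuous p := continuous_iff_continuousAt.2 fun t => (H.dp t).continuousAt
  have cq : Continuous q := continuous_iff_continuousAt.2 fun t => (H.dq t).continuousAt
  have cs : Continuous s := continuous_iff_continuousAt.2 fun t => (hs t).continuousAt
  have cf : Continuous f := continuous_iff_continuousAt.2 fun t => (hf t).continuousAt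
  have cr := H.cont
  let F : C(ℝ, ℝ) := ⟨f, cf⟩
  let G : C(ℝ, ℝ) := ⟨g, hg⟩
  have hF : ∀ t, HasDerivAt F (G t) t := hf
  have hFp : ∀ t, F (t + 2 * π) = F t + 2 * π := hfp
  have hF3 : ∀ t, F (F (F t)) = t + 2 * π := hf3
  let P : C(ℝ, ℝ) := ⟨p, cp⟩
  let P' : C(ℝ, ℝ) := ⟨q, cq⟩
  let V : C(ℝ, ℝ) := ⟨fun t => q t - s t, cq.sub cs⟩
  let V' : C(ℝ, ℝ) := ⟨fun t => ρ t - p t - u t, (cr.sub cp).sub hu⟩
  let W : C(ℝ, ℝ) := ⟨fun t => q t + s t, cq.add cs⟩
  let W' : C(ℝ, ℝ) := ⟨fun t => ρ t - p t + u t, (cr.sub cp).add hu⟩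
  have hP : ∀ t, 0 < P t := H.ppos
  have PP : PC P P' := ⟨H.dp, H.pp⟩
  have PV : PC V V' := ⟨fun t => (H.dq t).sub (hs t), fun t => by
    simp only [V, ContinuousMap.coe_mk, H.qp t, hsp t]⟩
  have PW : PC W W' := ⟨fun t => (H.dq t).add (hs t), fun t => by
    simp only [W, ContinuousMap.coe_mk, H.qp t, hsp t]⟩
  have A := PC_lg hP PP PV
  have Ap := PC_lg hP PP PW
  have Y := PC_an hP PP PV
  have Yp := PC_an hP PP PW
  set a := lg P V hP with ha
  set α := lg' P V P' V' hP with hα
  set b := lg P W hP with hb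
  set β := lg' P W P' W' hP with hβ
  set ψ := an P V hP with hψ
  set δ := an' P V P' V' hP with hδ
  set χ := an P W hP with hχ
  set ε := an' P W P' W' hP with hε
  have hab : a.comp F = b := by
    ext t
    have := hB t
    simp only [ha, hb, lg, ContinuousMap.comp_apply, ContinuousMap.coe_mk, P, V, W, F, this]
  have hαβ : α.comp F * G = β := by
    have := A.comp hF hFp
    rw [hab] at this
    exact this.uniq Ap
  have X : PC (χ - ψ) (ε - δ) := Yp.sub Y
  set x := χ - ψ with hx
  set x' := ε - δ with hx'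
  have hrel : ∀ t, x t = F t + ψ (F t) - t - ψ t := by
    intro t
    have := hA t
    simp only [hx, ContinuousMap.sub_apply, hψ, hχ, an, ContinuousMap.coe_mk, P, V, W, F]
    linarith
  have hx0 : ∀ t, 0 < x t := by
    intro t
    have h1 : (q t - s t) / p t < (q t + s t) / p t := by
      have := H.ppos t
      have := hs0 t
      gcongr
      linarith
    have h2 := Real.arctan_strictMono h1
    simp only [hx, ContinuousMap.sub_apply, hψ, hχ, an, ContinuousMap.coe_mk, P, V, W]
    linarith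
  have hxpi : ∀ t, x t < π := by
    intro t
    have h1 := Real.arctan_lt_pi_div_two ((q t + s t) / p t)
    have h2 := Real.neg_pi_div_two_lt_arctan ((q t - s t) / p t)
    simp only [hx, ContinuousMap.sub_apply, hψ, hχ, an, ContinuousMap.coe_mk, P, V, W]
    linarith
  have hsin : ∀ t, 0 < Real.sin (x t) := fun t => Real.sin_pos_of_pos_of_lt_pi (hx0 t) (hxpi t)
  let S : C(ℝ, ℝ) := ⟨fun t => Real.log (Real.sin (x t)),
    (Real.continuous_sin.comp x.continuous).log fun t => (hsin t).ne'⟩
  let σ : C(ℝ, ℝ) := ⟨fun t => Real.cos (x t) / Real.sin (x t) * x' t,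
    ((Real.continuous_cos.comp x.continuous).div (Real.continuous_sin.comp x.continuous)
      fun t => (hsin t).ne').mul x'.continuous⟩
  have B : PC S σ := by
    refine ⟨fun t => ?_, fun t => ?_⟩
    · refine ((X.d t).sin.log (hsin t).ne').congr_deriv ?_
      simp only [σ, ContinuousMap.coe_mk]
      ring
    · simp only [S, ContinuousMap.coe_mk, X.p t]
  -- pointwise facts
  have hrm : ∀ t, 0 < p t ^ 2 + (q t - s t) ^ 2 := fun t => by
    have := H.ppos t
    positivity
  have hrp : ∀ t, 0 < p t ^ 2 + (q t + s t) ^ 2 := fun t => by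
    have := H.ppos t
    positivity
  have hsinx : ∀ t, Real.sin (x t) = 2 * (p t * s t) /
      (√(p t ^ 2 + (q t + s t) ^ 2) * √(p t ^ 2 + (q t - s t) ^ 2)) := by
    intro t
    have h1 := (Real.sqrt_pos.2 (hrp t)).ne'
    have h2 := (Real.sqrt_pos.2 (hrm t)).ne'
    simp only [hx, ContinuousMap.sub_apply, hψ, hχ, an, ContinuousMap.coe_mk, P, V, W]
    rw [Real.sin_sub, sin_arctan_div (H.ppos t), cos_arctan_div (H.ppos t),
      sin_arctan_div (H.ppos t), cos_arctan_div (H.ppos t)]
    field_simp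
    ring
  have hcosx : ∀ t, Real.cos (x t) = (p t ^ 2 + q t ^ 2 - s t ^ 2) /
      (√(p t ^ 2 + (q t + s t) ^ 2) * √(p t ^ 2 + (q t - s t) ^ 2)) := by
    intro t
    have h1 := (Real.sqrt_pos.2 (hrp t)).ne'
    have h2 := (Real.sqrt_pos.2 (hrm t)).ne'
    simp only [hx, ContinuousMap.sub_apply, hψ, hχ, an, ContinuousMap.coe_mk, P, V, W]
    rw [Real.cos_sub, sin_arctan_div (H.ppos t), cos_arctan_div (H.ppos t),
      sin_arctan_div (H.ppos t), cos_arctan_div (H.ppos t)]
    field_simp
    ring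
  let L : C(ℝ, ℝ) := a + a.comp F + S - Real.log 2 • (1 : C(ℝ, ℝ))
  let L' : C(ℝ, ℝ) := α + α.comp F * G + σ
  have PL : PC L L' := by
    have h := ((A.add (A.comp hF hFp)).add B).sub (PC.const (Real.log 2))
    rw [sub_zero] at h
    exact h
  have hL : ∀ t, L t = Real.log (p t * s t) := by
    intro t
    have h1 := (Real.sqrt_pos.2 (hrp t)).ne'
    have h2 := (Real.sqrt_pos.2 (hrm t)).ne'
    have h3 := (mul_pos (H.ppos t) (hs0 t)).ne'
    simp only [L, hab, ContinuousMap.add_apply, ContinuousMap.sub_apply, ContinuousMap.smul_apply,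
      ContinuousMap.one_apply, smul_eq_mul, S, ContinuousMap.coe_mk, hsinx t]
    rw [Real.log_div (mul_ne_zero two_ne_zero h3) (mul_ne_zero h1 h2), Real.log_mul two_ne_zero h3,
      Real.log_mul h1 h2, Real.log_sqrt (hrp t).le, Real.log_sqrt (hrm t).le]
    simp only [ha, hb, lg, ContinuousMap.coe_mk, P, V, W]
    ring
  have hL' : ∀ t, L' t = (q t * s t + p t * u t) / (p t * s t) := by
    intro t
    have h3 := (mul_pos (H.ppos t) (hs0 t)).ne'
    have h1 : HasDerivAt (fun t => Real.log (p t * s t))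
        ((q t * s t + p t * u t) / (p t * s t)) t := ((H.dp t).mul (hs t)).log h3
    have h2 : (fun t => Real.log (p t * s t)) = L := by
      funext t
      exact (hL t).symm
    rw [h2] at h1
    exact (PL.d t).unique h1
  -- the four evaluations
  have m1 := J_main hF hFp hF3 A B (Real.log 2)
  obtain ⟨hsum, hsum', m2⟩ := J_tri hF hFp hF3 X Y hrel
  have m3 := J_tri2 hF hFp hF3 B
  -- E1
  let K : C(ℝ, ℝ) := ⟨fun t => u t / s t, hu.div cs fun t => (hs0 t).ne'⟩
  have hexp : ∀ t, Real.exp ((a.comp F - a) t) = √(p t ^ 2 + (q t + s t) ^ 2) /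
      √(p t ^ 2 + (q t - s t) ^ 2) := by
    intro t
    rw [ContinuousMap.sub_apply, hab]
    simp only [ha, hb, lg, ContinuousMap.coe_mk, P, V, W]
    rw [Real.exp_sub, Real.exp_half, Real.exp_half, Real.exp_log (hrp t), Real.exp_log (hrm t)]
  have m4 : J ((a.comp F - a) * (K - α) + x * δ) = 0 := by
    have h := hE1 (fun t => (a.comp F - a) t) x (fun t => (β - α) t) x' (2 * π) (β - α).continuous x'.continuous
      (fun t => by
        have := (A.comp hF hFp).sub A
        rw [hαβ] at this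
        exact this.d t) X.d (fun t => ⟨hx0 t, hxpi t⟩)
      (by
        have := ((A.comp hF hFp).sub A).p 0
        rwa [zero_add] at this)
      (by
        have := X.p 0
        rwa [zero_add] at this)
    refine Eq.trans ?_ h
    rw [J_apply]
    refine intervalIntegral.integral_congr fun t _ => ?_
    have hs1 := (hs0 t).ne'
    have hp1 := (H.ppos t).ne'
    have r1 := Real.sqrt_pos.2 (hrp t)
    have r2 := Real.sqrt_pos.2 (hrm t)
    have r3 := (hrp t).ne'
    have r4 := (hrm t).ne'
    have c1 : Real.exp ((a.comp F - a) t) * Real.cos (x t) =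
        (p t ^ 2 + q t ^ 2 - s t ^ 2) / (p t ^ 2 + (q t - s t) ^ 2) := by
      rw [hexp t, hcosx t]
      have := Real.sq_sqrt (hrm t).le
      field_simp
      rw [this]
    have c2 : Real.exp ((a.comp F - a) t) * Real.sin (x t) =
        2 * (p t * s t) / (p t ^ 2 + (q t - s t) ^ 2) := by
      rw [hexp t, hsinx t]
      have := Real.sq_sqrt (hrm t).le
      field_simp
      rw [this]
    have c3 : Real.exp (2 * (a.comp F - a) t) =
        (p t ^ 2 + (q t + s t) ^ 2) / (p t ^ 2 + (q t - s t) ^ 2) := by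
      rw [two_mul, Real.exp_add, hexp t, div_mul_div_comm, Real.mul_self_sqrt (hrp t).le,
        Real.mul_self_sqrt (hrm t).le]
    have k1 : (q t + s t) * β t + p t * ε t = ρ t - p t + u t := by
      simp only [hβ, hε, lg', an', ContinuousMap.coe_mk, P, P', W, W']
      field_simp
      ring
    have k2 : (q t + s t) * ε t - p t * β t = -q t := by
      simp only [hβ, hε, lg', an', ContinuousMap.coe_mk, P, P', W, W']
      field_simp
      ring
    have k3 : (q t - s t) * α t + p t * δ t = ρ t - p t - u t := by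
      simp only [hα, hδ, lg', an', ContinuousMap.coe_mk, P, P', V, V']
      field_simp
      ring
    have k4 : (q t - s t) * δ t - p t * α t = -q t := by
      simp only [hα, hδ, lg', an', ContinuousMap.coe_mk, P, P', V, V']
      field_simp
      ring
    have hN : Real.exp (2 * (a.comp F - a) t) -
        2 * Real.exp ((a.comp F - a) t) * Real.cos (x t) + 1 =
        4 * s t ^ 2 / (p t ^ 2 + (q t - s t) ^ 2) := by
      rw [mul_assoc 2, c1, c3]
      field_simp
      ring
    have hM : Real.exp (2 * (a.comp F - a) t) -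
        Real.exp ((a.comp F - a) t) * Real.cos (x t) =
        2 * s t * (q t + s t) / (p t ^ 2 + (q t - s t) ^ 2) := by
      rw [c1, c3]
      field_simp
      ring
    rw [hN, hM, c2]
    simp only [ContinuousMap.add_apply, ContinuousMap.mul_apply, ContinuousMap.sub_apply, K,
      ContinuousMap.coe_mk, hx']
    field_simp
    linear_combination (-2 * ((a.comp F) t - a t)) * k1 + 2 * ((a.comp F) t - a t) * k3 +
      2 * x t * k2 - 2 * x t * k4
  -- E2
  have m5 : J (x.comp F * x' + (S * (σ.comp F * G) +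
      S.comp F * ((σ.comp F * G).comp F * G) + (S.comp F).comp F * σ)) = 0 := by
    have hw : ∀ t, 2 * π - x t - x (F t) = x (F (F t)) := fun t => by linarith [hsum t]
    have h := hE2 x (fun t => x (F t)) x' (fun t => x' (F t) * G t) (2 * π) x'.continuous
      (x'.comp F * G).continuous X.d (X.comp hF hFp).d (fun t => ⟨hx0 t, hxpi t⟩)
      (fun t => ⟨hx0 _, hxpi _⟩)
      (fun t => by
        rw [hw t]
        exact ⟨hx0 _, hxpi _⟩)
      (by
        have := X.p 0
        rwa [zero_add] at this)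
      (by
        have := (X.comp hF hFp).p 0
        rwa [zero_add] at this)
    refine Eq.trans ?_ h
    rw [J_apply]
    refine intervalIntegral.integral_congr fun t _ => ?_
    have h1 := hsum' t
    simp only [ContinuousMap.add_apply, ContinuousMap.mul_apply, ContinuousMap.comp_apply, S, σ,
      ContinuousMap.coe_mk, hw t]
    linear_combination Real.log (Real.sin (x (F t))) *
      (Real.cos (x (F (F t))) / Real.sin (x (F (F t)))) * h1
  have e1 : (∫ θ in (0 : ℝ)..(2 * π), (Real.arctan ((q θ + s θ) / p θ) -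
      Real.arctan ((q θ - s θ) / p θ) +
      q θ / (2 * p θ) * Real.log ((p θ ^ 2 + (q θ + s θ) ^ 2) / (p θ ^ 2 + (q θ - s θ) ^ 2)))) =
      J (x * (1 + δ) + ((a.comp F - a) * L' - (a.comp F - a) * α) -
        ((a.comp F - a) * (K - α) + x * δ)) := by
    rw [J_apply]
    refine intervalIntegral.integral_congr fun t _ => ?_
    have hs1 := (hs0 t).ne'
    have hp1 := (H.ppos t).ne'
    have x1 : x t = Real.arctan ((q t + s t) / p t) - Real.arctan ((q t - s t) / p t) := by
      simp only [hx, ContinuousMap.sub_apply, hψ, hχ, an, ContinuousMap.coe_mk, P, V, W]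
    have x2 : (a.comp F) t - a t = Real.log ((p t ^ 2 + (q t + s t) ^ 2) /
        (p t ^ 2 + (q t - s t) ^ 2)) / 2 := by
      rw [hab, Real.log_div (hrp t).ne' (hrm t).ne']
      simp only [ha, hb, lg, ContinuousMap.coe_mk, P, V, W]
      ring
    simp only [ContinuousMap.add_apply, ContinuousMap.mul_apply, ContinuousMap.sub_apply,
      ContinuousMap.one_apply, hL' t, K, ContinuousMap.coe_mk]
    rw [x2, x1]
    field_simp
    ring
  have e2 : (∫ θ in (0 : ℝ)..(2 * π), Real.log (p θ * s θ) *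
      ((q (f θ) * s (f θ) + p (f θ) * u (f θ)) / (p (f θ) * s (f θ)) * g θ)) =
      J (L * (L'.comp F * G)) := by
    rw [J_apply]
    refine intervalIntegral.integral_congr fun t _ => ?_
    simp only [ContinuousMap.mul_apply, ContinuousMap.comp_apply, hL t, hL' (F t)]
    rfl
  rw [e1, e2, map_sub, m4, sub_zero, map_add, map_sub]
  rw [map_add] at m5
  have m1' : J ((a.comp F - a) * L') - J ((a.comp F - a) * α) + J (L * (L'.comp F * G)) =
    J (S * (σ.comp F * G)) := m1
  linarith

end Pool.Agent.H97.OC
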