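import Pool.Agent.H97.OC.Stubs2

set_option autoImplicit false

open Real MeasureTheory

namespace Pool.Agent.H97.OC

open Pool.Agent.H97.OB

theorem hopf_arctan {p q r u : ℝ → ℝ} (hp : ∀ θ, 0 < p θ)
    (dp : ∀ θ, HasDerivAt p (q θ) θ) (dr : ∀ θ, HasDerivAt r (u θ) θ) (θ : ℝ) :
    HasDerivAt (fun θ => θ + arctan (r θ / p θ))
      (1 + (u θ * p θ - r θ * q θ) / (p θ ^ 2 + r θ ^ 2)) θ := by
  have hpp := (hp θ).ne'
  have hq : HasDerivAt (fun θ => r θ / p θ) ((u θ * p θ - r θ * q θ) / p θ ^ 2) θ :=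
    (dr θ).div (dp θ) hpp
  have hi : HasDerivAt (fun θ : ℝ => θ) 1 θ := hasDerivAt_id θ
  have h : HasDerivAt (fun θ => θ + arctan (r θ / p θ))
      (1 + 1 / (1 + (r θ / p θ) ^ 2) * ((u θ * p θ - r θ * q θ) / p θ ^ 2)) θ :=
    hi.add hq.arctan
  have e : 1 + (u θ * p θ - r θ * q θ) / (p θ ^ 2 + r θ ^ 2) =
      1 + 1 / (1 + (r θ / p θ) ^ 2) * ((u θ * p θ - r θ * q θ) / p θ ^ 2) := by
    have : 0 < p θ ^ 2 + r θ ^ 2 := by have := hp θ; positivity
    field_simp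
  rw [e]
  exact h

theorem hopf_int {φ φ' g : ℝ → ℝ} (hd : ∀ θ, HasDerivAt φ (φ' θ) θ) (hc : Continuous φ')
    (hg : Continuous g) (hper : ∀ θ, g (θ + 2 * π) = g θ) (hφ : φ (2 * π) = φ 0 + 2 * π) :
    ∫ θ in (0 : ℝ)..(2 * π), g (φ θ) * φ' θ = ∫ θ in (0 : ℝ)..(2 * π), g θ := by
  have h := intervalIntegral.integral_comp_mul_deriv (a := 0) (b := 2 * π) (f := φ) (f' := φ')
    (g := g) (fun x _ => hd x) hc.continuousOn hg
  have h2 : (∫ x in φ 0..φ 0 + 2 * π, g x) = ∫ x in (0 : ℝ)..0 + 2 * π, g x :=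
    Function.Periodic.intervalIntegral_add_eq (f := g) (T := 2 * π) hper (φ 0) 0
  rw [hφ, h2, zero_add] at h
  exact h

theorem hopf : S_hopf2 := by
  intro p q ρ s u v g hS hu hv hg ds hs hsper hgper hb h2 h1
  have hp := hS.ppos
  have cp : Continuous p := continuous_iff_continuousAt.2 fun θ => (hS.dp θ).continuousAt
  have cq : Continuous q := continuous_iff_continuousAt.2 fun θ => (hS.dq θ).continuousAt
  have cs : Continuous s := continuous_iff_continuousAt.2 fun θ => (ds θ).continuousAt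
  have cρ := hS.cont
  have pper : ∀ θ, p (θ + 2 * π) = p θ := hS.pp
  have qper : ∀ θ, q (θ + 2 * π) = q θ := hS.qp
  have hn2 : ∀ θ, 0 < p θ ^ 2 + (q θ + s θ) ^ 2 := fun θ => by have := hp θ; positivity
  have hn1 : ∀ θ, 0 < p θ ^ 2 + (q θ - s θ) ^ 2 := fun θ => by have := hp θ; positivity
  -- the two angle functions
  have d2 : ∀ θ, HasDerivAt (fun θ => θ + arctan ((q θ + s θ) / p θ))
      ((p θ * ρ θ + s θ ^ 2 + (p θ * u θ + q θ * s θ)) / (p θ ^ 2 + (q θ + s θ) ^ 2)) θ := by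
    intro θ
    have h := hopf_arctan (r := fun θ => q θ + s θ) (u := fun θ => ρ θ - p θ + u θ) hp hS.dp
      (fun θ => (hS.dq θ).add (ds θ)) θ
    convert h using 1
    have := (hn2 θ).ne'
    field_simp
    ring
  have d1 : ∀ θ, HasDerivAt (fun θ => θ + arctan ((q θ - s θ) / p θ))
      ((p θ * ρ θ + s θ ^ 2 - (p θ * u θ + q θ * s θ)) / (p θ ^ 2 + (q θ - s θ) ^ 2)) θ := by
    intro θ
    have h := hopf_arctan (r := fun θ => q θ - s θ) (u := fun θ => ρ θ - p θ - u θ) hp hS.dp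
      (fun θ => (hS.dq θ).sub (ds θ)) θ
    convert h using 1
    have := (hn1 θ).ne'
    field_simp
    ring
  have c2 : Continuous fun θ =>
      (p θ * ρ θ + s θ ^ 2 + (p θ * u θ + q θ * s θ)) / (p θ ^ 2 + (q θ + s θ) ^ 2) :=
    Continuous.div (by fun_prop) (by fun_prop) fun θ => (hn2 θ).ne'
  have c1 : Continuous fun θ =>
      (p θ * ρ θ + s θ ^ 2 - (p θ * u θ + q θ * s θ)) / (p θ ^ 2 + (q θ - s θ) ^ 2) :=
    Continuous.div (by fun_prop) (by fun_prop) fun θ => (hn1 θ).ne'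
  have s0 : s (2 * π) = s 0 := by simpa using hsper 0
  have p0 : p (2 * π) = p 0 := by simpa using pper 0
  have q0 : q (2 * π) = q 0 := by simpa using qper 0
  have i2 := hopf_int d2 c2 hg hgper (by simp only [s0, p0, q0]; ring)
  have i1 := hopf_int d1 c1 hg hgper (by simp only [s0, p0, q0]; ring)
  -- pointwise identity
  have cN : Continuous fun θ =>
      NN (p θ) (ρ θ) (s θ) (p θ * u θ + q θ * s θ) * (s θ * v θ) := by
    unfold NN
    refine Continuous.mul (Continuous.div (by fun_prop) (by fun_prop) fun θ => ?_) (by fun_prop)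
    have h0 := abs_lt.1 (hb θ)
    have e1 : 0 < p θ := hp θ
    have e2 : 0 < p θ * ρ θ + s θ ^ 2 := by have := hS.rpos θ; positivity
    have e3 : 0 < (p θ * ρ θ + s θ ^ 2) ^ 2 - (p θ * u θ + q θ * s θ) ^ 2 := by nlinarith
    positivity
  have cg2 : Continuous fun θ => g (θ + arctan ((q θ + s θ) / p θ)) :=
    hg.comp (continuous_iff_continuousAt.2 fun θ => (d2 θ).continuousAt)
  have cg1 : Continuous fun θ => g (θ + arctan ((q θ - s θ) / p θ)) :=
    hg.comp (continuous_iff_continuousAt.2 fun θ => (d1 θ).continuousAt)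
  have hpt : ∀ θ, QQ (p θ) (q θ) (ρ θ) (s θ) * (s θ * v θ) =
      g (θ + arctan ((q θ + s θ) / p θ)) *
        ((p θ * ρ θ + s θ ^ 2 + (p θ * u θ + q θ * s θ)) / (p θ ^ 2 + (q θ + s θ) ^ 2)) -
      g (θ + arctan ((q θ - s θ) / p θ)) *
        ((p θ * ρ θ + s θ ^ 2 - (p θ * u θ + q θ * s θ)) / (p θ ^ 2 + (q θ - s θ) ^ 2)) +
      NN (p θ) (ρ θ) (s θ) (p θ * u θ + q θ * s θ) * (s θ * v θ) := by
    intro θ
    rw [← h2 θ, ← h1 θ, ident (p θ) (q θ) (ρ θ) (s θ) (u θ) (hp θ) (hS.rpos θ) (hs θ) (hb θ)]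
    ring
  rw [intervalIntegral.integral_congr (g := fun θ =>
      g (θ + arctan ((q θ + s θ) / p θ)) *
        ((p θ * ρ θ + s θ ^ 2 + (p θ * u θ + q θ * s θ)) / (p θ ^ 2 + (q θ + s θ) ^ 2)) -
      g (θ + arctan ((q θ - s θ) / p θ)) *
        ((p θ * ρ θ + s θ ^ 2 - (p θ * u θ + q θ * s θ)) / (p θ ^ 2 + (q θ - s θ) ^ 2)) +
      NN (p θ) (ρ θ) (s θ) (p θ * u θ + q θ * s θ) * (s θ * v θ)) (fun θ _ => hpt θ)]
  have I2 : IntervalIntegrable (fun θ => g (θ + arctan ((q θ + s θ) / p θ)) *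
      ((p θ * ρ θ + s θ ^ 2 + (p θ * u θ + q θ * s θ)) / (p θ ^ 2 + (q θ + s θ) ^ 2)))
      volume 0 (2 * π) := (cg2.mul c2).intervalIntegrable _ _
  have I1 : IntervalIntegrable (fun θ => g (θ + arctan ((q θ - s θ) / p θ)) *
      ((p θ * ρ θ + s θ ^ 2 - (p θ * u θ + q θ * s θ)) / (p θ ^ 2 + (q θ - s θ) ^ 2)))
      volume 0 (2 * π) := (cg1.mul c1).intervalIntegrable _ _
  have IN := cN.intervalIntegrable (μ := volume) 0 (2 * π)
  rw [intervalIntegral.integral_add (I2.sub I1) IN, intervalIntegral.integral_sub I2 I1]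
  rw [i1, i2, sub_self, zero_add]

end Pool.Agent.H97.OC
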