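import Pool.Agent.H97.OC.Stubs

/-!
# OC1: the key inequality
-/

set_option autoImplicit false

namespace Pool.Agent.H97.OC.KeyAux
open Real

lemma log_lb {X : ℝ} (h : 1 ≤ X) : 2 * (X - 1) / (X + 1) ≤ log X := by
  set u := (X - 1) / (X + 1) with hu
  have hX : 0 < X + 1 := by linarith
  have hu0 : 0 ≤ u := div_nonneg (by linarith) hX.le
  have hu1 : u < 1 := by rw [hu, div_lt_one hX]; linarith
  have h1 := Real.hasSum_log_sub_log_of_abs_lt_one (x := u) (by rw [abs_of_nonneg hu0]; exact hu1)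
  have h2 : log (1 + u) - log (1 - u) = log X := by
    rw [← Real.log_div (by linarith) (by linarith)]
    congr 1
    rw [hu]; field_simp; ring
  rw [h2] at h1
  have h3 := h1.summable.sum_le_tsum (Finset.range 1) (fun i _ => by positivity)
  rw [h1.tsum_eq] at h3
  simp at h3
  calc 2 * (X - 1) / (X + 1) = 2 * u := by rw [hu]; ring
    _ ≤ log X := h3

lemma log_lb' {X : ℝ} (h0 : 0 < X) (h : X ≤ 1) : (X ^ 2 - 1) / (2 * X) ≤ log X := by
  have h1 : 0 ≤ log X⁻¹ := Real.log_nonneg (by rw [one_le_inv₀ h0]; exact h)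
  have h2 := Real.self_le_sinh_iff.2 h1
  rw [Real.sinh_log (inv_pos.2 h0), Real.log_inv, inv_inv] at h2
  have h3 : (X ^ 2 - 1) / (2 * X) = -((X⁻¹ - X) / 2) := by
    field_simp; ring
  rw [h3]; linarith

lemma arctan_le {t a : ℝ} (ht : 0 ≤ t) (ha : 0 ≤ a) :
    arctan t ≤ arctan a + (t - a) / (1 + a ^ 2) := by
  rcases lt_trichotomy t a with h | h | h
  · obtain ⟨c, hc, hc'⟩ := exists_hasDerivAt_eq_slope arctan (fun x => 1 / (1 + x ^ 2)) h
      Real.continuous_arctan.continuousOn (fun x _ => Real.hasDerivAt_arctan x)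
    have h1 : (1 : ℝ) / (1 + a ^ 2) ≤ 1 / (1 + c ^ 2) := by
      apply one_div_le_one_div_of_le (by positivity)
      have : c ^ 2 ≤ a ^ 2 := by apply pow_le_pow_left₀ (by linarith [hc.1]) hc.2.le
      linarith
    rw [hc'] at h1
    rw [le_div_iff₀ (by linarith)] at h1
    have h2 : (t - a) / (1 + a ^ 2) = - (1 / (1 + a ^ 2) * (a - t)) := by ring
    rw [h2]; linarith
  · subst h; simp
  · obtain ⟨c, hc, hc'⟩ := exists_hasDerivAt_eq_slope arctan (fun x => 1 / (1 + x ^ 2)) h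
      Real.continuous_arctan.continuousOn (fun x _ => Real.hasDerivAt_arctan x)
    have h1 : (1 : ℝ) / (1 + c ^ 2) ≤ 1 / (1 + a ^ 2) := by
      apply one_div_le_one_div_of_le (by positivity)
      have : a ^ 2 ≤ c ^ 2 := by apply pow_le_pow_left₀ ha hc.1.le
      linarith
    rw [hc'] at h1
    rw [div_le_iff₀ (by linarith)] at h1
    have h2 : (t - a) / (1 + a ^ 2) = 1 / (1 + a ^ 2) * (t - a) := by ring
    rw [h2]; linarith

lemma s3 : √3 ^ 2 = 3 := Real.sq_sqrt (by norm_num)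
lemma s3l : 1.732050 < √3 := by
  apply Real.lt_sqrt_of_sq_lt; norm_num
lemma s3u : √3 < 1.732051 := by
  rw [Real.sqrt_lt' (by norm_num)]; norm_num

lemma arctan_s3 : arctan √3 = π / 3 := by
  rw [← Real.tan_pi_div_three, Real.arctan_tan]
  · linarith [Real.pi_pos]
  · linarith [Real.pi_pos]

lemma arctan_one_s3 : arctan (√3)⁻¹ = π / 6 := by
  have := Real.arctan_inv_of_pos (x := √3) (by positivity)
  rw [arctan_s3] at this
  rw [this]; ring

lemma arctan_c : arctan (2 + √3) = 5 * π / 12 := by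
  have h0 := s3l
  have hs : (√3)⁻¹ < 1 := by
    apply inv_lt_one_of_one_lt₀; linarith
  have h := Real.arctan_add (x := 1) (y := (√3)⁻¹) (by linarith)
  rw [Real.arctan_one, arctan_one_s3] at h
  have h1 : (1 + (√3)⁻¹) / (1 - 1 * (√3)⁻¹) = 2 + √3 := by
    have h2 : √3 - 1 ≠ 0 := by intro h; linarith
    have h3 : (1 + (√3)⁻¹) / (1 - 1 * (√3)⁻¹) = (√3 + 1) / (√3 - 1) := by
      field_simp
    rw [h3, div_eq_iff h2]
    nlinarith [s3]
  rw [h1] at h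
  rw [← h]; ring

lemma al : 1.06379 < π / √3 - 3 / 4 := by
  have h1 := Real.pi_gt_d6
  have h : 1.81379 < π / √3 := by
    rw [lt_div_iff₀ (by positivity)]
    nlinarith [s3u]
  linarith

lemma au : π / √3 - 3 / 4 < 1.06381 := by
  have h1 := Real.pi_lt_d6
  have h : π / √3 < 1.81381 := by
    rw [div_lt_iff₀ (by positivity)]
    nlinarith [s3l]
  linarith

/-- the two upper bounds of `2 t arctan t` -/
lemma at1 {t : ℝ} (ht : 0 ≤ t) :
    2 * t * arctan t ≤ t ^ 2 / 2 + 2 * t * ((π / √3 - 3 / 4) / √3) := by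
  have h := arctan_le ht (Real.sqrt_nonneg 3)
  rw [arctan_s3, s3] at h
  have h2 : (π / √3 - 3 / 4) / √3 = π / 3 - √3 / 4 := by
    have h0 : √3 ≠ 0 := by positivity
    have h1 : √3 * √3 = 3 := by nlinarith [s3]
    rw [div_eq_iff h0, sub_mul, div_mul_eq_mul_div √3, h1]
    have h4 : π / √3 = π / 3 * √3 := by
      rw [div_eq_iff h0, mul_assoc, h1]; ring
    rw [h4]
  rw [h2]
  nlinarith

lemma at2 {t : ℝ} (ht : 0 ≤ t) :
    2 * t * arctan t ≤ (1 - √3 / 2) * t ^ 2 + 2 * t * (5 * π / 12 - 1 / 4) := by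
  have h := arctan_le ht (a := 2 + √3) (by positivity)
  rw [arctan_c] at h
  have h2 : (t - (2 + √3)) / (1 + (2 + √3) ^ 2) = (t - (2 + √3)) * ((2 - √3) / 4) := by
    rw [div_eq_iff (by positivity)]
    have h3 : (2 - √3) / 4 * (1 + (2 + √3) ^ 2) = 1 := by
      nlinarith [s3]
    rw [mul_assoc, h3, mul_one]
  rw [h2] at h
  have h4 : (2 + √3) * (2 - √3) = 1 := by nlinarith [s3]
  have h5 : 2 * t * arctan t ≤ 2 * t * (5 * π / 12 + (t - (2 + √3)) * ((2 - √3) / 4)) :=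
    mul_le_mul_of_nonneg_left h (by linarith)
  have h6 : 2 * t * (5 * π / 12 + (t - (2 + √3)) * ((2 - √3) / 4)) =
      2 * t * (5 * π / 12) + t ^ 2 * ((2 - √3) / 2) - t * ((2 + √3) * (2 - √3)) / 2 := by ring
  rw [h6, h4] at h5
  linarith

lemma quad {P Q E t : ℝ} (hP : 0 < P) (h : Q ^ 2 ≤ P * E) : 0 ≤ P * t ^ 2 - 2 * t * Q + E := by
  have : 0 ≤ P * (P * t ^ 2 - 2 * t * Q + E) := by nlinarith [sq_nonneg (P * t - Q)]
  exact nonneg_of_mul_nonneg_right this hP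

lemma quad' {P Q E t : ℝ} (hP : 0 < P) (h : Q ^ 2 < P * E) : 0 < P * t ^ 2 - 2 * t * Q + E := by
  have : 0 < P * (P * t ^ 2 - 2 * t * Q + E) := by nlinarith [sq_nonneg (P * t - Q)]
  exact (mul_pos_iff_of_pos_left hP).1 this

/-! ### polynomial inequalities -/

lemma poly1 {a w : ℝ} (ha : a < 1.06381) (h0 : 0 < w) (h1 : w ≤ 1) :
    a * ((5 + 2 * w - w ^ 2) * (3 + w ^ 2)) < 3 * (2 - w ^ 2) * (3 + 9 * w + 4 * w ^ 2) := by
  have hp : 0 < (5 + 2 * w - w ^ 2) * (3 + w ^ 2) := by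
    apply mul_pos <;> nlinarith
  have h2 : a * ((5 + 2 * w - w ^ 2) * (3 + w ^ 2)) < 1.06381 * ((5 + 2 * w - w ^ 2) * (3 + w ^ 2)) :=
    mul_lt_mul_of_pos_right ha hp
  refine h2.trans_le ?_
  nlinarith [mul_nonneg h0.le (sub_nonneg.2 h1), mul_nonneg (mul_nonneg h0.le (sub_nonneg.2 h1)) h0.le,
    mul_nonneg (mul_nonneg h0.le (sub_nonneg.2 h1)) (sq_nonneg w)]

lemma poly2 {a w : ℝ} (ha : a < 1.06381) (h1 : 1 ≤ w) (h2 : w ^ 2 ≤ 3 / 2) :
    a * (4 * w ^ 2 * (3 - w ^ 2) * (5 + 2 * w - w ^ 2)) <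
      3 * (2 - w ^ 2) * (2 * w ^ 4 + 3 * w ^ 2 + 18 * w + 9) := by
  have hw : w ≤ 1.22475 := by nlinarith
  have hp : 0 < 4 * w ^ 2 * (3 - w ^ 2) * (5 + 2 * w - w ^ 2) := by
    apply mul_pos _ (by nlinarith)
    apply mul_pos (by positivity) (by nlinarith)
  refine (mul_lt_mul_of_pos_right ha hp).trans_le ?_
  obtain ⟨v, hv⟩ : ∃ v, v = w - 1 := ⟨_, rfl⟩
  have hw' : w = 1 + v := by linarith
  subst hw'
  have hv0 : 0 ≤ v := by linarith
  have hv1 : v ≤ 0.22475 := by linarith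
  nlinarith [mul_nonneg hv0 (sub_nonneg.2 hv1), mul_nonneg (mul_nonneg hv0 (sub_nonneg.2 hv1)) hv0,
    mul_nonneg (mul_nonneg hv0 (sub_nonneg.2 hv1)) (sq_nonneg v)]

lemma poly3 {a c q w : ℝ} (hal : 1.06379 < a) (hau : a < 1.06381) (hc : 0.36602 < c)
    (hq0 : 0 < q) (hq : q < 1.0590) (h1 : 3 / 2 ≤ w ^ 2) (h0 : 0 < w) (h2 : w ^ 2 < 3) :
    0 < a / 3 * (2 - w ^ 2) + c ∧
    q ^ 2 * (3 - w ^ 2) < (a / 3 * (2 - w ^ 2) + c) * (a * (3 - w ^ 2) + (4 * a + 3) * (w - 1)) := by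
  have hwl : 1.2247 < w := by nlinarith
  have hwu : w < 1.73206 := by nlinarith
  have f1 : 0.3546 * (2 - w ^ 2) + 0.36601 ≤ a / 3 * (2 - w ^ 2) + c := by nlinarith
  have f2 : 1.0638 * (3 - w ^ 2) + 7.2552 * (w - 1) - 0.0001 ≤
      a * (3 - w ^ 2) + (4 * a + 3) * (w - 1) := by nlinarith
  have p1 : 0 < 0.3546 * (2 - w ^ 2) + 0.36601 := by nlinarith
  have p2 : 0 < 1.0638 * (3 - w ^ 2) + 7.2552 * (w - 1) - 0.0001 := by nlinarith
  refine ⟨p1.trans_le f1, ?_⟩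
  have q1 : q ^ 2 ≤ 1.1215 := by nlinarith
  have m1 : q ^ 2 * (3 - w ^ 2) ≤ 1.1215 * (3 - w ^ 2) :=
    mul_le_mul_of_nonneg_right q1 (by linarith)
  have m2 : (0.3546 * (2 - w ^ 2) + 0.36601) * (1.0638 * (3 - w ^ 2) + 7.2552 * (w - 1) - 0.0001) ≤
      (a / 3 * (2 - w ^ 2) + c) * (a * (3 - w ^ 2) + (4 * a + 3) * (w - 1)) :=
    mul_le_mul f1 f2 p2.le (p1.le.trans f1)
  refine m1.trans_lt (lt_of_lt_of_le ?_ m2)
  have g1 : 0 ≤ (w - 1.2247) * (1.73206 - w) :=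
    mul_nonneg (by linarith) (by linarith)
  have g2 : 0 ≤ (w - 1.2247) * (1.73206 - w) * w := mul_nonneg g1 h0.le
  have g3 : 0 ≤ (w - 1.2247) * (1.73206 - w) * (w - 1.2247) := mul_nonneg g1 (by linarith)
  have g4 : 0 ≤ (w - 1.2247) * (1.73206 - w) * (1.73206 - w) := mul_nonneg g1 (by linarith)
  have g5 : 0 ≤ (w - 1.2247) * (1.73206 - w) * ((w - 1.2247) * (1.73206 - w)) := mul_nonneg g1 g1
  nlinarith

/-- the value of the bracket for `x = y` -/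
noncomputable def E0 (a w : ℝ) : ℝ :=
  a + (4 * (a + 3 / 4) * (w - 1) + (3 - 2 * w ^ 2) * log ((3 - w ^ 2) / (2 * w ^ 2))) / (3 - w ^ 2)

lemma core1 {a w : ℝ} (ha : a < 1.06381) (h0 : 0 < w) (h2 : w ^ 2 ≤ 3 / 2) :
    a * ((1 - w) ^ 2 * (5 + 2 * w - w ^ 2)) ≤
      (2 - w ^ 2) * (3 * (w - 1) + (3 - 2 * w ^ 2) * log ((3 - w ^ 2) / (2 * w ^ 2))) ∧
    (w ≠ 1 → a * ((1 - w) ^ 2 * (5 + 2 * w - w ^ 2)) <
      (2 - w ^ 2) * (3 * (w - 1) + (3 - 2 * w ^ 2) * log ((3 - w ^ 2) / (2 * w ^ 2)))) := by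
  set X := (3 - w ^ 2) / (2 * w ^ 2) with hX
  have hw2 : 0 < w ^ 2 := by positivity
  have h3 : 0 < 3 - w ^ 2 := by linarith
  have hX0 : 0 < X := by positivity
  have h32 : 0 ≤ 3 - 2 * w ^ 2 := by linarith
  rcases le_total w 1 with h | h
  · have hX1 : 1 ≤ X := by
      rw [hX, one_le_div (by positivity)]; nlinarith
    have hl := log_lb hX1
    have e1 : 2 * (X - 1) / (X + 1) = 6 * (1 - w ^ 2) / (3 + w ^ 2) := by
      rw [hX]; field_simp; ring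
    rw [e1] at hl
    have e2 : 3 * (w - 1) + (3 - 2 * w ^ 2) * (6 * (1 - w ^ 2) / (3 + w ^ 2)) =
        (1 - w) ^ 2 * (3 * (3 + 9 * w + 4 * w ^ 2) / (3 + w ^ 2)) := by
      field_simp; ring
    have m1 : (1 - w) ^ 2 * (3 * (3 + 9 * w + 4 * w ^ 2) / (3 + w ^ 2)) ≤
        3 * (w - 1) + (3 - 2 * w ^ 2) * log X := by
      rw [← e2]
      have := mul_le_mul_of_nonneg_left hl h32
      linarith
    have m2 : (2 - w ^ 2) * ((1 - w) ^ 2 * (3 * (3 + 9 * w + 4 * w ^ 2) / (3 + w ^ 2))) ≤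
        (2 - w ^ 2) * (3 * (w - 1) + (3 - 2 * w ^ 2) * log X) :=
      mul_le_mul_of_nonneg_left m1 (by linarith)
    have hp := poly1 ha h0 h
    have m3 : a * (5 + 2 * w - w ^ 2) <
        (2 - w ^ 2) * (3 * (3 + 9 * w + 4 * w ^ 2) / (3 + w ^ 2)) := by
      rw [← mul_div_assoc, lt_div_iff₀ (by positivity)]
      nlinarith
    have e3 : (2 - w ^ 2) * ((1 - w) ^ 2 * (3 * (3 + 9 * w + 4 * w ^ 2) / (3 + w ^ 2))) =
        (1 - w) ^ 2 * ((2 - w ^ 2) * (3 * (3 + 9 * w + 4 * w ^ 2) / (3 + w ^ 2))) := by ring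
    rw [e3] at m2
    have e4 : a * ((1 - w) ^ 2 * (5 + 2 * w - w ^ 2)) = (1 - w) ^ 2 * (a * (5 + 2 * w - w ^ 2)) := by
      ring
    rw [e4]
    refine ⟨(mul_le_mul_of_nonneg_left m3.le (sq_nonneg _)).trans m2, fun hne => ?_⟩
    have : 0 < (1 - w) ^ 2 := by
      apply sq_pos_of_ne_zero
      intro h5; exact hne (by linarith)
    exact (mul_lt_mul_of_pos_left m3 this).trans_le m2
  · have hX1 : X ≤ 1 := by
      rw [hX, div_le_one (by positivity)]; nlinarith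
    have hl := log_lb' hX0 hX1
    have e1 : (X ^ 2 - 1) / (2 * X) = 3 * (1 - w ^ 2) * (3 + w ^ 2) / (4 * w ^ 2 * (3 - w ^ 2)) := by
      rw [hX]; field_simp; ring
    rw [e1] at hl
    have e2 : 3 * (w - 1) + (3 - 2 * w ^ 2) *
        (3 * (1 - w ^ 2) * (3 + w ^ 2) / (4 * w ^ 2 * (3 - w ^ 2))) =
        (1 - w) ^ 2 * (3 * (2 * w ^ 4 + 3 * w ^ 2 + 18 * w + 9) / (4 * w ^ 2 * (3 - w ^ 2))) := by
      field_simp; ring
    have m1 : (1 - w) ^ 2 * (3 * (2 * w ^ 4 + 3 * w ^ 2 + 18 * w + 9) / (4 * w ^ 2 * (3 - w ^ 2))) ≤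
        3 * (w - 1) + (3 - 2 * w ^ 2) * log X := by
      rw [← e2]
      have := mul_le_mul_of_nonneg_left hl h32
      linarith
    have m2 : (2 - w ^ 2) *
        ((1 - w) ^ 2 * (3 * (2 * w ^ 4 + 3 * w ^ 2 + 18 * w + 9) / (4 * w ^ 2 * (3 - w ^ 2)))) ≤
        (2 - w ^ 2) * (3 * (w - 1) + (3 - 2 * w ^ 2) * log X) :=
      mul_le_mul_of_nonneg_left m1 (by linarith)
    have hp := poly2 ha h h2
    have m3 : a * (5 + 2 * w - w ^ 2) <
        (2 - w ^ 2) * (3 * (2 * w ^ 4 + 3 * w ^ 2 + 18 * w + 9) / (4 * w ^ 2 * (3 - w ^ 2))) := by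
      rw [← mul_div_assoc, lt_div_iff₀ (by positivity)]
      nlinarith
    have e3 : (2 - w ^ 2) *
        ((1 - w) ^ 2 * (3 * (2 * w ^ 4 + 3 * w ^ 2 + 18 * w + 9) / (4 * w ^ 2 * (3 - w ^ 2)))) =
        (1 - w) ^ 2 *
        ((2 - w ^ 2) * (3 * (2 * w ^ 4 + 3 * w ^ 2 + 18 * w + 9) / (4 * w ^ 2 * (3 - w ^ 2)))) := by
      ring
    rw [e3] at m2
    have e4 : a * ((1 - w) ^ 2 * (5 + 2 * w - w ^ 2)) = (1 - w) ^ 2 * (a * (5 + 2 * w - w ^ 2)) := by
      ring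
    rw [e4]
    refine ⟨(mul_le_mul_of_nonneg_left m3.le (sq_nonneg _)).trans m2, fun hne => ?_⟩
    have : 0 < (1 - w) ^ 2 := by
      apply sq_pos_of_ne_zero
      intro h5; exact hne (by linarith)
    exact (mul_lt_mul_of_pos_left m3 this).trans_le m2

lemma core2 {a w : ℝ} (h2 : w ^ 2 < 3) :
    (2 - w ^ 2) * E0 a w - a =
      ((2 - w ^ 2) * (3 * (w - 1) + (3 - 2 * w ^ 2) * log ((3 - w ^ 2) / (2 * w ^ 2))) -
        a * ((1 - w) ^ 2 * (5 + 2 * w - w ^ 2))) / (3 - w ^ 2) := by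
  unfold E0
  generalize log ((3 - w ^ 2) / (2 * w ^ 2)) = l
  have h3 : 3 - w ^ 2 ≠ 0 := by intro h; linarith
  field_simp
  ring

/-- the inequality for `x = y` -/
lemma diag {w t E : ℝ} (h0 : 0 < w) (h2 : w ^ 2 < 3) (ht : 0 ≤ t)
    (hE : E0 (π / √3 - 3 / 4) w ≤ E) :
    2 * t * arctan t ≤ (1 / 2 + (π / √3 - 3 / 4) / 3 * (2 - w ^ 2)) * t ^ 2 + E ∧
    (w ≠ 1 → 2 * t * arctan t < (1 / 2 + (π / √3 - 3 / 4) / 3 * (2 - w ^ 2)) * t ^ 2 + E) := by
  have hal := al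
  have hau := au
  have h1' := at1 ht
  have h2' := at2 ht
  have hpi : 5 * π / 12 - 1 / 4 < 1.0590 := by linarith [Real.pi_lt_d6]
  have hpi' : 0 < 5 * π / 12 - 1 / 4 := by linarith [Real.pi_gt_three]
  have hc : 0.36602 < (√3 - 1) / 2 := by linarith [s3l]
  generalize 5 * π / 12 - 1 / 4 = q at *
  generalize π / √3 - 3 / 4 = a at *
  have h3 : 0 < 3 - w ^ 2 := by linarith
  rcases le_or_gt (w ^ 2) (3 / 2) with h | h
  · have hP : 0 < a / 3 * (2 - w ^ 2) := by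
      apply mul_pos <;> linarith
    have hc1 := core1 hau h0 h
    have hc2 := core2 (a := a) h2
    have hQ : (a / √3) ^ 2 = a / 3 * a := by
      rw [div_pow, s3]; ring
    have m0 : (2 - w ^ 2) * E0 a w ≤ (2 - w ^ 2) * E := mul_le_mul_of_nonneg_left hE (by linarith)
    have m1 : a ≤ (2 - w ^ 2) * E0 a w := by
      have : 0 ≤ (2 - w ^ 2) * E0 a w - a := by
        rw [hc2]; apply div_nonneg _ h3.le; linarith [hc1.1]
      linarith
    refine ⟨?_, fun hne => ?_⟩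
    · have hq := quad (t := t) (Q := a / √3) (E := E) hP (by
        rw [hQ, mul_assoc]
        exact mul_le_mul_of_nonneg_left (m1.trans m0) (by linarith))
      nlinarith
    · have m2 : a < (2 - w ^ 2) * E0 a w := by
        have : 0 < (2 - w ^ 2) * E0 a w - a := by
          rw [hc2]; apply div_pos _ h3; linarith [hc1.2 hne]
        linarith
      have hq := quad' (t := t) (Q := a / √3) (E := E) hP (by
        rw [hQ, mul_assoc]
        exact mul_lt_mul_of_pos_left (m2.trans_le m0) (by linarith))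
      nlinarith
  · obtain ⟨hP, hp⟩ := poly3 hal hau hc hpi' hpi h.le h0 h2
    have hE1 : (a * (3 - w ^ 2) + (4 * a + 3) * (w - 1)) / (3 - w ^ 2) ≤ E0 a w := by
      unfold E0
      have hX : (3 - w ^ 2) / (2 * w ^ 2) ≤ 1 := by
        rw [div_le_one (by positivity)]; linarith
      have hl : log ((3 - w ^ 2) / (2 * w ^ 2)) ≤ 0 := Real.log_nonpos (by positivity) hX
      have hm : 0 ≤ (3 - 2 * w ^ 2) * log ((3 - w ^ 2) / (2 * w ^ 2)) :=
        mul_nonneg_of_nonpos_of_nonpos (by linarith) hl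
      rw [div_le_iff₀ h3, add_mul a, div_mul_cancel₀ _ h3.ne']
      nlinarith
    have m1 : q ^ 2 < (a / 3 * (2 - w ^ 2) + (√3 - 1) / 2) *
        ((a * (3 - w ^ 2) + (4 * a + 3) * (w - 1)) / (3 - w ^ 2)) := by
      rw [← mul_div_assoc, lt_div_iff₀ h3]; exact hp
    have m2 : q ^ 2 < (a / 3 * (2 - w ^ 2) + (√3 - 1) / 2) * E :=
      m1.trans_le (mul_le_mul_of_nonneg_left (hE1.trans hE) hP.le)
    have hq := quad' (t := t) (Q := q) (E := E) hP m2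
    have : 2 * t * arctan t < (1 / 2 + a / 3 * (2 - w ^ 2)) * t ^ 2 + E := by nlinarith
    exact ⟨this.le, fun _ => this⟩

/-! ### the reduction to `x = y` -/

lemma eta_nonneg {d : ℝ} (h1 : -1 < d) (h2 : d < 1) :
    0 ≤ (1 + d) * log (1 + d) + (1 - d) * log (1 - d) := by
  have a1 := Real.one_sub_inv_le_log_of_pos (x := 1 + d) (by linarith)
  have a2 := Real.one_sub_inv_le_log_of_pos (x := 1 - d) (by linarith)
  have b1 := mul_le_mul_of_nonneg_left a1 (by linarith : 0 ≤ 1 + d)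
  have b2 := mul_le_mul_of_nonneg_left a2 (by linarith : 0 ≤ 1 - d)
  rw [mul_sub, mul_inv_cancel₀ (by linarith)] at b1 b2
  linarith

lemma eta_le {d : ℝ} (h1 : -1 < d) (h2 : d < 1) :
    (1 + d) * log (1 + d) + (1 - d) * log (1 - d) ≤ 2 * d ^ 2 := by
  have a1 := Real.log_le_sub_one_of_pos (x := 1 + d) (by linarith)
  have a2 := Real.log_le_sub_one_of_pos (x := 1 - d) (by linarith)
  have b1 := mul_le_mul_of_nonneg_left a1 (by linarith : 0 ≤ 1 + d)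
  have b2 := mul_le_mul_of_nonneg_left a2 (by linarith : 0 ≤ 1 - d)
  nlinarith

lemma sqrt_lb {u : ℝ} (h0 : 0 ≤ u) (h1 : u ≤ 1) : 1 + 0.414 * u ≤ √(1 + u) := by
  apply Real.le_sqrt_of_sq_le
  nlinarith

/-- the bracket of the reduction -/
lemma brk {s w : ℝ} (hs : 1.81379 < s) (hs' : s < 1.81381) (h0 : 0 < w) (h2 : w ^ 2 < 3) :
    (w ^ 2 ≤ 3 / 2 → 0 ≤ 4 * s / 3 * (1.414 * w - 1) +
      (1 - 2 * w ^ 2 / 3) * log ((3 - w ^ 2) / (2 * w ^ 2))) ∧
    (3 / 2 ≤ w ^ 2 → 0 ≤ 4 * s / 3 * (1.414 * w - 1) + (1 - 2 * w ^ 2 / 3) +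
      (1 - 2 * w ^ 2 / 3) * log ((3 - w ^ 2) / (2 * w ^ 2))) := by
  have h3 : 0 < 3 - w ^ 2 := by linarith
  have hw2 : 0 < w ^ 2 := by positivity
  constructor
  · intro h
    have hm : 0 ≤ 1 - 2 * w ^ 2 / 3 := by linarith
    rcases le_total w 1 with hw | hw
    · have hl1 : log (1 / w ^ 2) ≤ log ((3 - w ^ 2) / (2 * w ^ 2)) := by
        apply Real.log_le_log (by positivity)
        rw [div_le_div_iff₀ hw2 (by positivity)]
        have : w ^ 2 ≤ 1 := by nlinarith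
        nlinarith [mul_nonneg hw2.le (sub_nonneg.2 this)]
      have hl2 : log (1 / w ^ 2) = 2 * log (1 / w) := by
        rw [Real.log_div one_ne_zero hw2.ne', Real.log_div one_ne_zero h0.ne', Real.log_pow]
        simp
      have hl3 := log_lb (X := 1 / w) (by rw [one_le_div h0]; exact hw)
      have e1 : 2 * (1 / w - 1) / (1 / w + 1) = 2 * (1 - w) / (1 + w) := by
        field_simp
      rw [e1] at hl3
      have hl : 4 * (1 - w) / (1 + w) ≤ log ((3 - w ^ 2) / (2 * w ^ 2)) := by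
        rw [hl2] at hl1
        have : 4 * (1 - w) / (1 + w) = 2 * (2 * (1 - w) / (1 + w)) := by ring
        linarith
      have m1 := mul_le_mul_of_nonneg_left hl hm
      refine le_trans ?_ (add_le_add_right m1 _)
      have e2 : 4 * s / 3 * (1.414 * w - 1) + (1 - 2 * w ^ 2 / 3) * (4 * (1 - w) / (1 + w)) =
          (4 * s / 3 * (1.414 * w - 1) * (1 + w) + (1 - 2 * w ^ 2 / 3) * (4 * (1 - w))) / (1 + w) := by
        field_simp
      rw [e2]
      apply div_nonneg _ (by linarith)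
      have n1 : 2.4184 * (1.414 * w - 1) - 0.0001 ≤ 4 * s / 3 * (1.414 * w - 1) := by nlinarith
      have n2 : (2.4184 * (1.414 * w - 1) - 0.0001) * (1 + w) ≤
          4 * s / 3 * (1.414 * w - 1) * (1 + w) := mul_le_mul_of_nonneg_right n1 (by linarith)
      nlinarith [mul_nonneg h0.le (sub_nonneg.2 hw), sq_nonneg (w - 0.6),
        mul_nonneg h0.le (sq_nonneg (w - 0.6)), mul_nonneg (sub_nonneg.2 hw) (sq_nonneg (w - 0.6))]
    · have hl := Real.one_sub_inv_le_log_of_pos (x := (3 - w ^ 2) / (2 * w ^ 2)) (by positivity)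
      have e1 : 1 - ((3 - w ^ 2) / (2 * w ^ 2))⁻¹ = 3 * (1 - w ^ 2) / (3 - w ^ 2) := by
        field_simp; ring
      rw [e1] at hl
      have hl' : -1 ≤ log ((3 - w ^ 2) / (2 * w ^ 2)) := by
        refine le_trans ?_ hl
        rw [le_div_iff₀ h3]; linarith
      have m1 := mul_le_mul_of_nonneg_left hl' hm
      nlinarith
  · intro h
    have hX : (3 - w ^ 2) / (2 * w ^ 2) ≤ 1 := by
      rw [div_le_one (by positivity)]; linarith
    have hl : log ((3 - w ^ 2) / (2 * w ^ 2)) ≤ 0 := Real.log_nonpos (by positivity) hX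
    have hm : 0 ≤ (1 - 2 * w ^ 2 / 3) * log ((3 - w ^ 2) / (2 * w ^ 2)) :=
      mul_nonneg_of_nonpos_of_nonpos (by linarith) hl
    have hw1 : 1.22 < w := by nlinarith
    have : 0 ≤ 4 * s / 3 * (1.414 * w - 1) + (1 - 2 * w ^ 2 / 3) := by nlinarith
    linarith

lemma red {s w d : ℝ} (hs : 1.81379 < s) (hs' : s < 1.81381) (h0 : 0 < w) (h2 : w ^ 2 < 3)
    (hd1 : -1 < d) (hd2 : d < 1) :
    (1 - d ^ 2) * (4 * s / 3 * (w - 1) + (1 - 2 * w ^ 2 / 3) * log ((3 - w ^ 2) / (2 * w ^ 2))) ≤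
      4 * s / 3 * (w * √(1 + d ^ 2)) - 4 * s / 3 +
        (1 - 2 * w ^ 2 / 3) * log ((3 - w ^ 2) / (2 * w ^ 2)) +
        (1 - 2 * w ^ 2 / 3) / 2 * ((1 + d) * log (1 + d) + (1 - d) * log (1 - d)) := by
  have hd : d ^ 2 ≤ 1 := by nlinarith
  have hr := sqrt_lb (sq_nonneg d) hd
  have he0 := eta_nonneg hd1 hd2
  have he1 := eta_le hd1 hd2
  obtain ⟨hb1, hb2⟩ := brk hs hs' h0 h2
  generalize log ((3 - w ^ 2) / (2 * w ^ 2)) = L at *
  generalize (1 + d) * log (1 + d) + (1 - d) * log (1 - d) = e at *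
  generalize √(1 + d ^ 2) = r at *
  have hsw : 0 < 4 * s / 3 * w := by positivity
  have m1 : 4 * s / 3 * w * (1 + 0.414 * d ^ 2) ≤ 4 * s / 3 * w * r :=
    mul_le_mul_of_nonneg_left hr hsw.le
  rcases le_total (w ^ 2) (3 / 2) with h | h
  · have m2 : 0 ≤ (1 - 2 * w ^ 2 / 3) / 2 * e := mul_nonneg (by linarith) he0
    have m3 := mul_nonneg (sq_nonneg d) (hb1 h)
    nlinarith
  · have m2 : (1 - 2 * w ^ 2 / 3) / 2 * (2 * d ^ 2) ≤ (1 - 2 * w ^ 2 / 3) / 2 * e :=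
      mul_le_mul_of_nonpos_left he1 (by linarith)
    have m3 := mul_nonneg (sq_nonneg d) (hb2 h)
    nlinarith

lemma sqrt_id {w m d : ℝ} (h0 : 0 < w) (hm : 0 < m) (hd1 : -1 < d) (hd2 : d < 1) :
    (2 * π / 3) * √(2 * w ^ 2 / 3 * (1 / (m * (1 + d)) ^ 2 + 1 / (m * (1 - d)) ^ 2)) =
      4 * (π / √3) / 3 * (w * √(1 + d ^ 2)) / (m * (1 - d ^ 2)) := by
  have h1 : 0 < 1 - d ^ 2 := by nlinarith
  have h2 : 0 < 1 + d := by linarith
  have h3 : 0 < 1 - d := by linarith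
  have h5 : √3 ^ 2 = 3 := s3
  have h6 : √(1 + d ^ 2) ^ 2 = 1 + d ^ 2 := Real.sq_sqrt (by positivity)
  have h7 : 2 * w ^ 2 / 3 * (1 / (m * (1 + d)) ^ 2 + 1 / (m * (1 - d)) ^ 2) =
      (2 * w / √3 * √(1 + d ^ 2) / (m * (1 - d ^ 2))) ^ 2 := by
    have h8 : (2 * w / √3 * √(1 + d ^ 2) / (m * (1 - d ^ 2))) ^ 2 =
        4 * w ^ 2 * √(1 + d ^ 2) ^ 2 / (√3 ^ 2 * (m * (1 - d ^ 2)) ^ 2) := by
      field_simp
      ring
    rw [h8, h5, h6]
    have h9 : 1 - d ^ 2 = (1 + d) * (1 - d) := by ring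
    rw [h9]
    field_simp
    ring
  rw [h7, Real.sqrt_sq (by positivity)]
  field_simp
  ring

lemma E_ge {x y z : ℝ} (hx : 0 < x) (hy : 0 < y) (hz : 0 < z) (h : x + y + z = 2) :
    ∃ w : ℝ, 0 < w ∧ w ^ 2 < 3 ∧ z = 2 * w ^ 2 / 3 ∧
    E0 (π / √3 - 3 / 4) w ≤ (2 * π / 3) * √(z * (1 / x ^ 2 + 1 / y ^ 2)) +
        (1 - z) / 2 * (Real.log (y / z) / x + Real.log (x / z) / y) -
        2 * (π / √3) / 3 * (1 / x + 1 / y) + (π / √3 - 3 / 4) := by
  refine ⟨√(3 * z / 2), by positivity, ?_, ?_, ?_⟩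
  · rw [Real.sq_sqrt (by positivity)]; linarith
  · rw [Real.sq_sqrt (by positivity)]; ring
  have hw0 : 0 < √(3 * z / 2) := by positivity
  have hw2 : √(3 * z / 2) ^ 2 = 3 * z / 2 := Real.sq_sqrt (by positivity)
  generalize √(3 * z / 2) = w at *
  obtain ⟨m, hm⟩ : ∃ m, m = (x + y) / 2 := ⟨_, rfl⟩
  have hm0 : 0 < m := by rw [hm]; linarith
  obtain ⟨d, hd⟩ : ∃ d, d = (x - y) / (2 * m) := ⟨_, rfl⟩
  have hd1 : -1 < d := by rw [hd, lt_div_iff₀ (by positivity)]; linarith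
  have hd2 : d < 1 := by rw [hd, div_lt_one (by positivity)]; linarith
  have hmd : m * d = (x - y) / 2 := by rw [hd]; field_simp
  have ex : x = m * (1 + d) := by rw [mul_add, hmd]; linarith
  have ey : y = m * (1 - d) := by rw [mul_sub, hmd]; linarith
  have ez : z = 2 * w ^ 2 / 3 := by linarith
  have em : m = (3 - w ^ 2) / 3 := by linarith
  have h3 : w ^ 2 < 3 := by linarith
  have hs := al
  have hs' := au
  have hr := red (s := π / √3) (w := w) (d := d) (by linarith) (by linarith) hw0 h3 hd1 hd2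
  have p1 : 0 < 1 + d := by linarith
  have p2 : 0 < 1 - d := by linarith
  have p3 : 0 < 1 - d ^ 2 := by nlinarith
  have hX : m / z = (3 - w ^ 2) / (2 * w ^ 2) := by
    rw [em, ez]; field_simp
  have hly : log (y / z) = log ((3 - w ^ 2) / (2 * w ^ 2)) + log (1 - d) := by
    rw [← hX, ← Real.log_mul (by positivity) p2.ne']
    congr 1
    rw [ey]; ring
  have hlx : log (x / z) = log ((3 - w ^ 2) / (2 * w ^ 2)) + log (1 + d) := by
    rw [← hX, ← Real.log_mul (by positivity) p1.ne']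
    congr 1
    rw [ex]; ring
  rw [hlx, hly]
  rw [show z * (1 / x ^ 2 + 1 / y ^ 2) =
    2 * w ^ 2 / 3 * (1 / (m * (1 + d)) ^ 2 + 1 / (m * (1 - d)) ^ 2) by rw [← ex, ← ey, ← ez]]
  rw [sqrt_id hw0 hm0 hd1 hd2]
  unfold E0
  rw [ex, ey, ez]
  generalize log ((3 - w ^ 2) / (2 * w ^ 2)) = L at *
  generalize log (1 + d) = L1 at *
  generalize log (1 - d) = L2 at *
  generalize √(1 + d ^ 2) = r at *
  generalize π / √3 = s at *
  have e1 : 4 * s / 3 * (w * r) / (m * (1 - d ^ 2)) +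
      (1 - 2 * w ^ 2 / 3) / 2 * ((L + L2) / (m * (1 + d)) + (L + L1) / (m * (1 - d))) -
      2 * s / 3 * (1 / (m * (1 + d)) + 1 / (m * (1 - d))) + (s - 3 / 4) =
      (s - 3 / 4) + (4 * s / 3 * (w * r) - 4 * s / 3 + (1 - 2 * w ^ 2 / 3) * L +
        (1 - 2 * w ^ 2 / 3) / 2 * ((1 + d) * L1 + (1 - d) * L2)) / (m * (1 - d ^ 2)) := by
    have h9 : 1 - d ^ 2 = (1 + d) * (1 - d) := by ring
    rw [h9]
    field_simp
    ring
  have e2 : (4 * (s - 3 / 4 + 3 / 4) * (w - 1) + (3 - 2 * w ^ 2) * L) / (3 - w ^ 2) =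
      (4 * s / 3 * (w - 1) + (1 - 2 * w ^ 2 / 3) * L) / m := by
    have h9 : 3 - w ^ 2 = 3 * m := by rw [em]; ring
    rw [h9, div_eq_div_iff (by positivity) hm0.ne']
    ring
  rw [e1, e2]
  apply add_le_add_right
  rw [div_le_div_iff₀ hm0 (by positivity)]
  have := mul_le_mul_of_nonneg_left hr hm0.le
  nlinarith

end Pool.Agent.H97.OC.KeyAux

namespace Pool.Agent.H97.OC

open Real

open KeyAux in
theorem key : S_key := by
  intro x y z t hx hy hz h ht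
  obtain ⟨w, hw0, hw3, ez, hE⟩ := E_ge hx hy hz h
  obtain ⟨h1, h2⟩ := diag hw0 hw3 ht hE
  have hB : 1 / 2 + (π / √3 - 3 / 4) / 3 * (2 - w ^ 2) =
      2 * (π / √3) / 3 - (π / √3 - 3 / 4) / 2 * z := by
    rw [ez]; ring
  rw [hB] at h1 h2
  refine ⟨h1, fun hne => h2 ?_⟩
  rintro rfl
  apply hne
  rw [ez]; norm_num

end Pool.Agent.H97.OC
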