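import Pool.Agent.H97.OC.Stubs

/-! OC2: `S_key3` from `S_key`. -/

set_option autoImplicit false

open scoped Real

namespace Pool.Agent.H97.OC

/-- the terms that cancel in the sum -/
noncomputable def Ek (l Y x y z : ℝ) : ℝ :=
  (2 * (π / √3) / 3 - (π / √3 - 3 / 4) / 2 * z) * Y +
    l * (-(2 * (π / √3) / 3 * (1 / x + 1 / y)) + (π / √3 - 3 / 4))

theorem key_l (h : S_key) (l Y x y z : ℝ) (hl : 0 < l) (hY : 0 ≤ Y) (hx : 0 < x) (hy : 0 < y)
    (hz : 0 < z) (hs : x + y + z = 2) :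
    2 * √(l * Y) * Real.arctan (√(Y / l)) ≤ Rk l x y z + Ek l Y x y z ∧
    (z ≠ 2 / 3 → 2 * √(l * Y) * Real.arctan (√(Y / l)) < Rk l x y z + Ek l Y x y z) := by
  have h1 : √(l * Y) = l * √(Y / l) := by
    have : l * Y = l ^ 2 * (Y / l) := by field_simp
    rw [this, Real.sqrt_mul (by positivity), Real.sqrt_sq hl.le]
  have h2 : (√(Y / l)) ^ 2 = Y / l := Real.sq_sqrt (by positivity)
  have h3 := h x y z (√(Y / l)) hx hy hz hs (Real.sqrt_nonneg _)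
  rw [h2] at h3
  have h4 : l * (Y / l) = Y := by field_simp
  have key : ∀ B R S : ℝ, l * (B * (Y / l) + (R - S + (π / √3 - 3 / 4))) =
      B * Y + l * (R - S + (π / √3 - 3 / 4)) := by
    intro B R S
    calc l * (B * (Y / l) + (R - S + (π / √3 - 3 / 4))) =
        B * (l * (Y / l)) + l * (R - S + (π / √3 - 3 / 4)) := by ring
      _ = _ := by rw [h4]
  have h5 : Rk l x y z + Ek l Y x y z = l * ((2 * (π / √3) / 3 - (π / √3 - 3 / 4) / 2 * z) * (Y / l) +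
      ((2 * π / 3) * √(z * (1 / x ^ 2 + 1 / y ^ 2)) +
        (1 - z) / 2 * (Real.log (y / z) / x + Real.log (x / z) / y) -
        2 * (π / √3) / 3 * (1 / x + 1 / y) + (π / √3 - 3 / 4))) := by
    rw [key]
    unfold Rk Ek
    ring
  rw [h1, h5]
  refine ⟨?_, fun hne => ?_⟩
  · have := mul_le_mul_of_nonneg_left h3.1 hl.le
    calc _ = l * (2 * √(Y / l) * Real.arctan (√(Y / l))) := by ring
      _ ≤ _ := this
  · have := mul_lt_mul_of_pos_left (h3.2 hne) hl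
    calc _ = l * (2 * √(Y / l) * Real.arctan (√(Y / l))) := by ring
      _ < _ := this

theorem key3_of_key (h : S_key) : S_key3 := by
  intro l₁ l₂ l₃ M₁ M₂ M₃ hl1 hl2 hl3 hM1 hM2 hM3 hM
  have h1 := key_l h l₁ ((l₂ + l₃) / M₁) M₂ M₃ M₁ hl1 (by positivity) hM2 hM3 hM1 (by linarith)
  have h2 := key_l h l₂ ((l₃ + l₁) / M₂) M₃ M₁ M₂ hl2 (by positivity) hM3 hM1 hM2 (by linarith)
  have h3 := key_l h l₃ ((l₁ + l₂) / M₃) M₁ M₂ M₃ hl3 (by positivity) hM1 hM2 hM3 (by linarith)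
  have hE : Ek l₁ ((l₂ + l₃) / M₁) M₂ M₃ M₁ + Ek l₂ ((l₃ + l₁) / M₂) M₃ M₁ M₂ +
      Ek l₃ ((l₁ + l₂) / M₃) M₁ M₂ M₃ = 0 := by
    unfold Ek
    generalize π / √3 = s
    field_simp
    ring
  refine ⟨by linarith [h1.1, h2.1, h3.1], ?_⟩
  rintro (hn | hn | hn)
  · linarith [h1.2 hn, h2.1, h3.1]
  · linarith [h1.1, h2.2 hn, h3.1]
  · linarith [h1.1, h2.1, h3.2 hn]

end Pool.Agent.H97.OC
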