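import Pool.Agent.H97.OC.Stubs2

/-!
The analytic assembly statement.
-/

set_option autoImplicit false

open Set MeasureTheory Filter Topology
open scoped Real

namespace Pool.Agent.H97.OC

open Pool.Agent.H97.OB

/-- TRI13: the inequality on the leaf of 3-periodic orbits.
`f` is the map of tangent lines, `g` its derivative, `a` twice the area of the medial triangle. -/
def S_assemble : Prop := ∀ (p q ρ s u f g : ℝ → ℝ) (a : ℝ), Supp2 p q ρ →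
  Continuous u → Continuous g → (∀ θ, HasDerivAt s (u θ) θ) → (∀ θ, HasDerivAt f (g θ) θ) →
  (∀ θ, 0 < s θ) → (∀ θ, s (θ + 2 * π) = s θ) → (∀ θ, f (θ + 2 * π) = f θ + 2 * π) →
  (∀ θ, f (f (f θ)) = θ + 2 * π) →
  (∀ θ, θ + Real.arctan ((q θ + s θ) / p θ) =
    f θ + Real.arctan ((q (f θ) - s (f θ)) / p (f θ))) →
  (∀ θ, p θ ^ 2 + (q θ + s θ) ^ 2 = p (f θ) ^ 2 + (q (f θ) - s (f θ)) ^ 2) →
  0 < a → (∀ θ, 0 < g θ) → (∀ θ, g (f (f θ)) * (g (f θ) * g θ) = 1) →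
  (∀ θ, s θ ^ 2 = a * (ρ (f θ) * g θ / s (f θ) +
    ρ (f (f θ)) * (g (f θ) * g θ) / s (f (f θ)))) →
  (∀ θ, p θ * s θ + p (f θ) * s (f θ) + p (f (f θ)) * s (f (f θ)) = 2 * a) →
  (∀ θ, q θ * s θ + p θ * u θ =
    -(ρ (f θ) * g θ / s (f θ) * (a - p (f θ) * s (f θ)) -
      ρ (f (f θ)) * (g (f θ) * g θ) / s (f (f θ)) * (a - p (f (f θ)) * s (f (f θ))))) →
  (∫ θ in (0 : ℝ)..(2 * π), ρ θ * p θ) * (∫ θ in (0 : ℝ)..(2 * π), 1 / p θ ^ 2) ≤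
    4 * π ^ 2 →
  (∫ θ in (0 : ℝ)..(2 * π), Psi (p θ) (q θ) (ρ θ) (s θ)) ≤ 0 ∧
  (0 ≤ (∫ θ in (0 : ℝ)..(2 * π), Psi (p θ) (q θ) (ρ θ) (s θ)) → ∀ θ, p θ * s θ = 2 * a / 3)

end Pool.Agent.H97.OC
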