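import Pool.Agent.H97.OC.Three
import Pool.Agent.H97.OC.Stubs3

/-!
# Kinematics of the 3-periodic outer leaf
-/

set_option autoImplicit false

open Set Filter Topology Complex MeasureTheory
open scoped ContDiff Real ComplexConjugate

namespace Pool.Agent.H97.OC

open Pool.Agent.H97.OB

variable {γ : ℝ → ℂ} {ρ : ℝ → ℝ} {Y : ℂ → ℝ}

/-- a continuous function at bounded distance from the identity is onto -/
lemma surj_of_bdd {g : ℝ → ℝ} (hg : Continuous g) (M : ℝ) (hb : ∀ x, |g x - x| ≤ M) :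
    Function.Surjective g := by
  apply hg.surjective
  · refine tendsto_atTop.2 fun b => ?_
    filter_upwards [eventually_ge_atTop (b + M)] with x hx
    have := (abs_le.1 (hb x)).1
    linarith
  · refine tendsto_atBot.2 fun b => ?_
    filter_upwards [eventually_le_atBot (b - M)] with x hx
    have := (abs_le.1 (hb x)).2
    linarith

/-- the determinant -/
noncomputable def om (z w : ℂ) : ℝ := (conj z * w).im

lemma om_eq (z w : ℂ) : om z w = z.re * w.im - z.im * w.re := by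
  unfold om; simp [mul_im]; ring

/-- derivative of the angle of the forward point -/
noncomputable def a2d (γ : ℝ → ℂ) (ρ : ℝ → ℝ) (Y : ℂ → ℝ) (θ : ℝ) : ℝ :=
  (sp γ θ * ρ θ + S γ Y 1 θ ^ 2 + (sp γ θ * Sit.Su γ ρ Y 1 θ + sq γ θ * S γ Y 1 θ)) /
      (sp γ θ ^ 2 + (sq γ θ + S γ Y 1 θ) ^ 2)

/-- derivative of the angle of the backward point -/
noncomputable def a1d (γ : ℝ → ℂ) (ρ : ℝ → ℝ) (Y : ℂ → ℝ) (θ : ℝ) : ℝ :=
  (sp γ θ * ρ θ + S γ Y 1 θ ^ 2 - (sp γ θ * Sit.Su γ ρ Y 1 θ + sq γ θ * S γ Y 1 θ)) /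
      (sp γ θ ^ 2 + (sq γ θ + -S γ Y 1 θ) ^ 2)

/-- derivative of the map of tangent lines -/
noncomputable def gF (γ : ℝ → ℂ) (ρ : ℝ → ℝ) (Y : ℂ → ℝ) (θ : ℝ) : ℝ :=
  (a1d γ ρ Y (F γ Y 1 θ))⁻¹ * a2d γ ρ Y θ

/-- the half side -/
noncomputable def ee (γ : ℝ → ℂ) (Y : ℂ → ℝ) (θ : ℝ) : ℂ := (S γ Y 1 θ : ℂ) * tang θ

namespace Sit

lemma cont_sp (h : Sit γ ρ Y) : Continuous (sp γ) :=
  continuous_iff_continuousAt.2 fun θ => (h.supp.dp θ).continuousAt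

lemma cont_sq (h : Sit γ ρ Y) : Continuous (sq γ) :=
  continuous_iff_continuousAt.2 fun θ => (h.supp.dq θ).continuousAt

section refl

variable (h : Sit γ ρ Y) (hr : ∀ θ, SigmaReflection γ Y θ)
include h hr

lemma a2_deriv (θ : ℝ) : HasDerivAt (a2 γ Y 1) (a2d γ ρ Y θ) θ := by
  have hd := hopf_arctan (r := fun θ => sq γ θ + S γ Y 1 θ)
    (u := fun θ => ρ θ - sp γ θ + Su γ ρ Y 1 θ) h.supp.ppos h.supp.dp
    (fun θ => (h.supp.dq θ).add (h.S_deriv_right one_pos le_rfl θ)) θ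
  have hp := h.supp.ppos θ
  have hn : 0 < sp γ θ ^ 2 + (sq γ θ + S γ Y 1 θ) ^ 2 := by positivity
  refine hd.congr_deriv ?_
  unfold a2d
  field_simp
  ring

lemma a1_deriv (θ : ℝ) : HasDerivAt (a1 γ Y 1) (a1d γ ρ Y θ) θ := by
  have hd := hopf_arctan (r := fun θ => sq γ θ + -S γ Y 1 θ)
    (u := fun θ => ρ θ - sp γ θ + -Su γ ρ Y 1 θ) h.supp.ppos h.supp.dp
    (fun θ => (h.supp.dq θ).add (h.S_deriv_right one_pos le_rfl θ).neg) θ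
  have hp := h.supp.ppos θ
  have hn : 0 < sp γ θ ^ 2 + (sq γ θ + -S γ Y 1 θ) ^ 2 := by positivity
  refine hd.congr_deriv ?_
  unfold a1d
  field_simp
  ring

lemma a2d_pos (θ : ℝ) : 0 < a2d γ ρ Y θ := by
  obtain ⟨-, -, k3, -⟩ := h.ab_pos hr one_pos le_rfl θ
  have hp := h.supp.ppos θ
  unfold a2d
  positivity

lemma a1d_pos (θ : ℝ) : 0 < a1d γ ρ Y θ := by
  obtain ⟨-, -, -, k3⟩ := h.ab_pos hr one_pos le_rfl θ
  have hp := h.supp.ppos θ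
  unfold a1d
  positivity

lemma gF_pos (θ : ℝ) : 0 < gF γ ρ Y θ :=
  mul_pos (inv_pos.2 (h.a1d_pos hr _)) (h.a2d_pos hr θ)

lemma F_deriv (θ : ℝ) : HasDerivAt (F γ Y 1) (gF γ ρ Y θ) θ := by
  have hmono := h.a1_strictMono hr one_pos le_rfl
  have hc : Continuous (a1 γ Y 1) :=
    continuous_iff_continuousAt.2 fun θ => (h.a1_deriv hr θ).continuousAt
  have hsurj : Function.Surjective (a1 γ Y 1) := by
    refine surj_of_bdd hc (π / 2) fun x => ?_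
    unfold a1
    rw [add_sub_cancel_left, abs_le]
    exact ⟨(Real.neg_pi_div_two_lt_arctan _).le, (Real.arctan_lt_pi_div_two _).le⟩
  let e : ℝ ≃o ℝ := StrictMono.orderIsoOfSurjective (a1 γ Y 1) hmono hsurj
  have hes : ∀ x, a1 γ Y 1 (e.symm x) = x := fun x => e.apply_symm_apply x
  have hF : F γ Y 1 = fun θ => e.symm (a2 γ Y 1 θ) := by
    funext x
    apply hmono.injective
    rw [hes, h.F_angle hr one_pos le_rfl]
  have h1 : HasDerivAt e.symm (a1d γ ρ Y (F γ Y 1 θ))⁻¹ (a2 γ Y 1 θ) := by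
    refine HasDerivAt.of_local_left_inverse (f := a1 γ Y 1)
      (OrderIso.continuous e.symm).continuousAt ?_ (h.a1d_pos hr _).ne'
      (Eventually.of_forall hes)
    have : e.symm (a2 γ Y 1 θ) = F γ Y 1 θ := by rw [hF]
    rw [this]
    exact h.a1_deriv hr _
  rw [hF]
  have := h1.comp θ (h.a2_deriv hr θ)
  refine this.congr_deriv ?_
  unfold gF
  rw [hF]

lemma F_cont : Continuous (F γ Y 1) :=
  continuous_iff_continuousAt.2 fun θ => (h.F_deriv hr θ).continuousAt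

lemma gF_cont : Continuous (gF γ ρ Y) := by
  have c1 := h.cont_sp
  have c2 := h.cont_sq
  have c3 := h.S_cont one_pos le_rfl
  have c4 := h.Su_cont one_pos le_rfl
  have c5 := h.oval.cont
  have c6 := h.F_cont hr
  have hd2 : Continuous (a2d γ ρ Y) := by
    unfold a2d
    refine Continuous.div (by fun_prop) (by fun_prop) fun θ => ?_
    have := h.supp.ppos θ
    positivity
  have hd1 : Continuous (a1d γ ρ Y) := by
    unfold a1d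
    refine Continuous.div (by fun_prop) (by fun_prop) fun θ => ?_
    have := h.supp.ppos θ
    positivity
  unfold gF
  exact (Continuous.inv₀ (hd1.comp c6) fun θ => (h.a1d_pos hr _).ne').mul hd2

/-- consecutive tangency points -/
lemma c1 (θ : ℝ) : γ θ + ee γ Y θ = γ (F γ Y 1 θ) - ee γ Y (F γ Y 1 θ) := by
  have := (h.F_spec hr one_pos le_rfl θ).2.2
  unfold P at this
  unfold ee
  rw [this]
  push_cast
  ring

lemma ee_per (θ : ℝ) : ee γ Y (θ + 2 * π) = ee γ Y θ := by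
  unfold ee; rw [h.S_periodic, tang_periodic]

end refl

section three

variable (h : Sit γ ρ Y) (hr : ∀ θ, SigmaReflection γ Y θ) (h3 : OuterLeafThreePeriodic γ Y)
include h hr h3

lemma c3 (θ : ℝ) : γ (F γ Y 1 (F γ Y 1 θ)) + ee γ Y (F γ Y 1 (F γ Y 1 θ)) =
    γ θ - ee γ Y θ := by
  have := h.c1 hr (F γ Y 1 (F γ Y 1 θ))
  rw [h.F_three hr h3, h.oval.per, h.ee_per hr] at this
  exact this

lemma ee_sum (θ : ℝ) : ee γ Y θ + ee γ Y (F γ Y 1 θ) + ee γ Y (F γ Y 1 (F γ Y 1 θ)) = 0 := by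
  have e1 := h.c1 hr θ
  have e2 := h.c1 hr (F γ Y 1 θ)
  have e3 := h.c3 hr h3 θ
  linear_combination (1 / 2 : ℂ) * e1 + (1 / 2 : ℂ) * e2 + (1 / 2 : ℂ) * e3

lemma F2_deriv (θ : ℝ) : HasDerivAt (fun θ => F γ Y 1 (F γ Y 1 θ))
    (gF γ ρ Y (F γ Y 1 θ) * gF γ ρ Y θ) θ :=
  HasDerivAt.comp θ (h.F_deriv hr _) (h.F_deriv hr θ)

lemma ggg (θ : ℝ) :
    gF γ ρ Y (F γ Y 1 (F γ Y 1 θ)) * (gF γ ρ Y (F γ Y 1 θ) * gF γ ρ Y θ) = 1 := by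
  have h1 := HasDerivAt.comp θ (h.F_deriv hr (F γ Y 1 (F γ Y 1 θ))) (h.F2_deriv hr h3 θ)
  have h2 : (F γ Y 1 ∘ fun θ => F γ Y 1 (F γ Y 1 θ)) = fun θ => θ + 2 * π :=
    funext fun θ => h.F_three hr h3 θ
  rw [h2] at h1
  exact h1.unique ((hasDerivAt_id θ).add_const _)

omit h3 in
lemma ee_deriv (θ : ℝ) :
    HasDerivAt (ee γ Y) ((Su γ ρ Y 1 θ : ℂ) * tang θ - S γ Y 1 θ * exp (θ * I)) θ := by
  have e1 : HasDerivAt (fun θ => (S γ Y 1 θ : ℂ)) (Su γ ρ Y 1 θ : ℂ) θ :=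
    (h.S_deriv_right one_pos le_rfl θ).ofReal_comp
  have := e1.mul (tang_hasDerivAt θ)
  exact this.congr_deriv (by ring)

/-- the derivative of the half side -/
lemma ee_eq (θ : ℝ) :
    (Su γ ρ Y 1 θ : ℂ) * tang θ - S γ Y 1 θ * exp (θ * I) =
      ((ρ (F γ Y 1 θ) * gF γ ρ Y θ / S γ Y 1 (F γ Y 1 θ) : ℝ) : ℂ) * ee γ Y (F γ Y 1 θ) -
      ((ρ (F γ Y 1 (F γ Y 1 θ)) * (gF γ ρ Y (F γ Y 1 θ) * gF γ ρ Y θ) /
        S γ Y 1 (F γ Y 1 (F γ Y 1 θ)) : ℝ) : ℂ) * ee γ Y (F γ Y 1 (F γ Y 1 θ)) := by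
  have hs2 : (S γ Y 1 (F γ Y 1 θ) : ℂ) ≠ 0 := by
    exact_mod_cast (h.S_spec one_pos le_rfl _).1.ne'
  have hs3 : (S γ Y 1 (F γ Y 1 (F γ Y 1 θ)) : ℂ) ≠ 0 := by
    exact_mod_cast (h.S_spec one_pos le_rfl _).1.ne'
  have hfun : ee γ Y = fun θ => γ (F γ Y 1 θ) - γ (F γ Y 1 (F γ Y 1 θ)) := by
    funext x
    have e1 := h.ee_sum hr h3 x
    have e2 := h.c1 hr (F γ Y 1 x)
    linear_combination e1 - e2
  have d1 : HasDerivAt (fun θ => γ (F γ Y 1 θ))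
      ((ρ (F γ Y 1 θ) * tang (F γ Y 1 θ)) * (gF γ ρ Y θ : ℂ)) θ := by
    have := HasDerivAt.scomp θ (h.oval.deriv (F γ Y 1 θ)) (h.F_deriv hr θ)
    refine this.congr_deriv ?_
    rw [real_smul]; ring
  have d2 : HasDerivAt (fun θ => γ (F γ Y 1 (F γ Y 1 θ)))
      ((ρ (F γ Y 1 (F γ Y 1 θ)) * tang (F γ Y 1 (F γ Y 1 θ))) *
        ((gF γ ρ Y (F γ Y 1 θ) * gF γ ρ Y θ : ℝ) : ℂ)) θ := by
    have := HasDerivAt.scomp θ (h.oval.deriv (F γ Y 1 (F γ Y 1 θ))) (h.F2_deriv hr h3 θ)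
    refine this.congr_deriv ?_
    rw [real_smul]; ring
  have d3 := d1.sub d2
  have d4 := h.ee_deriv hr θ
  rw [hfun] at d4
  have := d4.unique d3
  rw [this]
  unfold ee
  push_cast
  field_simp

/-- the area -/
noncomputable def A1 (γ : ℝ → ℂ) (Y : ℂ → ℝ) (θ : ℝ) : ℝ := om (ee γ Y θ) (ee γ Y (F γ Y 1 θ))

omit h hr h3 in
lemma om_lin (z w v : ℂ) (a b : ℝ) : om z (a * w - b * v) = a * om z w - b * om z v := by
  simp only [om_eq, sub_re, sub_im, mul_re, mul_im, ofReal_re, ofReal_im]; ring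

omit h hr h3 in
lemma om_lin' (z w v : ℂ) (a b : ℝ) : om (a * w - b * v) z = a * om w z - b * om v z := by
  simp only [om_eq, sub_re, sub_im, mul_re, mul_im, ofReal_re, ofReal_im]; ring

omit h hr h3 in
lemma om_self (z : ℂ) : om z z = 0 := by rw [om_eq]; ring

omit h hr h3 in
lemma om_swap (z w : ℂ) : om z w = -om w z := by rw [om_eq, om_eq]; ring

omit h hr h3 in
lemma om_hasDerivAt {z w : ℝ → ℂ} {z' w' : ℂ} {θ : ℝ} (hz : HasDerivAt z z' θ)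
    (hw : HasDerivAt w w' θ) :
    HasDerivAt (fun θ => om (z θ) (w θ)) (om z' (w θ) + om (z θ) w') θ := by
  have hzr : HasDerivAt (fun θ => (z θ).re) z'.re θ :=
    HasFDerivAt.comp_hasDerivAt θ reCLM.hasFDerivAt hz
  have hzi : HasDerivAt (fun θ => (z θ).im) z'.im θ :=
    HasFDerivAt.comp_hasDerivAt θ imCLM.hasFDerivAt hz
  have hwr : HasDerivAt (fun θ => (w θ).re) w'.re θ :=
    HasFDerivAt.comp_hasDerivAt θ reCLM.hasFDerivAt hw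
  have hwi : HasDerivAt (fun θ => (w θ).im) w'.im θ :=
    HasFDerivAt.comp_hasDerivAt θ imCLM.hasFDerivAt hw
  simp only [om_eq]
  refine ((hzr.mul hwi).sub (hzi.mul hwr)).congr_deriv ?_
  ring

lemma om31 (θ : ℝ) : om (ee γ Y θ) (ee γ Y (F γ Y 1 (F γ Y 1 θ))) = -A1 γ Y θ := by
  have e : ee γ Y (F γ Y 1 (F γ Y 1 θ)) = -ee γ Y θ - ee γ Y (F γ Y 1 θ) := by
    linear_combination h.ee_sum hr h3 θ
  rw [e, A1]
  simp only [om_eq, sub_re, sub_im, neg_re, neg_im]; ring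

lemma om23 (θ : ℝ) : om (ee γ Y (F γ Y 1 θ)) (ee γ Y (F γ Y 1 (F γ Y 1 θ))) = A1 γ Y θ := by
  have e : ee γ Y (F γ Y 1 (F γ Y 1 θ)) = -ee γ Y θ - ee γ Y (F γ Y 1 θ) := by
    linear_combination h.ee_sum hr h3 θ
  rw [e, A1]
  simp only [om_eq, sub_re, sub_im, neg_re, neg_im]; ring

lemma A1_deriv (θ : ℝ) : HasDerivAt (A1 γ Y) 0 θ := by
  have d1 := h.ee_deriv hr θ
  rw [h.ee_eq hr h3 θ] at d1
  have d2 : HasDerivAt (fun θ => ee γ Y (F γ Y 1 θ)) _ θ :=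
    HasDerivAt.scomp θ (h.ee_deriv hr (F γ Y 1 θ)) (h.F_deriv hr θ)
  rw [h.ee_eq hr h3 (F γ Y 1 θ), h.F_three hr h3, h.ee_per hr, h.S_periodic,
    show ρ (θ + 2 * π) = ρ θ from h.supp.rp θ] at d2
  have d3 := om_hasDerivAt d1 d2
  refine d3.congr_deriv ?_
  have e1 := h.om31 hr h3 θ
  have e2 := h.om23 hr h3 θ
  have e3 : om (ee γ Y θ) (ee γ Y (F γ Y 1 θ)) = A1 γ Y θ := rfl
  have hg := h.ggg hr h3 θ
  rw [om_lin', om_self, om_swap (ee γ Y (F γ Y 1 (F γ Y 1 θ))), e2, real_smul]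
  have e5 : ((gF γ ρ Y θ : ℝ) : ℂ) *
      ((((ρ (F γ Y 1 (F γ Y 1 θ)) * gF γ ρ Y (F γ Y 1 θ) /
        S γ Y 1 (F γ Y 1 (F γ Y 1 θ)) : ℝ) : ℂ)) * ee γ Y (F γ Y 1 (F γ Y 1 θ)) -
      ((ρ θ * (gF γ ρ Y (F γ Y 1 (F γ Y 1 θ)) * gF γ ρ Y (F γ Y 1 θ)) / S γ Y 1 θ : ℝ) : ℂ) *
        ee γ Y θ) =
      ((gF γ ρ Y θ * (ρ (F γ Y 1 (F γ Y 1 θ)) * gF γ ρ Y (F γ Y 1 θ) /
        S γ Y 1 (F γ Y 1 (F γ Y 1 θ))) : ℝ) : ℂ) * ee γ Y (F γ Y 1 (F γ Y 1 θ)) -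
      ((gF γ ρ Y θ * (ρ θ * (gF γ ρ Y (F γ Y 1 (F γ Y 1 θ)) * gF γ ρ Y (F γ Y 1 θ)) /
        S γ Y 1 θ) : ℝ) : ℂ) * ee γ Y θ := by
    push_cast; ring
  rw [e5, om_lin, om_self, e1]
  ring

lemma A1_const (θ : ℝ) : A1 γ Y θ = A1 γ Y 0 :=
  is_const_of_deriv_eq_zero (fun θ => (h.A1_deriv hr h3 θ).differentiableAt)
    (fun θ => (h.A1_deriv hr h3 θ).deriv) θ 0

omit h3 in
lemma A1_eq (θ : ℝ) : A1 γ Y θ =
    S γ Y 1 θ * S γ Y 1 (F γ Y 1 θ) * Real.sin (F γ Y 1 θ - θ) := by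
  unfold A1 ee om tang
  have e : conj ((S γ Y 1 θ : ℂ) * (I * exp (θ * I))) *
      ((S γ Y 1 (F γ Y 1 θ) : ℂ) * (I * exp ((F γ Y 1 θ : ℝ) * I))) =
      ((S γ Y 1 θ * S γ Y 1 (F γ Y 1 θ) : ℝ) : ℂ) *
        exp (((F γ Y 1 θ - θ : ℝ) : ℂ) * I) := by
    rw [map_mul, map_mul, conj_ofReal, conj_I, ← exp_conj, map_mul, conj_ofReal, conj_I]
    have : exp (((F γ Y 1 θ - θ : ℝ) : ℂ) * I) =
        exp (θ * -I) * exp ((F γ Y 1 θ : ℝ) * I) := by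
      rw [← exp_add]; congr 1; push_cast; ring
    rw [this]
    push_cast
    linear_combination (-(S γ Y 1 θ : ℂ) * (S γ Y 1 (F γ Y 1 θ) : ℂ) * exp (θ * -I) *
      exp ((F γ Y 1 θ : ℝ) * I)) * I_mul_I
  rw [e, im_ofReal_mul, exp_ofReal_mul_I_im]

omit h3 in
lemma A1_pos (θ : ℝ) : 0 < A1 γ Y θ := by
  rw [h.A1_eq hr]
  have f := h.F_spec hr one_pos le_rfl θ
  exact mul_pos (mul_pos (h.S_spec one_pos le_rfl _).1 (h.S_spec one_pos le_rfl _).1)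
    (Real.sin_pos_of_pos_of_lt_pi (by linarith [f.1]) (by linarith [f.2.1]))

omit h3 in
/-- the `p s` as determinant -/
lemma om_gam (θ : ℝ) : om (γ θ) (ee γ Y θ) = sp γ θ * S γ Y 1 θ := by
  unfold ee om tang
  have e : conj (γ θ) * ((S γ Y 1 θ : ℂ) * (I * exp (θ * I))) =
      (S γ Y 1 θ : ℂ) * (I * conj (γ θ * exp (-(θ * I)))) := by
    rw [map_mul, ← exp_conj, map_neg, map_mul, conj_ofReal, conj_I]
    have : -((θ : ℂ) * -I) = θ * I := by ring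
    rw [this]; ring
  rw [e, im_ofReal_mul]
  have : (I * conj (γ θ * exp (-(θ * I)))).im = sp γ θ := by
    rw [mul_im, I_re, I_im, conj_re]
    unfold sp; ring
  rw [this]; ring

omit h3 in
/-- the tangent direction against its derivative -/
lemma om_ee_deriv (θ : ℝ) :
    om (ee γ Y θ) ((Su γ ρ Y 1 θ : ℂ) * tang θ - S γ Y 1 θ * exp (θ * I)) = S γ Y 1 θ ^ 2 := by
  unfold ee om
  have e : conj ((S γ Y 1 θ : ℂ) * tang θ) *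
      ((Su γ ρ Y 1 θ : ℂ) * tang θ - S γ Y 1 θ * exp (θ * I)) =
      ((S γ Y 1 θ * Su γ ρ Y 1 θ : ℝ) : ℂ) + ((S γ Y 1 θ ^ 2 : ℝ) : ℂ) * I := by
    unfold tang
    rw [map_mul, map_mul, conj_ofReal, conj_I, ← exp_conj, map_mul, conj_ofReal, conj_I]
    have h1 : exp ((θ : ℂ) * -I) * exp (θ * I) = 1 := by rw [← exp_add]; simp
    push_cast
    linear_combination (-(S γ Y 1 θ : ℂ) * (Su γ ρ Y 1 θ : ℂ) * I ^ 2 +
      (S γ Y 1 θ : ℂ) ^ 2 * I) * h1 - ((S γ Y 1 θ : ℂ) * (Su γ ρ Y 1 θ : ℂ)) * I_sq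
  rw [e, add_im, ofReal_im, im_ofReal_mul, I_im]
  ring

lemma k3 (θ : ℝ) : S γ Y 1 θ ^ 2 = A1 γ Y 0 *
    (ρ (F γ Y 1 θ) * gF γ ρ Y θ / S γ Y 1 (F γ Y 1 θ) +
      ρ (F γ Y 1 (F γ Y 1 θ)) * (gF γ ρ Y (F γ Y 1 θ) * gF γ ρ Y θ) /
        S γ Y 1 (F γ Y 1 (F γ Y 1 θ))) := by
  have e := h.om_ee_deriv hr θ
  rw [h.ee_eq hr h3 θ, om_lin, h.om31 hr h3 θ] at e
  have e3 : om (ee γ Y θ) (ee γ Y (F γ Y 1 θ)) = A1 γ Y θ := rfl
  rw [e3, h.A1_const hr h3 θ] at e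
  linarith

lemma om12 (θ : ℝ) : om (γ θ) (ee γ Y (F γ Y 1 θ)) =
    sp γ (F γ Y 1 θ) * S γ Y 1 (F γ Y 1 θ) - A1 γ Y 0 := by
  have e1 := h.c1 hr θ
  have e2 : γ θ = γ (F γ Y 1 θ) - ee γ Y (F γ Y 1 θ) - ee γ Y θ := by
    linear_combination e1
  rw [← h.om_gam hr (F γ Y 1 θ), ← h.A1_const hr h3 θ, e2, A1]
  simp only [om_eq, sub_re, sub_im]; ring

lemma om13 (θ : ℝ) : om (γ θ) (ee γ Y (F γ Y 1 (F γ Y 1 θ))) =
    sp γ (F γ Y 1 (F γ Y 1 θ)) * S γ Y 1 (F γ Y 1 (F γ Y 1 θ)) - A1 γ Y 0 := by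
  have e1 := h.c3 hr h3 θ
  have e2 : γ θ = γ (F γ Y 1 (F γ Y 1 θ)) + ee γ Y (F γ Y 1 (F γ Y 1 θ)) + ee γ Y θ := by
    linear_combination -e1
  have e3 := h.om31 hr h3 θ
  rw [← h.om_gam hr (F γ Y 1 (F γ Y 1 θ)), ← h.A1_const hr h3 θ, e2]
  rw [om_eq] at e3
  simp only [om_eq, add_re, add_im]
  linarith

lemma k4 (θ : ℝ) : sp γ θ * S γ Y 1 θ + sp γ (F γ Y 1 θ) * S γ Y 1 (F γ Y 1 θ) +
    sp γ (F γ Y 1 (F γ Y 1 θ)) * S γ Y 1 (F γ Y 1 (F γ Y 1 θ)) = 2 * A1 γ Y 0 := by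
  have e1 := h.om12 hr h3 θ
  have e2 := h.om13 hr h3 θ
  have e3 := h.om_gam hr θ
  have e4 := h.ee_sum hr h3 θ
  have e5 : om (γ θ) (ee γ Y θ + ee γ Y (F γ Y 1 θ) + ee γ Y (F γ Y 1 (F γ Y 1 θ))) = 0 := by
    rw [e4, om_eq]; simp
  have e6 : om (γ θ) (ee γ Y θ + ee γ Y (F γ Y 1 θ) + ee γ Y (F γ Y 1 (F γ Y 1 θ))) =
      om (γ θ) (ee γ Y θ) + om (γ θ) (ee γ Y (F γ Y 1 θ)) +
        om (γ θ) (ee γ Y (F γ Y 1 (F γ Y 1 θ))) := by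
    simp only [om_eq, add_re, add_im]; ring
  linarith

lemma k5 (θ : ℝ) : sq γ θ * S γ Y 1 θ + sp γ θ * Su γ ρ Y 1 θ =
    -(ρ (F γ Y 1 θ) * gF γ ρ Y θ / S γ Y 1 (F γ Y 1 θ) *
        (A1 γ Y 0 - sp γ (F γ Y 1 θ) * S γ Y 1 (F γ Y 1 θ)) -
      ρ (F γ Y 1 (F γ Y 1 θ)) * (gF γ ρ Y (F γ Y 1 θ) * gF γ ρ Y θ) /
        S γ Y 1 (F γ Y 1 (F γ Y 1 θ)) *
        (A1 γ Y 0 - sp γ (F γ Y 1 (F γ Y 1 θ)) * S γ Y 1 (F γ Y 1 (F γ Y 1 θ)))) := by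
  have d1 : HasDerivAt (fun θ => sp γ θ * S γ Y 1 θ)
      (sq γ θ * S γ Y 1 θ + sp γ θ * Su γ ρ Y 1 θ) θ :=
    (h.supp.dp θ).mul (h.S_deriv_right one_pos le_rfl θ)
  have d2 := h.ee_deriv hr θ
  rw [h.ee_eq hr h3 θ] at d2
  have d3 := om_hasDerivAt (h.oval.deriv θ) d2
  have hf : (fun θ => om (γ θ) (ee γ Y θ)) = fun θ => sp γ θ * S γ Y 1 θ :=
    funext fun θ => h.om_gam hr θ
  rw [hf] at d3
  have e := d1.unique d3
  rw [om_lin, h.om12 hr h3, h.om13 hr h3] at e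
  have e0 : om (ρ θ * tang θ) (ee γ Y θ) = 0 := by
    unfold ee
    simp only [om_eq, mul_re, mul_im, ofReal_re, ofReal_im]; ring
  rw [e0] at e
  linarith

/-- the inequality on the outer leaf -/
theorem outer_ineq (hA : S_assemble)
    (hBS : (∫ θ in (0 : ℝ)..(2 * π), ρ θ * sp γ θ) *
      (∫ θ in (0 : ℝ)..(2 * π), 1 / sp γ θ ^ 2) ≤ 4 * π ^ 2) :
    (∫ θ in (0 : ℝ)..(2 * π), Psi (sp γ θ) (sq γ θ) (ρ θ) (S γ Y 1 θ)) ≤ 0 ∧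
    (0 ≤ (∫ θ in (0 : ℝ)..(2 * π), Psi (sp γ θ) (sq γ θ) (ρ θ) (S γ Y 1 θ)) →
      ∀ θ, sp γ θ * S γ Y 1 θ = 2 * A1 γ Y 0 / 3) := by
  refine hA (sp γ) (sq γ) ρ (S γ Y 1) (Su γ ρ Y 1) (F γ Y 1) (gF γ ρ Y) (A1 γ Y 0) h.supp
    (h.Su_cont one_pos le_rfl) (h.gF_cont hr) (fun θ => h.S_deriv_right one_pos le_rfl θ)
    (h.F_deriv hr) (fun θ => (h.S_spec one_pos le_rfl θ).1) (fun θ => h.S_periodic 1 θ)
    (h.F_per hr one_pos le_rfl) (h.F_three hr h3) ?_ ?_ (h.A1_pos hr 0) (h.gF_pos hr)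
    (h.ggg hr h3) (h.k3 hr h3) (h.k4 hr h3) (h.k5 hr h3) hBS
  · intro θ
    have := h.F_angle hr one_pos le_rfl θ
    unfold a1 a2 at this
    rw [this, sub_eq_add_neg]
  · intro θ
    have e := (h.F_spec hr one_pos le_rfl θ).2.2
    have e2 := congrArg (fun z => ‖z‖ ^ 2) e
    simp only [norm_P_sq] at e2
    rw [e2, sub_eq_add_neg]

end three

end Sit

end Pool.Agent.H97.OC
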