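import Pool.Agent.H97.OC.Stubs

/-! OC3: the integral of a closed form over a loop. -/

set_option autoImplicit false

open Set MeasureTheory Filter Topology
open scoped Real

namespace Pool.Agent.H97.OC

theorem loop : S_loop := by
  intro D P Q Px Py Qy x y x' y' T hD hconv hPx hPy hQy hP hQ hx' hy' hx hy hmem hxT hyT
  let ω : ℝ × ℝ → (ℝ × ℝ →L[ℝ] ℝ) := fun v =>
    P v • ContinuousLinearMap.fst ℝ ℝ ℝ + Q v • ContinuousLinearMap.snd ℝ ℝ ℝ
  let dω : ℝ × ℝ → (ℝ × ℝ →L[ℝ] ℝ × ℝ →L[ℝ] ℝ) := fun v =>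
    (Px v • ContinuousLinearMap.fst ℝ ℝ ℝ + Py v • ContinuousLinearMap.snd ℝ ℝ ℝ).smulRight
      (ContinuousLinearMap.fst ℝ ℝ ℝ) +
    (Py v • ContinuousLinearMap.fst ℝ ℝ ℝ + Qy v • ContinuousLinearMap.snd ℝ ℝ ℝ).smulRight
      (ContinuousLinearMap.snd ℝ ℝ ℝ)
  have hω : ∀ v ∈ D, HasFDerivAt ω (dω v) v := by
    intro v hv
    exact ((hP v hv).smul_const (ContinuousLinearMap.fst ℝ ℝ ℝ)).add
      ((hQ v hv).smul_const (ContinuousLinearMap.snd ℝ ℝ ℝ))
  obtain ⟨f, hf⟩ := hconv.exists_forall_hasFDerivWithinAt_of_hasFDerivWithinAt_symmetric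
    (ω := ω) (dω := dω) (fun v hv => (hω v hv).hasFDerivWithinAt) (by
      intro a _ v _ w _
      simp only [dω, add_apply, ContinuousLinearMap.smulRight_apply,
        smul_apply, ContinuousLinearMap.coe_fst', ContinuousLinearMap.coe_snd',
        smul_eq_mul]
      ring)
  have hf' : ∀ v ∈ D, HasFDerivAt f (ω v) v := fun v hv =>
    (hf v hv).hasFDerivAt (hD.mem_nhds hv)
  have hder : ∀ t, HasDerivAt (fun t => f (x t, y t)) (P (x t, y t) * x' t + Q (x t, y t) * y' t) t := by
    intro t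
    have h1 : HasDerivAt (fun t => (x t, y t)) (x' t, y' t) t := (hx t).prodMk (hy t)
    have h2 := (hf' _ (hmem t)).comp_hasDerivAt t h1
    refine h2.congr_deriv ?_
    simp only [ω, add_apply, smul_apply,
      ContinuousLinearMap.coe_fst', ContinuousLinearMap.coe_snd', smul_eq_mul]
  have hc : Continuous (fun t => (x t, y t)) :=
    (continuous_iff_continuousAt.2 fun t => (hx t).continuousAt).prodMk
      (continuous_iff_continuousAt.2 fun t => (hy t).continuousAt)
  have hPc : Continuous (fun t => P (x t, y t)) := continuous_iff_continuousAt.2 fun t =>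
    (hP _ (hmem t)).continuousAt.comp (f := fun t => (x t, y t)) hc.continuousAt
  have hQc : Continuous (fun t => Q (x t, y t)) := continuous_iff_continuousAt.2 fun t =>
    (hQ _ (hmem t)).continuousAt.comp (f := fun t => (x t, y t)) hc.continuousAt
  rw [intervalIntegral.integral_eq_sub_of_hasDerivAt (fun t _ => hder t)
    (((hPc.mul hx').add (hQc.mul hy')).intervalIntegrable _ _), hxT, hyT, sub_self]

end Pool.Agent.H97.OC
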