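import Pool.Agent.H97.OC.Fin
import Pool.Agent.H97.OC.Key
import Pool.Agent.H97.OC.Key3
import Pool.Agent.H97.OC.Loop
import Pool.Agent.H97.OC.E1
import Pool.Agent.H97.OC.E2
import Pool.Agent.H97.OC.G
import Pool.Agent.H97.OC.SuppIneq
import Pool.Agent.H97.OC.Sector
import Pool.Agent.H97.OC.Equi
import Pool.Agent.H97.OC.BS
import Pool.Agent.H97.OC.Assemble

/-!
# Outer billiards: rigidity of collars up to the leaf of 3-periodic orbits
-/

set_option autoImplicit false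

open Set

namespace Pool.Agent.H97.OC

open Pool.Agent.H97.OB

theorem outer_rigidity {γ : ℝ → ℂ} {ρ : ℝ → ℝ} {Y : ℂ → ℝ} (hγ : IsOval γ ρ)
    (hY : IsCollar γ Y) (hr : ∀ θ, SigmaReflection γ Y θ) (h3 : OuterLeafThreePeriodic γ Y) :
    ∃ (O : ℂ) (a b d : ℝ), 0 < a ∧ b ^ 2 < a * d ∧
      (∀ z : ℂ, z ∈ range γ ↔ a * (z - O).re ^ 2 + 2 * b * (z - O).re * (z - O).im +
        d * (z - O).im ^ 2 = 1) ∧
      ∀ c, 0 ≤ c → c ≤ 1 → ∃ l : ℝ, 1 ≤ l ∧
        ∀ z : ℂ, Y z = c ↔ a * (z - O).re ^ 2 + 2 * b * (z - O).re * (z - O).im +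
          d * (z - O).im ^ 2 = l :=
  three_rigidity (assemble (key3_of_key key) (g_of e1 (e2_of_loop loop)))
    (bs_of (sector supp_ineq) equi) hγ hY hr h3

end Pool.Agent.H97.OC
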