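import Mathlib

/-!
# Outer billiards: collar up to the leaf of 3-periodic orbits, no symmetry

Analytic data and statements of the analytic lemmas.
-/

set_option autoImplicit false

open Set MeasureTheory Filter Topology
open scoped Real

namespace Pool.Agent.H97.OC

/-- Support function `p` (with respect to an interior point), its derivative `q` and the radius
of curvature `ρ = p + p''` of an oval. -/
structure Supp2 (p q ρ : ℝ → ℝ) : Prop where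
  cont : Continuous ρ
  rpos : ∀ θ, 0 < ρ θ
  ppos : ∀ θ, 0 < p θ
  dp : ∀ θ, HasDerivAt p (q θ) θ
  dq : ∀ θ, HasDerivAt q (ρ θ - p θ) θ
  pp : ∀ θ, p (θ + 2 * π) = p θ
  qp : ∀ θ, q (θ + 2 * π) = q θ
  rp : ∀ θ, ρ (θ + 2 * π) = ρ θ

/-- OC1: the key inequality.  Write `s = π / √3`. -/
def S_key : Prop := ∀ x y z t : ℝ, 0 < x → 0 < y → 0 < z → x + y + z = 2 → 0 ≤ t →
  2 * t * Real.arctan t ≤
    (2 * (π / √3) / 3 - (π / √3 - 3 / 4) / 2 * z) * t ^ 2 +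
      ((2 * π / 3) * √(z * (1 / x ^ 2 + 1 / y ^ 2)) +
        (1 - z) / 2 * (Real.log (y / z) / x + Real.log (x / z) / y) -
        2 * (π / √3) / 3 * (1 / x + 1 / y) + (π / √3 - 3 / 4)) ∧
  (z ≠ 2 / 3 → 2 * t * Real.arctan t <
    (2 * (π / √3) / 3 - (π / √3 - 3 / 4) / 2 * z) * t ^ 2 +
      ((2 * π / 3) * √(z * (1 / x ^ 2 + 1 / y ^ 2)) +
        (1 - z) / 2 * (Real.log (y / z) / x + Real.log (x / z) / y) -
        2 * (π / √3) / 3 * (1 / x + 1 / y) + (π / √3 - 3 / 4)))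

/-- one summand of the right-hand side of OC2 -/
noncomputable def Rk (l x y z : ℝ) : ℝ :=
  (2 * π / 3) * (l * √(z * (1 / x ^ 2 + 1 / y ^ 2))) +
    l * (1 - z) / 2 * (Real.log (y / z) / x + Real.log (x / z) / y)

/-- OC2: the pointwise inequality for the three sides (weights `l₁ l₂ l₃`, barycentric data
`M₁ M₂ M₃`). -/
def S_key3 : Prop := ∀ l₁ l₂ l₃ M₁ M₂ M₃ : ℝ, 0 < l₁ → 0 < l₂ → 0 < l₃ → 0 < M₁ → 0 < M₂ →
  0 < M₃ → M₁ + M₂ + M₃ = 2 →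
  2 * √(l₁ * ((l₂ + l₃) / M₁)) * Real.arctan (√((l₂ + l₃) / M₁ / l₁)) +
    2 * √(l₂ * ((l₃ + l₁) / M₂)) * Real.arctan (√((l₃ + l₁) / M₂ / l₂)) +
    2 * √(l₃ * ((l₁ + l₂) / M₃)) * Real.arctan (√((l₁ + l₂) / M₃ / l₃)) ≤
    Rk l₁ M₂ M₃ M₁ + Rk l₂ M₃ M₁ M₂ + Rk l₃ M₁ M₂ M₃ ∧
  ((M₁ ≠ 2 / 3 ∨ M₂ ≠ 2 / 3 ∨ M₃ ≠ 2 / 3) →
  2 * √(l₁ * ((l₂ + l₃) / M₁)) * Real.arctan (√((l₂ + l₃) / M₁ / l₁)) +
    2 * √(l₂ * ((l₃ + l₁) / M₂)) * Real.arctan (√((l₃ + l₁) / M₂ / l₂)) +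
    2 * √(l₃ * ((l₁ + l₂) / M₃)) * Real.arctan (√((l₁ + l₂) / M₃ / l₃)) <
    Rk l₁ M₂ M₃ M₁ + Rk l₂ M₃ M₁ M₂ + Rk l₃ M₁ M₂ M₃)

/-- OC3: the integral of a closed form over a loop in a convex open set of the plane is zero. -/
def S_loop : Prop := ∀ (D : Set (ℝ × ℝ)) (P Q Px Py Qy : ℝ × ℝ → ℝ) (x y x' y' : ℝ → ℝ) (T : ℝ),
  IsOpen D → Convex ℝ D → ContinuousOn Px D → ContinuousOn Py D → ContinuousOn Qy D →
  (∀ v ∈ D, HasFDerivAt P (Px v • ContinuousLinearMap.fst ℝ ℝ ℝ +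
    Py v • ContinuousLinearMap.snd ℝ ℝ ℝ) v) →
  (∀ v ∈ D, HasFDerivAt Q (Py v • ContinuousLinearMap.fst ℝ ℝ ℝ +
    Qy v • ContinuousLinearMap.snd ℝ ℝ ℝ) v) →
  Continuous x' → Continuous y' → (∀ t, HasDerivAt x (x' t) t) → (∀ t, HasDerivAt y (y' t) t) →
  (∀ t, (x t, y t) ∈ D) → x T = x 0 → y T = y 0 →
  ∫ t in (0 : ℝ)..T, (P (x t, y t) * x' t + Q (x t, y t) * y' t) = 0

/-- OC4: the loop integral of `Re (log ζ d log (ζ - 1))`, `ζ = exp (a + i b)`, `0 < b < π`. -/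
def S_E1 : Prop := ∀ (a b a' b' : ℝ → ℝ) (T : ℝ),
  Continuous a' → Continuous b' → (∀ t, HasDerivAt a (a' t) t) → (∀ t, HasDerivAt b (b' t) t) →
  (∀ t, 0 < b t ∧ b t < π) → a T = a 0 → b T = b 0 →
  ∫ t in (0 : ℝ)..T,
    ((a t * (Real.exp (2 * a t) - Real.exp (a t) * Real.cos (b t)) +
        b t * (Real.exp (a t) * Real.sin (b t))) * a' t -
      (b t * (Real.exp (2 * a t) - Real.exp (a t) * Real.cos (b t)) -
        a t * (Real.exp (a t) * Real.sin (b t))) * b' t) /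
      (Real.exp (2 * a t) - 2 * Real.exp (a t) * Real.cos (b t) + 1) = 0

/-- OC5: the loop integral over the angles of a triangle. -/
def S_E2 : Prop := ∀ (x y x' y' : ℝ → ℝ) (T : ℝ),
  Continuous x' → Continuous y' → (∀ t, HasDerivAt x (x' t) t) → (∀ t, HasDerivAt y (y' t) t) →
  (∀ t, 0 < x t ∧ x t < π) → (∀ t, 0 < y t ∧ y t < π) →
  (∀ t, 0 < 2 * π - x t - y t ∧ 2 * π - x t - y t < π) → x T = x 0 → y T = y 0 →
  ∫ t in (0 : ℝ)..T,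
    (y t * x' t + Real.log (Real.sin (x t)) * (Real.cos (y t) / Real.sin (y t) * y' t) +
      Real.log (Real.sin (y t)) * (Real.cos (2 * π - x t - y t) / Real.sin (2 * π - x t - y t) *
        (-x' t - y' t)) +
      Real.log (Real.sin (2 * π - x t - y t)) * (Real.cos (x t) / Real.sin (x t) * x' t)) = 0

/-- OC6: evaluation of the boundary term.  `f` is the map of tangent lines of the leaf of
3-periodic orbits, `g` its derivative, `s` the tangent length, `u` its derivative. -/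
def S_G : Prop := ∀ (p q ρ s u f g : ℝ → ℝ), Supp2 p q ρ →
  Continuous u → Continuous g → (∀ θ, HasDerivAt s (u θ) θ) → (∀ θ, HasDerivAt f (g θ) θ) →
  (∀ θ, 0 < s θ) → (∀ θ, s (θ + 2 * π) = s θ) → (∀ θ, f (θ + 2 * π) = f θ + 2 * π) →
  (∀ θ, f (f (f θ)) = θ + 2 * π) →
  (∀ θ, θ + Real.arctan ((q θ + s θ) / p θ) =
    f θ + Real.arctan ((q (f θ) - s (f θ)) / p (f θ))) →
  (∀ θ, p θ ^ 2 + (q θ + s θ) ^ 2 = p (f θ) ^ 2 + (q (f θ) - s (f θ)) ^ 2) →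
  ∫ θ in (0 : ℝ)..(2 * π), (Real.arctan ((q θ + s θ) / p θ) - Real.arctan ((q θ - s θ) / p θ) +
      q θ / (2 * p θ) * Real.log ((p θ ^ 2 + (q θ + s θ) ^ 2) / (p θ ^ 2 + (q θ - s θ) ^ 2))) =
    4 * π ^ 2 / 3 - ∫ θ in (0 : ℝ)..(2 * π), Real.log (p θ * s θ) *
      ((q (f θ) * s (f θ) + p (f θ) * u (f θ)) / (p (f θ) * s (f θ)) * g θ)

/-- OC7: the support inequality. -/
def S_supp : Prop := ∀ (p q ρ : ℝ → ℝ), Supp2 p q ρ → ∀ t θ : ℝ,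
  p t * Real.cos (θ - t) + q t * Real.sin (θ - t) ≤ p θ

/-- OC8: the sector inequality.  `t + arctan (q t / p t)` is the polar angle of the boundary
point with normal angle `t`. -/
def S_sector : Prop := ∀ (p q ρ : ℝ → ℝ), Supp2 p q ρ → ∀ t₁ t₂ : ℝ,
  t₁ + Real.arctan (q t₁ / p t₁) < t₂ + Real.arctan (q t₂ / p t₂) →
  t₂ + Real.arctan (q t₂ / p t₂) < t₁ + Real.arctan (q t₁ / p t₁) + π →
  (∫ t in t₁..t₂, ρ t * p t) *
    (∫ θ in (t₂ + Real.arctan (q t₂ / p t₂) - π / 2)..(t₁ + Real.arctan (q t₁ / p t₁) + π / 2),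
      1 / p θ ^ 2) ≤ π ^ 2 / 4

/-- OC9: equipartition. -/
def S_equi : Prop := ∀ (γ : ℝ → ℂ) (ρ : ℝ → ℝ), Continuous ρ → (∀ θ, 0 < ρ θ) →
  (∀ θ, HasDerivAt γ (ρ θ * (Complex.I * Complex.exp (θ * Complex.I))) θ) →
  (∀ θ, γ (θ + 2 * π) = γ θ) →
  ∃ O : ℂ, (∀ θ : ℝ, 0 < ((γ θ - O) * Complex.exp (-(θ * Complex.I))).re) ∧
    ∃ t₁ t₂ t₃ t₄ k k' A : ℝ, t₁ < t₂ ∧ t₂ < t₃ ∧ t₃ < t₄ ∧ t₄ < t₁ + 2 * π ∧ 0 < k ∧ 0 < k' ∧
      γ t₃ - O = -(k * (γ t₁ - O)) ∧ γ t₄ - O = -(k' * (γ t₂ - O)) ∧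
      (∫ θ in t₁..t₂, ρ θ * ((γ θ - O) * Complex.exp (-(θ * Complex.I))).re) = A ∧
      (∫ θ in t₂..t₃, ρ θ * ((γ θ - O) * Complex.exp (-(θ * Complex.I))).re) = A ∧
      (∫ θ in t₃..t₄, ρ θ * ((γ θ - O) * Complex.exp (-(θ * Complex.I))).re) = A ∧
      (∫ θ in t₄..(t₁ + 2 * π), ρ θ * ((γ θ - O) * Complex.exp (-(θ * Complex.I))).re) = A

/-- OC10: the Blaschke-Santaló inequality in the plane. -/
def S_bs : Prop := ∀ (γ : ℝ → ℂ) (ρ : ℝ → ℝ), Continuous ρ → (∀ θ, 0 < ρ θ) →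
  (∀ θ, HasDerivAt γ (ρ θ * (Complex.I * Complex.exp (θ * Complex.I))) θ) →
  (∀ θ, γ (θ + 2 * π) = γ θ) →
  ∃ O : ℂ, (∀ θ : ℝ, 0 < ((γ θ - O) * Complex.exp (-(θ * Complex.I))).re) ∧
    (∫ θ in (0 : ℝ)..(2 * π), ρ θ * ((γ θ - O) * Complex.exp (-(θ * Complex.I))).re) *
      (∫ θ in (0 : ℝ)..(2 * π), 1 / ((γ θ - O) * Complex.exp (-(θ * Complex.I))).re ^ 2) ≤
      4 * π ^ 2

end Pool.Agent.H97.OC
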