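import Pool.Agent.H97.OB.Defs
import Pool.Agent.H97.OB.Ident
import Pool.Agent.H97.OB.DPsi
import Pool.Agent.H97.OC.Stubs

/-!
Statements for the collar argument, `2 π`-periodic version.
-/

set_option autoImplicit false

open Set MeasureTheory Filter Topology
open scoped Real

namespace Pool.Agent.H97.OC

open Pool.Agent.H97.OB

/-- OB3: the integrated identity on one leaf: `s` is the tangent length, `u = ∂s/∂θ`,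
`v = ∂s/∂c`, and `g` is the density of the leaf in the polar angle. -/
def S_hopf2 : Prop := ∀ (p q ρ s u v g : ℝ → ℝ), Supp2 p q ρ →
  Continuous u → Continuous v → Continuous g →
  (∀ θ, HasDerivAt s (u θ) θ) → (∀ θ, 0 < s θ) →
  (∀ θ, s (θ + 2 * π) = s θ) → (∀ θ, g (θ + 2 * π) = g θ) →
  (∀ θ, |p θ * u θ + q θ * s θ| < p θ * ρ θ + s θ ^ 2) →
  (∀ θ, (-(p θ * s θ) + (q θ + s θ) * (ρ θ + u θ)) /
        ((p θ ^ 2 + (q θ + s θ) ^ 2) * (p θ * ρ θ + s θ ^ 2 + (p θ * u θ + q θ * s θ))) *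
          (s θ * v θ) =
      g (θ + Real.arctan ((q θ + s θ) / p θ)) *
        ((p θ * ρ θ + s θ ^ 2 + (p θ * u θ + q θ * s θ)) / (p θ ^ 2 + (q θ + s θ) ^ 2))) →
  (∀ θ, (p θ * s θ + (q θ - s θ) * (ρ θ - u θ)) /
        ((p θ ^ 2 + (q θ - s θ) ^ 2) * (p θ * ρ θ + s θ ^ 2 - (p θ * u θ + q θ * s θ))) *
          (s θ * v θ) =
      g (θ + Real.arctan ((q θ - s θ) / p θ)) *
        ((p θ * ρ θ + s θ ^ 2 - (p θ * u θ + q θ * s θ)) / (p θ ^ 2 + (q θ - s θ) ^ 2))) →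
  ∫ θ in (0 : ℝ)..(2 * π), QQ (p θ) (q θ) (ρ θ) (s θ) * (s θ * v θ) =
    ∫ θ in (0 : ℝ)..(2 * π), NN (p θ) (ρ θ) (s θ) (p θ * u θ + q θ * s θ) * (s θ * v θ)

/-- OB4: monotonicity of `c ↦ ∫ Psi(θ, σ(c, θ)) dθ` and the equality case. -/
def S_mono2 : Prop := ∀ (p q ρ : ℝ → ℝ) (σ v : ℝ → ℝ → ℝ), Supp2 p q ρ →
  ContinuousOn (fun x : ℝ × ℝ => σ x.1 x.2) (Icc 0 1 ×ˢ univ) →
  ContinuousOn (fun x : ℝ × ℝ => v x.1 x.2) (Ioo 0 1 ×ˢ univ) →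
  (∀ c ∈ Ioo (0 : ℝ) 1, ∀ θ, HasDerivAt (fun c => σ c θ) (v c θ) c) →
  (∀ θ, σ 0 θ = 0) → (∀ c ∈ Ioc (0 : ℝ) 1, ∀ θ, 0 < σ c θ) →
  (∀ c ∈ Ioo (0 : ℝ) 1,
    0 ≤ ∫ θ in (0 : ℝ)..(2 * π), QQ (p θ) (q θ) (ρ θ) (σ c θ) * (σ c θ * v c θ)) →
  0 ≤ (∫ θ in (0 : ℝ)..(2 * π), Psi (p θ) (q θ) (ρ θ) (σ 1 θ)) ∧
  ((∫ θ in (0 : ℝ)..(2 * π), Psi (p θ) (q θ) (ρ θ) (σ 1 θ)) ≤ 0 →
    ∀ c ∈ Ioo (0 : ℝ) 1,
      ∫ θ in (0 : ℝ)..(2 * π), QQ (p θ) (q θ) (ρ θ) (σ c θ) * (σ c θ * v c θ) = 0)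

/-- OB7: the second tangent line from an exterior point. -/
def S_second2 : Prop := ∀ (p q ρ : ℝ → ℝ), Supp2 p q ρ →
  (∀ θ s : ℝ, 0 < s → ∃ φ t : ℝ, θ < φ ∧ φ < θ + π ∧ 0 < t ∧ pt p q θ s = pt p q φ (-t)) ∧
  (∀ θ s φ t φ' t' : ℝ, 0 < s → θ < φ → φ < θ + π → θ < φ' → φ' < θ + π →
    pt p q θ s = pt p q φ t → pt p q θ s = pt p q φ' t' → φ = φ' ∧ t = t') ∧
  (∀ θ s s' φ t φ' t' : ℝ, 0 < s → s < s' → θ < φ → φ < θ + π → θ < φ' → φ' < θ + π →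
    pt p q θ s = pt p q φ t → pt p q θ s' = pt p q φ' t' → φ < φ') ∧
  (∀ θ s φ t : ℝ, pt p q θ s = pt p q φ t → θ < φ → φ < θ + 2 * π → s ≠ 0)

end Pool.Agent.H97.OC
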